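import Pool.Agent.Helper10.P3.Cell
import Pool.Agent.Helper10.P3.Cnt3
import Pool.Agent.Helper10.P5.Pal

/-! The combinatorial lemmas: weights and the passage to distinct palindromes. -/

namespace Pool.Agent.Helper10.P3

open Finset Filter Pool.Agent.Helper10 Pool.Agent.Helper10.P5 Pool.Agent.Helper10.P4

open Classical in
lemma comb3 (n : ℕ) (Y : ℝ) (hn : n ≠ 0) (hY : 0 < Y)
    (hsq : ∀ p : ℕ, p.Prime → Real.log p ≤ Y → ¬ p ^ 2 ∣ n) :
    (n.primeFactorsList.length : ℝ) - Real.log n / Y ≤
      ∑ p ∈ n.primeFactors.filter (fun p : ℕ => Real.log (p : ℝ) ≤ Y), (1 - Real.log p / Y) := by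
  have h1 : (n.primeFactorsList.length : ℝ) = ∑ p ∈ n.primeFactors, (n.factorization p : ℝ) := by
    rw [← ArithmeticFunction.cardFactors_apply, ArithmeticFunction.cardFactors_eq_sum_factorization,
      Finsupp.sum, Nat.support_factorization]
    push_cast
    rfl
  have h2 : Real.log n = ∑ p ∈ n.primeFactors, (n.factorization p : ℝ) * Real.log p := by
    rw [Real.log_nat_eq_sum_factorization, Finsupp.sum, Nat.support_factorization]
  rw [h1, h2, Finset.sum_div, ← Finset.sum_sub_distrib, Finset.sum_filter]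
  apply Finset.sum_le_sum
  intro p hp
  have hpp := Nat.prime_of_mem_primeFactors hp
  have hpd := Nat.dvd_of_mem_primeFactors hp
  split_ifs with h
  · have h3 : n.factorization p = 1 := by
      have h4 : 1 ≤ n.factorization p := (hpp.dvd_iff_one_le_factorization hn).mp hpd
      have h5 : ¬ 2 ≤ n.factorization p := by
        intro h6
        exact hsq p hpp h ((hpp.pow_dvd_iff_le_factorization hn).mpr h6)
      omega
    rw [h3]
    simp
  · push Not at h
    have h4 : (1 : ℝ) ≤ Real.log p / Y := by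
      rw [le_div_iff₀ hY]
      linarith
    have h5 : (0 : ℝ) ≤ n.factorization p := Nat.cast_nonneg _
    have e : (n.factorization p : ℝ) - n.factorization p * Real.log p / Y =
        n.factorization p * (1 - Real.log p / Y) := by ring
    rw [e]
    nlinarith

/-- the digit vector of a member -/
def sv {T : ℕ} (e : (Fin T → ℕ) × (Fin T → ℕ)) : Fin T → ℕ := fun i => e.1 i + e.2 i

lemma vl_sv (T : ℕ) (e : (Fin T → ℕ) × (Fin T → ℕ)) : vl T (sv e) = vl T e.1 + vl T e.2 := by
  unfold vl sv
  rw [← Finset.sum_add_distrib]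
  apply Finset.sum_congr rfl
  intro i _
  ring

lemma NN_eq (n : ℕ) (e : (Fin (n - 1) → ℕ) × (Fin (n - 1) → ℕ)) :
    NN 10 (n - 1) (10 ^ (2 * n) + 1) e = Npal n (sv e) := by
  unfold NN Npal
  rw [vl_sv]

lemma sv_mem (T : ℕ) (e : (Fin T → ℕ) × (Fin T → ℕ)) (he : e ∈ EE T) : sv e ∈ KK T 10 := by
  unfold EE KK at he
  rw [Finset.mem_product, Fintype.mem_piFinset, Fintype.mem_piFinset] at he
  unfold KK
  rw [Fintype.mem_piFinset]
  intro i
  have h1 := Finset.mem_range.mp (he.1 i)
  have h2 := Finset.mem_range.mp (he.2 i)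
  rw [Finset.mem_range]
  unfold sv
  omega

/-- pairs with a given sum -/
def pr (d : ℕ) : Finset (ℕ × ℕ) := (range 5 ×ˢ range 6).filter (fun x => x.1 + x.2 = d)

lemma pr_sq : ∑ d ∈ range 10, (pr d).card ^ 2 = 110 := by decide

lemma fiber_le (T : ℕ) (f : Fin T → ℕ) :
    ((EE T).filter (fun e => sv e = f)).card ≤ ∏ i, (pr (f i)).card := by
  classical
  rw [← Fintype.card_piFinset]
  apply Finset.card_le_card_of_injOn (fun e i => (e.1 i, e.2 i))
  · intro e he
    rw [Finset.mem_coe, Finset.mem_filter] at he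
    rw [Finset.mem_coe, Fintype.mem_piFinset]
    intro i
    have h1 := he.1
    unfold EE KK at h1
    rw [Finset.mem_product, Fintype.mem_piFinset, Fintype.mem_piFinset] at h1
    unfold pr
    rw [Finset.mem_filter, Finset.mem_product]
    exact ⟨⟨h1.1 i, h1.2 i⟩, congrFun he.2 i⟩
  · intro e _ e' _ h
    have h2 : ∀ i, (e.1 i, e.2 i) = (e'.1 i, e'.2 i) := fun i => congrFun h i
    apply Prod.ext
    · funext i
      exact (Prod.mk.inj (h2 i)).1
    · funext i
      exact (Prod.mk.inj (h2 i)).2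

lemma fiber_sq (T : ℕ) :
    ∑ f ∈ KK T 10, (((EE T).filter (fun e => sv e = f)).card : ℝ) ^ 2 ≤ 110 ^ T := by
  have h1 : ∑ f ∈ KK T 10, ∏ i, ((pr (f i)).card : ℝ) ^ 2 = 110 ^ T := by
    unfold KK
    rw [← Finset.prod_univ_sum (fun _ : Fin T => range 10) (fun _ d => ((pr d).card : ℝ) ^ 2)]
    have : ∑ d ∈ range 10, ((pr d).card : ℝ) ^ 2 = 110 := by
      have := pr_sq
      exact_mod_cast this
    simp only [this, Finset.prod_const, Finset.card_univ, Fintype.card_fin]
  rw [← h1]
  apply Finset.sum_le_sum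
  intro f _
  rw [Finset.prod_pow]
  apply pow_le_pow_left₀ (Nat.cast_nonneg _)
  have h2 := fiber_le T f
  have h3 : (((EE T).filter (fun e => sv e = f)).card : ℝ) ≤ ((∏ i, (pr (f i)).card : ℕ) : ℝ) := by
    exact_mod_cast h2
  rwa [Nat.cast_prod] at h3

/-- passage to distinct digit vectors -/
theorem distinct (T : ℕ) (A : Finset ((Fin T → ℕ) × (Fin T → ℕ))) (hA : A ⊆ EE T) :
    (A.card : ℝ) ^ 2 ≤ ((A.image sv).card : ℝ) * 110 ^ T := by
  classical
  have h1 : (A.card : ℝ) = ∑ f ∈ A.image sv, ((A.filter (fun e => sv e = f)).card : ℝ) := by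
    have := Finset.card_eq_sum_card_image sv A
    rw [this]
    push_cast
    rfl
  rw [h1]
  refine sq_sum_le_card_mul_sum_sq.trans ?_
  apply mul_le_mul_of_nonneg_left _ (Nat.cast_nonneg _)
  refine le_trans ?_ (fiber_sq T)
  calc ∑ f ∈ A.image sv, ((A.filter (fun e => sv e = f)).card : ℝ) ^ 2
      ≤ ∑ f ∈ A.image sv, (((EE T).filter (fun e => sv e = f)).card : ℝ) ^ 2 := by
        apply Finset.sum_le_sum
        intro f _
        apply pow_le_pow_left₀ (Nat.cast_nonneg _)
        exact_mod_cast Finset.card_le_card (Finset.filter_subset_filter _ hA)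
    _ ≤ _ := by
        apply Finset.sum_le_sum_of_subset_of_nonneg
        · intro f hf
          rw [Finset.mem_image] at hf
          obtain ⟨e, he, rfl⟩ := hf
          exact sv_mem T e (hA he)
        · intro f _ _
          positivity

end Pool.Agent.Helper10.P3
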