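import Pool.Agent.Helper10.P3.LowS

/-! The weighted sieve in abstract form. -/

namespace Pool.Agent.Helper10.P3

open Finset Filter Pool.Agent.Helper10 Pool.Agent.Helper10.P5 Pool.Agent.Helper10.P4

lemma PC_anti (x : ℕ → ℝ) (hx : Antitone x) (a b : ℕ) (h : a ≤ b) (f : ℕ → ℝ) :
    ∑ p ∈ PC (x b) (x a), f p = ∑ k ∈ Ico a b, ∑ p ∈ PC (x (k + 1)) (x k), f p := by
  induction b, h using Nat.le_induction with
  | base => simp [PC_self]
  | succ b hab ih =>
    rw [Finset.sum_Ico_succ_top hab, ← ih, PC_split (x (b + 1)) (x b) (x a)]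
    · exact add_comm _ _
    · exact hx (Nat.le_succ b)
    · exact hx hab

/-- end points of the cells for the primes below the sifting level -/
noncomputable def tt (N k : ℕ) : ℝ := (N : ℝ) / (2 * k + N)

lemma tt_pos (N k : ℕ) (hN : 1 ≤ N) : 0 < tt N k := by
  unfold tt
  have : (0 : ℝ) < N := by exact_mod_cast hN
  positivity

lemma tt_anti (N : ℕ) (hN : 1 ≤ N) : Antitone (tt N) := by
  intro i j hij
  unfold tt
  have hNR : (0 : ℝ) < N := by exact_mod_cast hN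
  have : (i : ℝ) ≤ j := by exact_mod_cast hij
  apply div_le_div_of_nonneg_left hNR.le (by positivity)
  linarith

lemma tt_le_one (N k : ℕ) (hN : 1 ≤ N) : tt N k ≤ 1 := by
  unfold tt
  have hNR : (0 : ℝ) < N := by exact_mod_cast hN
  have : (0 : ℝ) ≤ k := Nat.cast_nonneg k
  rw [div_le_one (by positivity)]
  linarith

lemma tt_w (N k : ℕ) (hN : 1 ≤ N) : (1 - tt N k) / 2 = (k : ℝ) / N * tt N k := by
  unfold tt
  have hNR : (0 : ℝ) < N := by exact_mod_cast hN
  field_simp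
  ring

/-- end points of the cells for the primes above the sifting level -/
noncomputable def ts (N k1 k : ℕ) : ℝ := 1 - 2 * tt N k1 * k / N

lemma ts_anti (N k1 : ℕ) (hN : 1 ≤ N) : Antitone (ts N k1) := by
  intro i j hij
  unfold ts
  have hNR : (0 : ℝ) < N := by exact_mod_cast hN
  have : (i : ℝ) ≤ j := by exact_mod_cast hij
  have h2 := tt_pos N k1 hN
  have : 2 * tt N k1 * i / N ≤ 2 * tt N k1 * j / N := by
    apply div_le_div_of_nonneg_right _ hNR.le
    apply mul_le_mul_of_nonneg_left this (by positivity)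
  linarith

lemma ts_k1 (N k1 : ℕ) (hN : 1 ≤ N) : ts N k1 k1 = tt N k1 := by
  have := tt_w N k1 hN
  unfold ts
  have e : 2 * tt N k1 * k1 / N = 2 * ((k1 : ℝ) / N * tt N k1) := by ring
  rw [e, ← this]
  ring

lemma ts_w (N k1 k : ℕ) : (1 - ts N k1 k) / 2 = (k : ℝ) / N * tt N k1 := by
  unfold ts
  ring

/-- **Buchstab's inequality.** -/
lemma buchstab {ι : Type} (E : Finset ι) (F : ι → ℕ) (x y : ℝ) :
    ((sift E F (zf x)).card : ℝ) ≤ ((sift E F (zf y)).card : ℝ) +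
      ∑ p ∈ PC x y, (((sift E F p).filter (fun e => p ∣ F e)).card : ℝ) := by
  classical
  have h1 : sift E F (zf x) ⊆ sift E F (zf y) ∪
      (PC x y).biUnion (fun p => (sift E F p).filter (fun e => p ∣ F e)) := by
    intro e he
    rw [Finset.mem_union]
    by_cases h : e ∈ sift E F (zf y)
    · exact Or.inl h
    right
    unfold sift at he h
    rw [Finset.mem_filter] at he h
    have h2 : ∃ p, p ∈ PP (zf y) ∧ p ∣ F e := by
      by_contra hcon
      push Not at hcon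
      exact h ⟨he.1, hcon⟩
    obtain ⟨p, ⟨hp1, hp2⟩, hmin⟩ : ∃ p, (p ∈ PP (zf y) ∧ p ∣ F e) ∧
        ∀ q < p, ¬ (q ∈ PP (zf y) ∧ q ∣ F e) :=
      ⟨Nat.find h2, Nat.find_spec h2, fun q hq => Nat.find_min h2 hq⟩
    have hp3 := (mem_PP_zf y p).mp hp1
    rw [Finset.mem_biUnion]
    refine ⟨p, ?_, ?_⟩
    · rw [mem_PC]
      refine ⟨hp3.1, ?_, hp3.2⟩
      by_contra hcon
      push Not at hcon
      exact he.2 p ((mem_PP_zf x p).mpr ⟨hp3.1, hcon⟩) hp2
    · unfold sift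
      rw [Finset.mem_filter, Finset.mem_filter]
      refine ⟨⟨he.1, ?_⟩, hp2⟩
      intro q hq hqd
      rw [mem_PP] at hq
      apply hmin q hq.1
      refine ⟨?_, hqd⟩
      rw [mem_PP]
      have := ((mem_PP _ p).mp hp1).1
      exact ⟨by omega, hq.2⟩
  have h2 : (sift E F (zf x)).card ≤ (sift E F (zf y)).card +
      ∑ p ∈ PC x y, ((sift E F p).filter (fun e => p ∣ F e)).card := by
    refine (Finset.card_le_card h1).trans ((Finset.card_union_le _ _).trans ?_)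
    exact Nat.add_le_add_left Finset.card_biUnion_le _
  exact_mod_cast h2

/-- the primes below the sifting level -/
theorem S2sum (N k0 k1 : ℕ) (hN : 1 ≤ N) (h10 : k1 ≤ k0) (L : ℕ → ℝ)
    (hL : ∀ k ∈ Ico k1 k0, LowP N k (L k) ∧ 0 < L k) (ε : ℝ) (hε : 0 < ε) :
    ∀ᶠ lam : ℝ in atTop, ∀ (ι : Type) (E : Finset ι) (F : ι → ℕ) (X : ℝ) (r : ℕ → ℝ),
      SD lam E F X r →
      ∑ p ∈ PC (tt N k0 * lam) (tt N k1 * lam), (((sift E F p).filter (fun e => p ∣ F e)).card : ℝ) ≤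
        X / (2 / 5 * lam) * (∑ k ∈ Ico k1 k0,
          (tt N k - tt N (k + 1)) / (tt N (k + 1) * tt N (k + 1) * L k) + ε) := by
  classical
  set ε' : ℝ := ε / ((Ico k1 k0).card + 1) with hε'
  have hε'0 : 0 < ε' := by positivity
  have hcells : ∀ᶠ lam : ℝ in atTop, ∀ k ∈ Ico k1 k0, ∀ (ι : Type) (E : Finset ι) (F : ι → ℕ)
      (X : ℝ) (r : ℕ → ℝ), SD lam E F X r → ∀ E' : ℕ → Finset ι,
      (∀ p ∈ PC (tt N (k + 1) * lam) (tt N k * lam), E' p ⊆ E ∧
        ∀ e ∈ E' p, p ∣ F e ∧ ∀ q ∈ PP (zf (tt N (k + 1) * lam)), ¬ q ∣ F e) →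
      ∑ p ∈ PC (tt N (k + 1) * lam) (tt N k * lam), ((E' p).card : ℝ) ≤
        X / (2 / 5 * lam) * ((tt N k - tt N (k + 1)) / (tt N (k + 1) * tt N (k + 1) * L k) + ε') := by
    rw [Filter.eventually_all_finset]
    intro k hk
    obtain ⟨h1, h2⟩ := hL k hk
    apply cellS N k (L k) h1 h2 (tt N (k + 1)) (tt N k) (tt N (k + 1)) ((1 - tt N k) / 2)
      (tt_pos N _ hN) (le_refl _) (tt_anti N hN (Nat.le_succ k))
    · have := tt_le_one N k hN
      linarith
    · linarith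
    · rw [tt_w N k hN]
      apply mul_le_mul_of_nonneg_left (tt_anti N hN (Nat.le_succ k)) (by positivity)
    · exact hε'0
  filter_upwards [hcells, Filter.eventually_ge_atTop 1] with lam hlam hlam1
  intro ι E F X r hSD
  have hlam0 : 0 < lam := by linarith
  have hsplit := PC_anti (fun k => tt N k * lam) (fun i j hij =>
    mul_le_mul_of_nonneg_right (tt_anti N hN hij) hlam0.le) k1 k0 h10
    (fun p => (((sift E F p).filter (fun e => p ∣ F e)).card : ℝ))
  rw [hsplit]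
  have hc : ∀ k ∈ Ico k1 k0, ∑ p ∈ PC (tt N (k + 1) * lam) (tt N k * lam),
      (((sift E F p).filter (fun e => p ∣ F e)).card : ℝ) ≤
        X / (2 / 5 * lam) * ((tt N k - tt N (k + 1)) / (tt N (k + 1) * tt N (k + 1) * L k) + ε') := by
    intro k hk
    apply hlam k hk ι E F X r hSD (fun p => (sift E F p).filter (fun e => p ∣ F e))
    intro p hp
    have hp' := (mem_PC _ _ _).mp hp
    constructor
    · exact (Finset.filter_subset _ _).trans (Finset.filter_subset _ _)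
    · intro e he
      unfold sift at he
      rw [Finset.mem_filter, Finset.mem_filter] at he
      refine ⟨he.2, ?_⟩
      intro q hq
      apply he.1.2 q
      rw [mem_PP] at hq ⊢
      exact ⟨lt_of_lt_of_le hq.1 (zf_le _ _ hp'.1.1.pos hp'.2.1), hq.2⟩
  refine (Finset.sum_le_sum hc).trans ?_
  rw [← Finset.mul_sum, Finset.sum_add_distrib, Finset.sum_const, nsmul_eq_mul]
  apply mul_le_mul_of_nonneg_left _ (div_nonneg hSD.X0 (by positivity))
  have : ((Ico k1 k0).card : ℝ) * ε' ≤ ε := by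
    rw [hε', ← mul_div_assoc, div_le_iff₀ (by positivity)]
    nlinarith
  linarith

/-- the primes above the sifting level -/
theorem S3sum (N k1 k2 : ℕ) (hN : 1 ≤ N) (h21 : k2 ≤ k1) (L : ℕ → ℝ)
    (hL : ∀ k ∈ Ico k2 k1, LowP N k (L k) ∧ 0 < L k) (hτ : 0 < ts N k1 k2) (ε : ℝ) (hε : 0 < ε) :
    ∀ᶠ lam : ℝ in atTop, ∀ (ι : Type) (E : Finset ι) (F : ι → ℕ) (X : ℝ) (r : ℕ → ℝ),
      SD lam E F X r →
      ∑ p ∈ PC (tt N k1 * lam) (ts N k1 k2 * lam), (1 - Real.log p / (ts N k1 k2 * lam)) *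
        (((sift E F (zf (tt N k1 * lam))).filter (fun e => p ∣ F e)).card : ℝ) ≤
        X / (2 / 5 * lam) * (∑ k ∈ Ico k2 k1, (1 - ts N k1 (k + 1) / ts N k1 k2) *
          ((ts N k1 k - ts N k1 (k + 1)) / (ts N k1 (k + 1) * tt N k1 * L k)) + ε) := by
  classical
  set ε' : ℝ := ε / ((Ico k2 k1).card + 1) with hε'
  have hε'0 : 0 < ε' := by positivity
  have hζ := tt_pos N k1 hN
  have hge : ∀ k ∈ Ico k2 k1, tt N k1 ≤ ts N k1 (k + 1) := by
    intro k hk
    rw [Finset.mem_Ico] at hk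
    rw [← ts_k1 N k1 hN]
    exact ts_anti N k1 hN (by omega)
  have hcells : ∀ᶠ lam : ℝ in atTop, ∀ k ∈ Ico k2 k1, ∀ (ι : Type) (E : Finset ι) (F : ι → ℕ)
      (X : ℝ) (r : ℕ → ℝ), SD lam E F X r → ∀ E' : ℕ → Finset ι,
      (∀ p ∈ PC (ts N k1 (k + 1) * lam) (ts N k1 k * lam), E' p ⊆ E ∧
        ∀ e ∈ E' p, p ∣ F e ∧ ∀ q ∈ PP (zf (tt N k1 * lam)), ¬ q ∣ F e) →
      ∑ p ∈ PC (ts N k1 (k + 1) * lam) (ts N k1 k * lam), ((E' p).card : ℝ) ≤
        X / (2 / 5 * lam) * ((ts N k1 k - ts N k1 (k + 1)) /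
          (ts N k1 (k + 1) * tt N k1 * L k) + ε') := by
    rw [Filter.eventually_all_finset]
    intro k hk
    obtain ⟨h1, h2⟩ := hL k hk
    apply cellS N k (L k) h1 h2 (ts N k1 (k + 1)) (ts N k1 k) (tt N k1) ((1 - ts N k1 k) / 2)
      hζ (hge k hk) (ts_anti N k1 hN (Nat.le_succ k))
    · rw [ts_w]
      positivity
    · linarith
    · rw [ts_w]
    · exact hε'0
  filter_upwards [hcells, Filter.eventually_ge_atTop 1] with lam hlam hlam1
  intro ι E F X r hSD
  have hlam0 : 0 < lam := by linarith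
  set S := sift E F (zf (tt N k1 * lam)) with hS
  have hsplit := PC_anti (fun k => ts N k1 k * lam) (fun i j hij =>
    mul_le_mul_of_nonneg_right (ts_anti N k1 hN hij) hlam0.le) k2 k1 h21
    (fun p => (1 - Real.log p / (ts N k1 k2 * lam)) * ((S.filter (fun e => p ∣ F e)).card : ℝ))
  simp only [ts_k1 N k1 hN] at hsplit
  rw [hsplit]
  have hτl : 0 < ts N k1 k2 * lam := mul_pos hτ hlam0
  have hc : ∀ k ∈ Ico k2 k1, ∑ p ∈ PC (ts N k1 (k + 1) * lam) (ts N k1 k * lam),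
      (1 - Real.log p / (ts N k1 k2 * lam)) * ((S.filter (fun e => p ∣ F e)).card : ℝ) ≤
        X / (2 / 5 * lam) * ((1 - ts N k1 (k + 1) / ts N k1 k2) *
          ((ts N k1 k - ts N k1 (k + 1)) / (ts N k1 (k + 1) * tt N k1 * L k)) + ε') := by
    intro k hk
    have h1 := hlam k hk ι E F X r hSD (fun p => S.filter (fun e => p ∣ F e)) (by
      intro p hp
      constructor
      · exact (Finset.filter_subset _ _).trans (Finset.filter_subset _ _)
      · intro e he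
        rw [hS] at he
        unfold sift at he
        rw [Finset.mem_filter, Finset.mem_filter] at he
        exact ⟨he.2, he.1.2⟩)
    have hk' := Finset.mem_Ico.mp hk
    have hω1 : ts N k1 (k + 1) / ts N k1 k2 ≤ 1 := by
      rw [div_le_one hτ]
      exact ts_anti N k1 hN (by omega)
    have hω0 : 0 ≤ 1 - ts N k1 (k + 1) / ts N k1 k2 := by linarith
    have hω2 : 1 - ts N k1 (k + 1) / ts N k1 k2 ≤ 1 := by
      have : 0 ≤ ts N k1 (k + 1) / ts N k1 k2 := by
        apply div_nonneg _ hτ.le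
        linarith [hge k hk]
      linarith
    calc ∑ p ∈ PC (ts N k1 (k + 1) * lam) (ts N k1 k * lam),
          (1 - Real.log p / (ts N k1 k2 * lam)) * ((S.filter (fun e => p ∣ F e)).card : ℝ)
        ≤ ∑ p ∈ PC (ts N k1 (k + 1) * lam) (ts N k1 k * lam),
          (1 - ts N k1 (k + 1) / ts N k1 k2) * ((S.filter (fun e => p ∣ F e)).card : ℝ) := by
          apply Finset.sum_le_sum
          intro p hp
          apply mul_le_mul_of_nonneg_right _ (Nat.cast_nonneg _)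
          have hp' := (mem_PC _ _ _).mp hp
          have h2 : ts N k1 (k + 1) / ts N k1 k2 ≤ Real.log p / (ts N k1 k2 * lam) := by
            rw [div_le_div_iff₀ hτ hτl]
            nlinarith [hp'.2.1]
          linarith
      _ = (1 - ts N k1 (k + 1) / ts N k1 k2) * ∑ p ∈ PC (ts N k1 (k + 1) * lam) (ts N k1 k * lam),
          ((S.filter (fun e => p ∣ F e)).card : ℝ) := by rw [Finset.mul_sum]
      _ ≤ (1 - ts N k1 (k + 1) / ts N k1 k2) * (X / (2 / 5 * lam) *
          ((ts N k1 k - ts N k1 (k + 1)) / (ts N k1 (k + 1) * tt N k1 * L k) + ε')) :=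
          mul_le_mul_of_nonneg_left h1 hω0
      _ = X / (2 / 5 * lam) * ((1 - ts N k1 (k + 1) / ts N k1 k2) *
          ((ts N k1 k - ts N k1 (k + 1)) / (ts N k1 (k + 1) * tt N k1 * L k)) +
          (1 - ts N k1 (k + 1) / ts N k1 k2) * ε') := by ring
      _ ≤ _ := by
          apply mul_le_mul_of_nonneg_left _ (div_nonneg hSD.X0 (by positivity))
          have := mul_le_mul_of_nonneg_right hω2 hε'0.le
          linarith
  refine (Finset.sum_le_sum hc).trans ?_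
  rw [← Finset.mul_sum, Finset.sum_add_distrib, Finset.sum_const, nsmul_eq_mul]
  apply mul_le_mul_of_nonneg_left _ (div_nonneg hSD.X0 (by positivity))
  have : ((Ico k2 k1).card : ℝ) * ε' ≤ ε := by
    rw [hε', ← mul_div_assoc, div_le_iff₀ (by positivity)]
    nlinarith
  linarith

/-- **The weighted sieve.** -/
theorem abs3 (N k0 k1 k2 : ℕ) (hN : 1 ≤ N) (h10 : k1 ≤ k0) (h21 : k2 ≤ k1) (L : ℕ → ℝ)
    (hL : ∀ k ∈ Ico k2 k0, LowP N k (L k) ∧ 0 < L k) (hτ : 0 < ts N k1 k2) (Q1 : ℝ)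
    (hQ1 : ∀ ε : ℝ, 0 < ε → ∀ᶠ lam : ℝ in atTop, ∀ (ι : Type) (E : Finset ι) (F : ι → ℕ) (X : ℝ)
      (r : ℕ → ℝ), SD lam E F X r → X / (2 / 5 * lam) * (Q1 - ε) ≤
        ((sift E F (zf (tt N k0 * lam))).card : ℝ))
    (ρ : ℝ) (hρ : 0 < ρ) (M : ℝ)
    (hM : M < Q1 - ∑ k ∈ Ico k1 k0, (tt N k - tt N (k + 1)) / (tt N (k + 1) * tt N (k + 1) * L k) -
      ρ * ∑ k ∈ Ico k2 k1, (1 - ts N k1 (k + 1) / ts N k1 k2) *
          ((ts N k1 k - ts N k1 (k + 1)) / (ts N k1 (k + 1) * tt N k1 * L k))) :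
    ∀ᶠ lam : ℝ in atTop, ∀ (ι : Type) (E : Finset ι) (F : ι → ℕ) (X : ℝ) (r : ℕ → ℝ),
      SD lam E F X r → X / (2 / 5 * lam) * M ≤ ∑ e ∈ sift E F (zf (tt N k1 * lam)),
        (1 - ρ * ∑ p ∈ (PC (tt N k1 * lam) (ts N k1 k2 * lam)).filter (fun p => p ∣ F e),
          (1 - Real.log p / (ts N k1 k2 * lam))) := by
  classical
  set Q2 := ∑ k ∈ Ico k1 k0, (tt N k - tt N (k + 1)) / (tt N (k + 1) * tt N (k + 1) * L k) with hQ2
  set Q3 := ∑ k ∈ Ico k2 k1, (1 - ts N k1 (k + 1) / ts N k1 k2) *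
          ((ts N k1 k - ts N k1 (k + 1)) / (ts N k1 (k + 1) * tt N k1 * L k)) with hQ3
  set ε : ℝ := (Q1 - Q2 - ρ * Q3 - M) / (2 + ρ) with hε
  have hε0 : 0 < ε := by
    rw [hε]
    apply div_pos (by linarith) (by linarith)
  have hε2 : (2 + ρ) * ε = Q1 - Q2 - ρ * Q3 - M := by
    rw [hε]
    field_simp
  have h2 := S2sum N k0 k1 hN h10 L (fun k hk => hL k (by
    rw [Finset.mem_Ico] at hk ⊢
    omega)) ε hε0
  have h3 := S3sum N k1 k2 hN h21 L (fun k hk => hL k (by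
    rw [Finset.mem_Ico] at hk ⊢
    omega)) hτ ε hε0
  filter_upwards [hQ1 ε hε0, h2, h3, Filter.eventually_ge_atTop 1] with lam g1 g2 g3 hlam1
  intro ι E F X r hSD
  have hlam0 : 0 < lam := by linarith
  have b1 := g1 ι E F X r hSD
  have b2 := g2 ι E F X r hSD
  have b3 := g3 ι E F X r hSD
  have b4 := buchstab E F (tt N k0 * lam) (tt N k1 * lam)
  set S := sift E F (zf (tt N k1 * lam)) with hS
  have e1 : ∑ e ∈ S, (1 - ρ * ∑ p ∈ (PC (tt N k1 * lam) (ts N k1 k2 * lam)).filter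
      (fun p => p ∣ F e), (1 - Real.log p / (ts N k1 k2 * lam))) =
      (S.card : ℝ) - ρ * ∑ p ∈ PC (tt N k1 * lam) (ts N k1 k2 * lam),
        (1 - Real.log p / (ts N k1 k2 * lam)) * ((S.filter (fun e => p ∣ F e)).card : ℝ) := by
    rw [Finset.sum_sub_distrib, Finset.sum_const, nsmul_eq_mul, mul_one, ← Finset.mul_sum]
    congr 2
    simp only [Finset.sum_filter]
    rw [Finset.sum_comm]
    apply Finset.sum_congr rfl
    intro p _
    rw [← Finset.sum_filter, Finset.sum_const, nsmul_eq_mul, mul_comm]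
  rw [e1]
  have hX : 0 ≤ X / (2 / 5 * lam) := div_nonneg hSD.X0 (by positivity)
  have b5 := mul_le_mul_of_nonneg_left b3 hρ.le
  have e2 : X / (2 / 5 * lam) * M = X / (2 / 5 * lam) * (Q1 - ε) - X / (2 / 5 * lam) * (Q2 + ε) -
      ρ * (X / (2 / 5 * lam) * (Q3 + ε)) := by
    have : M = (Q1 - ε) - (Q2 + ε) - ρ * (Q3 + ε) := by linarith
    rw [this]
    ring
  rw [e2]
  linarith

end Pool.Agent.Helper10.P3
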