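import Pool.Agent.Helper10.P3.GStep

/-! The upper bound sieve over one logarithmic cell of primes. -/

namespace Pool.Agent.Helper10.P3

open Finset Filter Pool.Agent.Helper10 Pool.Agent.Helper10.P5 Pool.Agent.Helper10.P4

/-- hypotheses of the sieve: level of distribution `exp Λ` -/
structure SD (lam : ℝ) {ι : Type} (E : Finset ι) (N : ι → ℕ) (X : ℝ) (r : ℕ → ℝ) : Prop where
  X0 : 0 ≤ X
  r0 : ∀ q, 0 ≤ r q
  hr : ∀ q : ℕ, 0 < q → q.Coprime 10 → |((E.filter (fun e => q ∣ N e)).card : ℝ) - X / q| ≤ r q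
  err : ∀ Q : ℕ, (Q : ℝ) ≤ 2 * Real.exp lam → errTot r Q ≤ X / lam ^ 6

/-- sifting level -/
noncomputable def zf (x : ℝ) : ℕ := ⌊Real.exp x⌋₊ + 1

/-- support of the weights -/
noncomputable def wf (x : ℝ) : ℕ := ⌊Real.exp x⌋₊

lemma zf_le (x : ℝ) (p : ℕ) (hp : 1 ≤ p) (h : x < Real.log p) : zf x ≤ p := by
  unfold zf
  by_contra hcon
  push Not at hcon
  have h1 : p ≤ ⌊Real.exp x⌋₊ := by omega
  have := (le_exp_iff p hp x).mp h1
  linarith

lemma mem_PP_zf (x : ℝ) (p : ℕ) : p ∈ PP (zf x) ↔ (p.Prime ∧ p.Coprime 10) ∧ Real.log p ≤ x := by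
  rw [mem_PP]
  unfold zf
  constructor
  · rintro ⟨h1, h2, h3⟩
    exact ⟨⟨h2, h3⟩, (le_exp_iff p h2.pos x).mp (by omega)⟩
  · rintro ⟨⟨h2, h3⟩, h4⟩
    have := (le_exp_iff p h2.pos x).mpr h4
    exact ⟨by omega, h2, h3⟩

lemma log_zf (x : ℝ) (hx : 0 ≤ x) : x ≤ Real.log (zf x) ∧ Real.log (zf x) ≤ x + Real.log 2 := by
  have h1 : (1 : ℝ) ≤ Real.exp x := Real.one_le_exp hx
  have h2 : Real.exp x < (⌊Real.exp x⌋₊ : ℝ) + 1 := Nat.lt_floor_add_one _
  have h3 : (⌊Real.exp x⌋₊ : ℝ) ≤ Real.exp x := Nat.floor_le (Real.exp_pos x).le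
  unfold zf
  push_cast
  constructor
  · have := Real.log_le_log (Real.exp_pos x) h2.le
    rwa [Real.log_exp] at this
  · have h4 : (⌊Real.exp x⌋₊ : ℝ) + 1 ≤ 2 * Real.exp x := by linarith
    have := Real.log_le_log (by positivity) h4
    rw [Real.log_mul (by norm_num) (Real.exp_pos x).ne', Real.log_exp] at this
    linarith

/-- size of the sieve weights -/
lemma lm_yS_abs : ∃ C : ℝ, 0 < C ∧ ∀ lam w : ℝ, 1 ≤ lam → 0 ≤ w → w ≤ 1 → ∀ z : ℕ,
    ∀ d ∈ DD (wf (w * lam)), |lm (wf (w * lam)) (yS (wf (w * lam)) z) d| ≤ C * lam ^ 2 := by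
  obtain ⟨C0, hC01, hG⟩ := G5_asymp
  refine ⟨(1 + C0) * 2, by positivity, ?_⟩
  intro lam w hlam hw0 hw1 z d hd
  have hwl : 0 ≤ w * lam := by positivity
  obtain ⟨h1, h2, h3⟩ := log_floor_exp (w * lam) hwl
  have hwl1 : w * lam ≤ lam := by nlinarith
  have h4 := lm_abs_le (wf (w * lam)) (yS (wf (w * lam)) z) 1 (yS_nonneg _ z)
    (fun k => yS_le _ z k h1) d hd
  rw [one_mul] at h4
  refine h4.trans ?_
  have h5 : G5 (wf (w * lam)) ≤ (1 + C0) * lam := by
    refine (hG _ h1).2.trans ?_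
    nlinarith
  have h6 : 1 + Real.log (wf (w * lam)) ≤ 2 * lam := by
    unfold wf
    linarith
  have h7 : 0 ≤ 1 + Real.log (wf (w * lam)) := by
    have := Real.log_natCast_nonneg (wf (w * lam))
    linarith
  calc G5 (wf (w * lam)) * (1 + Real.log (wf (w * lam))) ≤ ((1 + C0) * lam) * (2 * lam) :=
        mul_le_mul h5 h6 h7 (by positivity)
    _ = (1 + C0) * 2 * lam ^ 2 := by ring

/-- **Upper bound over one cell.** -/
theorem cellS (N k : ℕ) (L : ℝ) (hLow : LowP N k L) (hL : 0 < L) (s t v w : ℝ) (hv : 0 < v)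
    (hvs : v ≤ s) (hst : s ≤ t) (hw0 : 0 ≤ w) (hwt : 2 * w + t ≤ 1)
    (hkw : (k : ℝ) / N * v ≤ w) (ε : ℝ) (hε : 0 < ε) :
    ∀ᶠ lam : ℝ in atTop, ∀ (ι : Type) (E : Finset ι) (F : ι → ℕ) (X : ℝ) (r : ℕ → ℝ),
      SD lam E F X r → ∀ E' : ℕ → Finset ι,
      (∀ p ∈ PC (s * lam) (t * lam), E' p ⊆ E ∧
        ∀ e ∈ E' p, p ∣ F e ∧ ∀ q ∈ PP (zf (v * lam)), ¬ q ∣ F e) →
      ∑ p ∈ PC (s * lam) (t * lam), ((E' p).card : ℝ) ≤
        X / (2 / 5 * lam) * ((t - s) / (s * v * L) + ε) := by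
  obtain ⟨C1, hC1, hM1⟩ := M1
  obtain ⟨C2, hC2, hlm⟩ := lm_yS_abs
  have hs : 0 < s := lt_of_lt_of_le hv hvs
  have hkN : 0 ≤ (k : ℝ) / N := by positivity
  have hl2 : 0 ≤ Real.log 2 := Real.log_nonneg (by norm_num)
  -- choice of eta
  have hcont : ContinuousAt (fun η : ℝ => 1 / (v * (L - η)) * ((t - s) / s + η) + η) 0 := by
    have h1 : v * (L - 0) ≠ 0 := by
      rw [sub_zero]
      positivity
    fun_prop (disch := assumption)
  have hev := hcont.eventually (gt_mem_nhds (show (fun η : ℝ => 1 / (v * (L - η)) * ((t - s) / s + η) + η) 0 <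
      (t - s) / (s * v * L) + ε by
    simp only [sub_zero, add_zero]
    have e1 : 1 / (v * L) * ((t - s) / s) = (t - s) / (s * v * L) := by
      field_simp
    rw [e1]
    linarith))
  have hev2 : ∀ᶠ η : ℝ in nhds 0, η < L / 2 := gt_mem_nhds (by positivity)
  obtain ⟨η, hη, hηpos⟩ := ((hev.and hev2).filter_mono nhdsWithin_le_nhds |>.and
    (self_mem_nhdsWithin (s := Set.Ioi (0 : ℝ)))).exists
  have hη0 : 0 < η := hηpos
  obtain ⟨hη1, hη2⟩ := hη
  obtain ⟨z0, hz0⟩ := hLow η hη0 ((k : ℝ) / N * Real.log 2 + Real.log 2)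
  filter_upwards [Filter.eventually_ge_atTop 1, Filter.eventually_ge_atTop (C1 / (s * η)),
    Filter.eventually_ge_atTop (C2 ^ 2 * (2 / 5) / η), Filter.eventually_ge_atTop (Real.log (z0 + 1) / v)]
    with lam hlam1 hlam2 hlam3 hlam4
  intro ι E F X r hSD E' hE'
  have hlam0 : 0 < lam := by linarith
  have hvl : 0 < v * lam := by positivity
  have hsl : 0 < s * lam := by positivity
  have hstl : s * lam ≤ t * lam := mul_le_mul_of_nonneg_right hst hlam0.le
  have hvsl : v * lam ≤ s * lam := mul_le_mul_of_nonneg_right hvs hlam0.le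
  have hwl : 0 ≤ w * lam := by positivity
  have hw1 : w ≤ 1 := by
    have : 0 ≤ t := by linarith
    linarith
  obtain ⟨hW1, hW2, hW3⟩ := log_floor_exp (w * lam) hwl
  obtain ⟨hz1, hz2⟩ := log_zf (v * lam) hvl.le
  set W := wf (w * lam) with hW
  set z := zf (v * lam) with hz
  have hWeq : W = ⌊Real.exp (w * lam)⌋₊ := rfl
  rw [← hWeq] at hW1 hW2 hW3
  -- lower bound for GS
  have hzz0 : z0 ≤ z := by
    have h1 : Real.log (z0 + 1) ≤ Real.log z := by
      rw [div_le_iff₀ hv] at hlam4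
      linarith
    have hzpos : (0 : ℝ) < z := by
      rw [hz]
      unfold zf
      positivity
    have h2 := (Real.log_le_log_iff (by positivity) hzpos).mp h1
    have h3 : (z0 : ℝ) ≤ z := by linarith
    exact_mod_cast h3
  have hGS : 2 / 5 * (v * lam) * (L - η) ≤ GS W z := by
    have h1 := hz0 z hzz0 W hW1 (by
      have h2 : (k : ℝ) / N * Real.log z ≤ (k : ℝ) / N * (v * lam + Real.log 2) :=
        mul_le_mul_of_nonneg_left hz2 hkN
      have h3 : (k : ℝ) / N * (v * lam) ≤ w * lam := by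
        rw [← mul_assoc]
        exact mul_le_mul_of_nonneg_right hkw hlam0.le
      linarith)
    refine le_trans ?_ h1
    apply mul_le_mul_of_nonneg_right _ (by linarith)
    linarith
  have hLη : 0 < L - η := by linarith
  have hGS0 : 0 < 2 / 5 * (v * lam) * (L - η) := by positivity
  have hGSpos : 0 < GS W z := lt_of_lt_of_le hGS0 hGS
  set B : ℝ := C2 * lam ^ 2 with hB
  have hBle : ∀ d ∈ DD W, |lm W (yS W z) d| ≤ B := fun d hd => hlm lam w hlam1 hw0 hw1 z d hd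
  -- each prime
  have hterm : ∀ p ∈ PC (s * lam) (t * lam), ((E' p).card : ℝ) ≤
      X / GS W z * (1 / ((p : ℝ) - 1)) + B ^ 2 * ∑ d1 ∈ DD W, ∑ d2 ∈ DD W,
        r (Nat.lcm (Nat.lcm d1 d2) p) := by
    intro p hp
    have hp' := (mem_PC _ _ _).mp hp
    obtain ⟨h1, h2⟩ := hE' p hp
    have hzp : z ≤ p := by
      apply zf_le _ _ hp'.1.1.pos
      linarith [hp'.2.1]
    have h3 := up4 E F X hSD.X0 r hSD.hr W z p hW1 hp'.1.1 hp'.1.2 hzp B hBle (E' p) h1 h2
    have hp1 : (1 : ℝ) < p := by exact_mod_cast hp'.1.1.one_lt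
    have h4 : X / (p * GS W z) ≤ X / GS W z * (1 / ((p : ℝ) - 1)) := by
      rw [div_mul_div_comm, mul_one]
      apply div_le_div_of_nonneg_left hSD.X0 (by
        have : 0 < (p : ℝ) - 1 := by linarith
        positivity)
      rw [mul_comm (p : ℝ)]
      apply mul_le_mul_of_nonneg_left _ hGSpos.le
      linarith
    linarith
  refine (Finset.sum_le_sum hterm).trans ?_
  rw [Finset.sum_add_distrib, ← Finset.mul_sum, ← Finset.mul_sum]
  -- reciprocals
  have hrec : ∑ p ∈ PC (s * lam) (t * lam), 1 / ((p : ℝ) - 1) ≤ (t - s) / s + η := by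
    refine (cell_recip C1 hM1 (s * lam) (t * lam) hsl hstl).1.trans ?_
    have e1 : (t * lam - s * lam + C1) / (s * lam) = (t - s) / s + C1 / (s * lam) := by
      field_simp
    rw [e1]
    have h1 : C1 / (s * lam) ≤ η := by
      rw [div_le_iff₀ hsl]
      rw [div_le_iff₀ (by positivity)] at hlam2
      linarith
    linarith
  have hrec0 : 0 ≤ ∑ p ∈ PC (s * lam) (t * lam), 1 / ((p : ℝ) - 1) := by
    apply Finset.sum_nonneg
    intro p hp
    have hp1 : (1 : ℝ) < p := by exact_mod_cast ((mem_PC _ _ _).mp hp).1.1.one_lt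
    have : 0 < (p : ℝ) - 1 := by linarith
    positivity
  have hmain : X / GS W z * ∑ p ∈ PC (s * lam) (t * lam), 1 / ((p : ℝ) - 1) ≤
      X / (2 / 5 * lam) * (1 / (v * (L - η)) * ((t - s) / s + η)) := by
    calc X / GS W z * ∑ p ∈ PC (s * lam) (t * lam), 1 / ((p : ℝ) - 1)
        ≤ X / (2 / 5 * (v * lam) * (L - η)) * ((t - s) / s + η) := by
          apply mul_le_mul _ hrec hrec0 (div_nonneg hSD.X0 hGS0.le)
          exact div_le_div_of_nonneg_left hSD.X0 hGS0 hGS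
      _ = X / (2 / 5 * lam) * (1 / (v * (L - η)) * ((t - s) / s + η)) := by
          field_simp
  -- error
  have herr : B ^ 2 * ∑ p ∈ PC (s * lam) (t * lam), ∑ d1 ∈ DD W, ∑ d2 ∈ DD W,
      r (Nat.lcm (Nat.lcm d1 d2) p) ≤ X / (2 / 5 * lam) * η := by
    have h1 := err_regroup r hSD.r0 W (wf (t * lam)) (PC (s * lam) (t * lam)) (by
      intro p hp
      have hp' := (mem_PC _ _ _).mp hp
      exact ⟨hp'.1.1.pos, (le_exp_iff p hp'.1.1.pos _).mpr hp'.2.2, hp'.1.2⟩)
    have h2 : ((W * W * wf (t * lam) : ℕ) : ℝ) ≤ 2 * Real.exp lam := by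
      push_cast
      have a1 : (W : ℝ) ≤ Real.exp (w * lam) := Nat.floor_le (Real.exp_pos _).le
      have a2 : (wf (t * lam) : ℝ) ≤ Real.exp (t * lam) := Nat.floor_le (Real.exp_pos _).le
      have a3 : Real.exp (w * lam) * Real.exp (w * lam) * Real.exp (t * lam) ≤ Real.exp lam := by
        rw [← Real.exp_add, ← Real.exp_add, Real.exp_le_exp]
        have : (2 * w + t) * lam ≤ 1 * lam := mul_le_mul_of_nonneg_right hwt hlam0.le
        linarith
      calc (W : ℝ) * W * (wf (t * lam) : ℝ) ≤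
            Real.exp (w * lam) * Real.exp (w * lam) * Real.exp (t * lam) := by
            apply mul_le_mul _ a2 (Nat.cast_nonneg _) (by positivity)
            exact mul_le_mul a1 a1 (Nat.cast_nonneg _) (by positivity)
        _ ≤ Real.exp lam := a3
        _ ≤ 2 * Real.exp lam := by linarith [Real.exp_pos lam]
    have h3 := hSD.err _ h2
    calc B ^ 2 * ∑ p ∈ PC (s * lam) (t * lam), ∑ d1 ∈ DD W, ∑ d2 ∈ DD W,
          r (Nat.lcm (Nat.lcm d1 d2) p) ≤ B ^ 2 * (X / lam ^ 6) :=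
          mul_le_mul_of_nonneg_left (h1.trans h3) (sq_nonneg _)
      _ = X / (2 / 5 * lam) * (C2 ^ 2 * (2 / 5) / lam) := by
          rw [hB]
          field_simp
      _ ≤ X / (2 / 5 * lam) * η := by
          apply mul_le_mul_of_nonneg_left _ (div_nonneg hSD.X0 (by positivity))
          rw [div_le_iff₀ hlam0]
          rw [div_le_iff₀ hη0] at hlam3
          linarith
  have hfin : X / (2 / 5 * lam) * (1 / (v * (L - η)) * ((t - s) / s + η) + η) ≤
      X / (2 / 5 * lam) * ((t - s) / (s * v * L) + ε) :=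
    mul_le_mul_of_nonneg_left hη1.le (div_nonneg hSD.X0 (by positivity))
  rw [mul_add] at hfin
  linarith

end Pool.Agent.Helper10.P3
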