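import Mathlib
import Pool.Agent.Helper19.P3.Defs4
import Pool.Agent.Helper58.LT.Pos
import Pool.Agent.Helper58.LT.FourG
import Pool.Agent.Helper58.LT.Holder3

/-!
# Project PS4, leaf fourier_core: the Fourier bound for the weighted count and Hölder's inequality
-/

namespace Pool.Agent.Helper19.P3

open Finset Pool.Agent.Helper6.Lehmer Pool.Agent.Helper6.LehmerCount Pool.Agent.Helper58.LT
open Pool.Agent.Helper58.PS Pool.Agent.Helper6.PW

private theorem js_eq {G : Type*} [AddCommGroup G] [Fintype G] [DecidableEq G]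
    (f : ℕ → G) (P : Finset ℕ) (m : ℕ) :
    (Js P f m : ℝ) = (Fintype.card G : ℝ)⁻¹ * ∑ χ : AddChar G ℂ, ‖Sf P f χ‖ ^ (2 * m) := by
  unfold Js
  rw [en_eq]
  congr 1
  refine sum_congr rfl fun χ _ => ?_
  rw [Sf_tup, norm_pow, ← pow_mul, mul_comm m 2]

/-- the weighted count by characters -/
private theorem count_eq {G : Type*} [AddCommGroup G] [Fintype G] [DecidableEq G]
    (f : ℕ → G) (T P : Finset ℕ) (w : G → ℝ) (m : ℕ) (u : G) :
    (((∑ z ∈ T ×ˢ tup P m, if f z.1 + sm' f z.2 = u then w (f z.1) else 0 : ℝ)) : ℂ) =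
      (Fintype.card G : ℂ)⁻¹ * ∑ χ : AddChar G ℂ,
        (∑ t ∈ T, (w (f t) : ℂ) * χ (f t)) * Sf P f χ ^ m * χ (-u) := by
  have hG : (Fintype.card G : ℂ) ≠ 0 := Nat.cast_ne_zero.2 Fintype.card_ne_zero
  have h1 : ∀ χ : AddChar G ℂ, (∑ t ∈ T, (w (f t) : ℂ) * χ (f t)) * Sf P f χ ^ m * χ (-u) =
      ∑ z ∈ T ×ˢ tup P m, (w (f z.1) : ℂ) * χ (f z.1 + sm' f z.2 - u) := by
    intro χ
    rw [← Sf_tup, Sf, sum_mul_sum, ← sum_product', sum_mul]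
    refine sum_congr rfl fun z _ => ?_
    rw [sub_eq_add_neg, AddChar.map_add_eq_mul, AddChar.map_add_eq_mul]
    ring
  simp only [h1]
  rw [sum_comm]
  simp only [← mul_sum, AddChar.sum_apply_eq_ite, sub_eq_zero]
  rw [Complex.ofReal_sum, mul_sum]
  refine sum_congr rfl fun z _ => ?_
  by_cases h : f z.1 + sm' f z.2 = u
  · rw [if_pos h, if_pos h]
    field_simp
  · rw [if_neg h, if_neg h]
    simp

private theorem split2 {x y : ℝ} (hx : 0 ≤ x) (hy : 0 ≤ y) (i r K : ℕ) (hr : 1 ≤ r)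
    (hK : i < K) :
    y * x ^ (i + r) = (y ^ 2 * x ^ (2 * (r : ℝ) - 1 / 2)) ^ ((1 : ℝ) / 2) *
      (x ^ (2 * i)) ^ ((1 : ℝ) / 2 * (1 - 1 / (4 * ((K : ℝ) - i)))) *
      (x ^ (2 * K)) ^ ((1 : ℝ) / 2 * (1 / (4 * ((K : ℝ) - i)))) := by
  have hKi : (0 : ℝ) < (K : ℝ) - i := by
    have : (i : ℝ) < K := by exact_mod_cast hK
    linarith
  rcases hx.eq_or_lt with h0 | h0
  · subst h0
    have hir : i + r ≠ 0 := by omega
    have hK0 : 2 * K ≠ 0 := by omega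
    have e0 : ((0 : ℝ) ^ (2 * K)) ^ ((1 : ℝ) / 2 * (1 / (4 * ((K : ℝ) - i)))) = 0 := by
      rw [zero_pow hK0, Real.zero_rpow]
      positivity
    rw [e0, zero_pow hir, mul_zero, mul_zero]
  · rw [Real.mul_rpow (by positivity) (by positivity)]
    have e1 : (y ^ 2) ^ ((1 : ℝ) / 2) = y := by
      rw [← Real.rpow_natCast, ← Real.rpow_mul hy]
      norm_num
    have e2 : ∀ (n : ℕ) (c : ℝ), (x ^ n) ^ c = x ^ ((n : ℝ) * c) := by
      intro n c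
      rw [← Real.rpow_natCast, ← Real.rpow_mul h0.le]
    rw [e1, ← Real.rpow_mul h0.le, e2, e2, ← Real.rpow_natCast, mul_assoc, mul_assoc,
      ← Real.rpow_add h0, ← Real.rpow_add h0]
    congr 2
    push_cast
    field_simp
    ring

/-- Hölder -/
theorem fourier_core {G : Type*} [AddCommGroup G] [Fintype G] [DecidableEq G]
    (f : ℕ → G) (T P : Finset ℕ) (w : G → ℝ) (hw0 : ∀ a, 0 ≤ w a)
    (i r K : ℕ) (hr : 1 ≤ r) (hK : i < K) (B J₁ J₂ : ℝ)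
    (h2 : (Fintype.card G : ℝ)⁻¹ * ∑ χ : AddChar G ℂ, ‖∑ t ∈ T, (w (f t) : ℂ) * χ (f t)‖ ^ 2 *
      ‖Sf P f χ‖ ^ (2 * (r : ℝ) - 1 / 2) ≤ B)
    (hJ₁ : (Js P f i : ℝ) ≤ J₁) (hJ₂ : (Js P f K : ℝ) ≤ J₂)
    (T₀ : Finset ℕ) (hT₀ : T₀ ⊆ T) (hT₁ : ∀ t ∈ T₀, 1 ≤ w (f t)) (u : G) :
    (#{z ∈ T₀ ×ˢ tup P (i + r) | f z.1 + sm' f z.2 = u} : ℝ) ≤
      B ^ ((1 : ℝ) / 2) * J₁ ^ ((1 : ℝ) / 2 * (1 - 1 / (4 * ((K : ℝ) - i)))) *
        J₂ ^ ((1 : ℝ) / 2 * (1 / (4 * ((K : ℝ) - i)))) := by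
  have hG : (0 : ℝ) < (Fintype.card G : ℝ) := Nat.cast_pos.2 Fintype.card_pos
  have hKi : (1 : ℝ) ≤ (K : ℝ) - i := by
    have : ((i + 1 : ℕ) : ℝ) ≤ K := by exact_mod_cast hK
    push_cast at this
    linarith
  -- step 1: the count is at most the weighted count
  have s1 : (#{z ∈ T₀ ×ˢ tup P (i + r) | f z.1 + sm' f z.2 = u} : ℝ) ≤
      ∑ z ∈ T ×ˢ tup P (i + r), if f z.1 + sm' f z.2 = u then w (f z.1) else 0 := by
    rw [card_filter, Nat.cast_sum]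
    calc (∑ z ∈ T₀ ×ˢ tup P (i + r), ((if f z.1 + sm' f z.2 = u then 1 else 0 : ℕ) : ℝ))
        ≤ ∑ z ∈ T₀ ×ˢ tup P (i + r), (if f z.1 + sm' f z.2 = u then w (f z.1) else 0) := by
          refine sum_le_sum fun z hz => ?_
          split_ifs with h
          · rw [Nat.cast_one]
            exact hT₁ _ (mem_product.1 hz).1
          · simp
      _ ≤ _ := by
          refine sum_le_sum_of_subset_of_nonneg (product_subset_product_left hT₀) ?_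
          intro z _ _
          split_ifs
          · exact hw0 _
          · exact le_rfl
  -- step 2: characters
  have s2 : (∑ z ∈ T ×ˢ tup P (i + r), if f z.1 + sm' f z.2 = u then w (f z.1) else 0 : ℝ) ≤
      (Fintype.card G : ℝ)⁻¹ * ∑ χ : AddChar G ℂ, ‖∑ t ∈ T, (w (f t) : ℂ) * χ (f t)‖ *
        ‖Sf P f χ‖ ^ (i + r) := by
    have h0 : 0 ≤ (∑ z ∈ T ×ˢ tup P (i + r), if f z.1 + sm' f z.2 = u then w (f z.1) else 0 : ℝ) := by
      refine sum_nonneg fun z _ => ?_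
      split_ifs
      · exact hw0 _
      · exact le_rfl
    calc (∑ z ∈ T ×ˢ tup P (i + r), if f z.1 + sm' f z.2 = u then w (f z.1) else 0 : ℝ)
        = ‖(((∑ z ∈ T ×ˢ tup P (i + r), if f z.1 + sm' f z.2 = u then w (f z.1) else 0 : ℝ)) : ℂ)‖ := by
          rw [Complex.norm_real, Real.norm_of_nonneg h0]
      _ = (Fintype.card G : ℝ)⁻¹ * ‖∑ χ : AddChar G ℂ,
            (∑ t ∈ T, (w (f t) : ℂ) * χ (f t)) * Sf P f χ ^ (i + r) * χ (-u)‖ := by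
          rw [count_eq, norm_mul, norm_inv, Complex.norm_natCast]
      _ ≤ _ := by
          refine mul_le_mul_of_nonneg_left ?_ (by positivity)
          refine (norm_sum_le _ _).trans (le_of_eq ?_)
          refine sum_congr rfl fun χ _ => ?_
          rw [norm_mul, norm_mul, norm_pow, AddChar.norm_apply, mul_one]
  -- step 3: Hölder
  have s3 : (Fintype.card G : ℝ)⁻¹ * ∑ χ : AddChar G ℂ, ‖∑ t ∈ T, (w (f t) : ℂ) * χ (f t)‖ *
        ‖Sf P f χ‖ ^ (i + r) ≤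
      ((Fintype.card G : ℝ)⁻¹ * ∑ χ : AddChar G ℂ, ‖∑ t ∈ T, (w (f t) : ℂ) * χ (f t)‖ ^ 2 *
        ‖Sf P f χ‖ ^ (2 * (r : ℝ) - 1 / 2)) ^ ((1 : ℝ) / 2) *
      ((Fintype.card G : ℝ)⁻¹ * ∑ χ : AddChar G ℂ, ‖Sf P f χ‖ ^ (2 * i)) ^
        ((1 : ℝ) / 2 * (1 - 1 / (4 * ((K : ℝ) - i)))) *
      ((Fintype.card G : ℝ)⁻¹ * ∑ χ : AddChar G ℂ, ‖Sf P f χ‖ ^ (2 * K)) ^
        ((1 : ℝ) / 2 * (1 / (4 * ((K : ℝ) - i)))) := by
    have h4 : 1 / (4 * ((K : ℝ) - i)) ≤ 1 := by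
      rw [div_le_one (by positivity)]
      linarith
    have h5 : 0 ≤ 1 / (4 * ((K : ℝ) - i)) := by positivity
    refine le_trans (le_of_eq ?_) (holder3' (univ : Finset (AddChar G ℂ)) (Fintype.card G) hG
      (fun χ => ‖∑ t ∈ T, (w (f t) : ℂ) * χ (f t)‖ ^ 2 * ‖Sf P f χ‖ ^ (2 * (r : ℝ) - 1 / 2))
      (fun χ => ‖Sf P f χ‖ ^ (2 * i)) (fun χ => ‖Sf P f χ‖ ^ (2 * K))
      (fun χ _ => by positivity) (fun χ _ => by positivity) (fun χ _ => by positivity)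
      ((1 : ℝ) / 2) ((1 : ℝ) / 2 * (1 - 1 / (4 * ((K : ℝ) - i))))
      ((1 : ℝ) / 2 * (1 / (4 * ((K : ℝ) - i)))) (by norm_num)
      (mul_nonneg (by norm_num) (by linarith)) (mul_nonneg (by norm_num) h5) (by ring))
    congr 1
    refine sum_congr rfl fun χ _ => ?_
    exact split2 (norm_nonneg _) (norm_nonneg _) i r K hr hK
  -- step 4: insert the bounds
  have h4 : 1 / (4 * ((K : ℝ) - i)) ≤ 1 := by
    rw [div_le_one (by positivity)]
    linarith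
  have h5 : 0 ≤ 1 / (4 * ((K : ℝ) - i)) := by positivity
  rw [← js_eq, ← js_eq] at s3
  refine (s1.trans (s2.trans s3)).trans ?_
  have p1 := Real.rpow_le_rpow (by positivity) h2 (show (0 : ℝ) ≤ (1 : ℝ) / 2 by norm_num)
  have p2 := Real.rpow_le_rpow (by positivity) hJ₁
    (show (0 : ℝ) ≤ (1 : ℝ) / 2 * (1 - 1 / (4 * ((K : ℝ) - i))) from
      mul_nonneg (by norm_num) (by linarith))
  have p3 := Real.rpow_le_rpow (by positivity) hJ₂
    (show (0 : ℝ) ≤ (1 : ℝ) / 2 * (1 / (4 * ((K : ℝ) - i))) from mul_nonneg (by norm_num) h5)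
  have q1 : (0 : ℝ) ≤ B ^ ((1 : ℝ) / 2) := (Real.rpow_nonneg (by positivity) _).trans p1
  have q2 : (0 : ℝ) ≤ J₁ ^ ((1 : ℝ) / 2 * (1 - 1 / (4 * ((K : ℝ) - i)))) :=
    (Real.rpow_nonneg (by positivity) _).trans p2
  refine mul_le_mul (mul_le_mul p1 p2 (Real.rpow_nonneg (by positivity) _) q1) p3
    (Real.rpow_nonneg (by positivity) _) (mul_nonneg q1 q2)

end Pool.Agent.Helper19.P3
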