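import Pool.Agent.Helper10.P5.Mom
import Pool.Agent.Helper10.P4.SAll

/-! Products of the weighted digit sums: digits written as a sum of a digit below five and a digit
below six. -/

namespace Pool.Agent.Helper10.P3

open Finset Pool.Agent.Helper10 Pool.Agent.Helper10.P5 Pool.Agent.Helper10.P4

/-- normalized digit sum of length five -/
noncomputable def p5 (x : ℝ) : ℝ := ‖∑ d ∈ range 5, ee ((d : ℝ) * x)‖ / 5

/-- normalized digit sum of length six -/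
noncomputable def p6 (x : ℝ) : ℝ := ‖∑ d ∈ range 6, ee ((d : ℝ) * x)‖ / 6

lemma p5_nonneg (x : ℝ) : 0 ≤ p5 x := by unfold p5; positivity

lemma p6_nonneg (x : ℝ) : 0 ≤ p6 x := by unfold p6; positivity

lemma p5_le_one (x : ℝ) : p5 x ≤ 1 := by
  unfold p5
  rw [div_le_one (by norm_num)]
  refine (norm_sum_le _ _).trans ?_
  simp [norm_ee]

lemma p6_le_one (x : ℝ) : p6 x ≤ 1 := by
  unfold p6
  rw [div_le_one (by norm_num)]
  refine (norm_sum_le _ _).trans ?_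
  simp [norm_ee]

/-- normalized weighted digit sum -/
noncomputable def ph3 (x : ℝ) : ℝ := p5 x * p6 x

lemma ph3_nonneg (x : ℝ) : 0 ≤ ph3 x := mul_nonneg (p5_nonneg x) (p6_nonneg x)

lemma ph3_le_one (x : ℝ) : ph3 x ≤ 1 := mul_le_one₀ (p5_le_one x) (p6_nonneg x) (p6_le_one x)

/-- normalized product over the distances in `J` -/
noncomputable def GF3 (κ T : ℕ) (J : Finset ℕ) (α : ℝ) : ℝ :=
  ∏ t ∈ J, ph3 (α * ((κ * ww 10 T t : ℕ) : ℝ))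

lemma GF3_nonneg (κ T : ℕ) (J : Finset ℕ) (α : ℝ) : 0 ≤ GF3 κ T J α :=
  Finset.prod_nonneg fun _ _ => ph3_nonneg _

lemma GF3_le_one (κ T : ℕ) (J : Finset ℕ) (α : ℝ) : GF3 κ T J α ≤ 1 :=
  Finset.prod_le_one (fun _ _ => ph3_nonneg _) (fun _ _ => ph3_le_one _)

lemma GF3_union (κ T : ℕ) (J J' : Finset ℕ) (h : Disjoint J J') (α : ℝ) :
    GF3 κ T (J ∪ J') α = GF3 κ T J α * GF3 κ T J' α := by
  unfold GF3
  rw [Finset.prod_union h]

lemma GF3_anti (κ T : ℕ) (J J' : Finset ℕ) (h : J ⊆ J') (α : ℝ) :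
    GF3 κ T J' α ≤ GF3 κ T J α := by
  classical
  have : J' = J ∪ (J' \ J) := by rw [Finset.union_sdiff_of_subset h]
  rw [this, GF3_union _ _ _ _ Finset.disjoint_sdiff]
  exact mul_le_of_le_one_right (GF3_nonneg _ _ _ _) (GF3_le_one _ _ _ _)

/-- the weighted digit sum is dominated by the two-term sum. -/
lemma ph3_le (x : ℝ) : ph3 x ≤ ‖(1 + ee x) / 2‖ := by
  have h1 : ∑ d ∈ range 6, ee ((d : ℝ) * x) =
      6 * (((1 + ee x) / 2) * ((∑ j ∈ range 3, ee x ^ (2 * j)) / 3)) := by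
    have : ∀ d ∈ range 6, ee ((d : ℝ) * x) = ee x ^ d := fun d _ => ee_nat_mul d x
    rw [Finset.sum_congr rfl this]
    simp only [Finset.sum_range_succ, Finset.sum_range_zero]
    ring
  have h6 : p6 x ≤ ‖(1 + ee x) / 2‖ := by
    unfold p6
    rw [h1, norm_mul, norm_mul]
    have h2 : ‖(6 : ℂ)‖ = 6 := by norm_num
    rw [h2, mul_comm (6 : ℝ), mul_div_assoc, div_self (by norm_num : (6 : ℝ) ≠ 0), mul_one]
    apply mul_le_of_le_one_right (norm_nonneg _)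
    rw [norm_div]
    have h3 : ‖(3 : ℂ)‖ = 3 := by norm_num
    rw [h3, div_le_one (by norm_num)]
    refine (norm_sum_le _ _).trans ?_
    simp [norm_ee]
  unfold ph3
  calc p5 x * p6 x ≤ 1 * p6 x := mul_le_mul_of_nonneg_right (p5_le_one x) (p6_nonneg x)
    _ = p6 x := one_mul _
    _ ≤ _ := h6

/-- coefficients of the square of the product of the two digit sums -/
def e3 : ℕ → ℝ
  | 0 => 1
  | 1 => 4
  | 2 => 10
  | 3 => 20
  | 4 => 35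
  | 5 => 54
  | 6 => 74
  | 7 => 92
  | 8 => 105
  | 9 => 110
  | 10 => 105
  | 11 => 92
  | 12 => 74
  | 13 => 54
  | 14 => 35
  | 15 => 20
  | 16 => 10
  | 17 => 4
  | 18 => 1
  | _ => 0

lemma e3_nonneg (k : ℕ) : 0 ≤ e3 k := by
  unfold e3
  split <;> norm_num

/-- coefficients at the distance `t`: squared weighted digit sum on `V`, trivial elsewhere -/
noncomputable def cc3 (V : Finset ℕ) (t k : ℕ) : ℝ :=
  if t ∈ V then e3 k / 900 else (if k = 0 then 1 else 0)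

lemma cc3_sq_sum (V : Finset ℕ) (t : ℕ) : ∑ k ∈ range 19, cc3 V t k ^ 2 =
    if t ∈ V then 71346 / 810000 else 1 := by
  unfold cc3
  split_ifs
  · simp only [Finset.sum_range_succ, Finset.sum_range_zero, e3]
    norm_num
  · simp only [Finset.sum_range_succ, Finset.sum_range_zero]
    norm_num

lemma ph3_sq (x : ℝ) : ph3 x ^ 2 =
    ‖((∑ d ∈ range 5, ee x ^ d) * (∑ d ∈ range 6, ee x ^ d)) ^ 2 / 900‖ := by
  have h5 : ∑ d ∈ range 5, ee ((d : ℝ) * x) = ∑ d ∈ range 5, ee x ^ d :=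
    Finset.sum_congr rfl fun d _ => ee_nat_mul d x
  have h6 : ∑ d ∈ range 6, ee ((d : ℝ) * x) = ∑ d ∈ range 6, ee x ^ d :=
    Finset.sum_congr rfl fun d _ => ee_nat_mul d x
  unfold ph3 p5 p6
  rw [h5, h6, norm_div, norm_pow, norm_mul]
  have h900 : ‖(900 : ℂ)‖ = 900 := by norm_num
  rw [h900]
  ring

lemma cc3_norm (V : Finset ℕ) (t : ℕ) (x : ℝ) :
    ‖∑ k ∈ range 19, ((cc3 V t k : ℝ) : ℂ) * ee ((k : ℝ) * x)‖ =
      if t ∈ V then ph3 x ^ 2 else 1 := by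
  have h0 : ∀ k ∈ range 19, ((cc3 V t k : ℝ) : ℂ) * ee ((k : ℝ) * x) =
      ((cc3 V t k : ℝ) : ℂ) * ee x ^ k := fun k _ => by rw [ee_nat_mul]
  rw [Finset.sum_congr rfl h0]
  unfold cc3
  split_ifs
  · rw [ph3_sq]
    congr 1
    simp only [Finset.sum_range_succ, Finset.sum_range_zero, e3]
    push_cast
    ring
  · simp only [Finset.sum_range_succ, Finset.sum_range_zero]
    norm_num

/-- total coefficient of a digit vector -/
noncomputable def ct3 (V : Finset ℕ) (ℓ : ℕ) (f : Fin ℓ → ℕ) : ℝ :=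
  ∏ i : Fin ℓ, cc3 V ((i : ℕ) + 1) (f i)

lemma ct3_sq_sum (V : Finset ℕ) (ℓ : ℕ) (hV : V ⊆ Icc 1 ℓ) :
    ∑ f ∈ KK ℓ 19, ct3 V ℓ f ^ 2 = (71346 / 810000) ^ V.card := by
  unfold KK ct3
  have e1 : ∀ f : Fin ℓ → ℕ, (∏ i : Fin ℓ, cc3 V ((i : ℕ) + 1) (f i)) ^ 2 =
      ∏ i : Fin ℓ, cc3 V ((i : ℕ) + 1) (f i) ^ 2 := fun f => by rw [Finset.prod_pow]
  rw [Finset.sum_congr rfl (fun f _ => e1 f),
    ← Finset.prod_univ_sum (fun _ : Fin ℓ => range 19) (fun i k => cc3 V ((i : ℕ) + 1) k ^ 2)]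
  rw [Finset.prod_congr rfl (fun (i : Fin ℓ) _ => cc3_sq_sum V ((i : ℕ) + 1))]
  rw [← prod_Icc_fin ℓ (fun t => if t ∈ V then (71346 / 810000 : ℝ) else 1)]
  rw [Finset.prod_ite_mem, Finset.inter_eq_right.mpr hV, Finset.prod_const]

/-- expansion of the block product -/
lemma GF3_expand (κ T ℓ : ℕ) (V : Finset ℕ) (hℓ : ℓ ≤ T) (hV : V ⊆ Icc 1 ℓ) (α : ℝ) :
    GF3 κ T V α ^ 2 =
      ‖∑ f ∈ KK ℓ 19, ((ct3 V ℓ f : ℝ) : ℂ) *
        ee (α * ((κ * 10 ^ (T - ℓ) * vl ℓ f : ℕ) : ℝ))‖ := by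
  have e1 : GF3 κ T V α ^ 2 = ∏ t ∈ Icc 1 ℓ,
      (if t ∈ V then ph3 (α * ((κ * ww 10 T t : ℕ) : ℝ)) ^ 2 else 1) := by
    unfold GF3
    rw [Finset.prod_ite_mem, Finset.inter_eq_right.mpr hV, Finset.prod_pow]
  rw [e1]
  have e3 : ∀ t ∈ Icc 1 ℓ, (if t ∈ V then ph3 (α * ((κ * ww 10 T t : ℕ) : ℝ)) ^ 2 else 1) =
      ‖∑ k ∈ range 19, ((cc3 V t k : ℝ) : ℂ) *
        ee ((k : ℝ) * (α * ((κ * 10 ^ (T - ℓ) * ww 10 ℓ t : ℕ) : ℝ)))‖ := by
    intro t ht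
    rw [cc3_norm]
    have h2 := ww_add_left 10 ℓ t (T - ℓ) (Finset.mem_Icc.mp ht).2
    rw [show ℓ + (T - ℓ) = T by omega] at h2
    rw [h2, ← mul_assoc]
  rw [Finset.prod_congr rfl e3, prod_Icc_fin, ← norm_prod]
  unfold KK ct3
  rw [Finset.prod_univ_sum (fun _ : Fin ℓ => range 19)]
  congr 1
  apply Finset.sum_congr rfl
  intro f _
  rw [Finset.prod_mul_distrib]
  congr 1
  · push_cast
    rfl
  · rw [← ee_sum]
    congr 1
    unfold vl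
    push_cast
    rw [Finset.mul_sum, Finset.mul_sum]
    apply Finset.sum_congr rfl
    intro i _
    ring

/-- the large sieve with a free length -/
theorem LS43 (κ T ℓ Qm U : ℕ) (V : Finset ℕ)
    (hκ : ∀ q : ℕ, q.Coprime 10 → q.Coprime κ) (hℓ : ℓ ≤ T) (hV : V ⊆ Icc 1 ℓ)
    (S : Finset ℕ) (hS : ∀ q ∈ S, 0 < q ∧ q ≤ Qm ∧ q.Coprime 10)
    (hQ1 : 1 ≤ Qm) (hQ : Qm ^ 2 ≤ U) (hU : 18 * 10 ^ (2 * ℓ + 1) + 1 ≤ U) :
    ∑ q ∈ S, ∑ a ∈ AA q, GF3 κ T V ((a : ℝ) / q) ^ 4 ≤ 5 * (U : ℝ) * (71346 / 810000) ^ V.card := by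
  classical
  set κ' : ℕ := κ * 10 ^ (T - ℓ) with hκ'
  have hκ'c : ∀ q : ℕ, q.Coprime 10 → q.Coprime κ' := fun q hq =>
    Nat.Coprime.mul_right (hκ q hq) (Nat.Coprime.pow_right _ hq)
  have e1 : ∑ q ∈ S, ∑ a ∈ AA q, GF3 κ T V ((a : ℝ) / q) ^ 4 =
      ∑ q ∈ S, ∑ a ∈ AA q, (GF3 κ T V ((a : ℝ) / q) ^ 2) ^ 2 :=
    Finset.sum_congr rfl fun q _ => Finset.sum_congr rfl fun a _ => by ring
  rw [e1, Finset.sum_sigma' S AA (fun q a => (GF3 κ T V ((a : ℝ) / q) ^ 2) ^ 2)]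
  have hQR : (0 : ℝ) < Qm := by exact_mod_cast hQ1
  have LS := large_sieve (S.sigma (fun q => AA q))
    (fun p : (Σ _ : ℕ, ℕ) => (κ' : ℝ) * ((p.2 : ℝ) / p.1)) (1 / (Qm : ℝ) ^ 2) (by positivity)
    (fun p hp p' hp' hne => spacing_gen S Qm κ' (fun q hq => ⟨(hS q hq).1, (hS q hq).2.1,
      hκ'c q (hS q hq).2.2⟩) p p' hp hp' hne) (KK ℓ 19) (vl ℓ)
    (by
      intro f hf f' hf' h
      exact vl_inj ℓ 19 (by norm_num) f f' hf hf' h)
    U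
    (by
      intro f hf
      have := vl_le ℓ 19 f hf
      norm_num at this
      omega)
    (by
      rw [one_div_one_div]
      exact_mod_cast hQ)
    (fun f => ((ct3 V ℓ f : ℝ) : ℂ))
  have hcn : ∑ f ∈ KK ℓ 19, ‖((ct3 V ℓ f : ℝ) : ℂ)‖ ^ 2 = (71346 / 810000) ^ V.card := by
    rw [← ct3_sq_sum V ℓ hV]
    apply Finset.sum_congr rfl
    intro f _
    rw [Complex.norm_real, Real.norm_eq_abs, sq_abs]
  rw [hcn] at LS
  refine le_trans (le_of_eq ?_) LS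
  apply Finset.sum_congr rfl
  intro p _
  rw [GF3_expand κ T ℓ V hℓ hV]
  congr 2
  apply Finset.sum_congr rfl
  intro f _
  congr 2
  rw [hκ']
  push_cast
  ring

end Pool.Agent.Helper10.P3
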