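import Pool.Agent.Helper10.P3.Cnt3

/-! Level of distribution of the weighted family: the weighted sum of the error terms is small. -/

namespace Pool.Agent.Helper10.P3

open Finset Filter Pool.Agent.Helper10 Pool.Agent.Helper10.P5 Pool.Agent.Helper10.P4

/-- the weighted error over one decimal block -/
noncomputable def blk3 (κ T j : ℕ) : ℝ := ∑ q ∈ QT j, ((tau q : ℝ)) ^ 3 * Psi3 κ T q / q

lemma blk3_nonneg (κ T j : ℕ) : 0 ≤ blk3 κ T j := by
  unfold blk3
  apply Finset.sum_nonneg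
  intro q _
  have := Psi3_nonneg κ T q
  positivity

lemma blk3_small : ∃ ρ : ℝ, 0 < ρ ∧ ρ < 1 ∧
    ∀ κ T j : ℕ, (∀ q : ℕ, q.Coprime 10 → q.Coprime κ) →
      blk3 κ T j ≤ 9000 * 10000 ^ j * ρ ^ (T / (2 * j + 5)) := by
  obtain ⟨ρ, hρ0, hρ1, hsup⟩ := sup3
  refine ⟨ρ, hρ0, hρ1, ?_⟩
  intro κ T j hκ
  calc blk3 κ T j ≤ ∑ q ∈ QT j, (1000 * 1000 ^ j) * ρ ^ (T / (2 * j + 5)) := by
        unfold blk3
        apply Finset.sum_le_sum
        intro q hq
        rw [mem_QT] at hq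
        have h2j : 0 < 10 ^ j := by positivity
        have hq1 : 1 < q := by omega
        have hq' : (0 : ℝ) < q := by exact_mod_cast (by omega : 0 < q)
        have hPsi : Psi3 κ T q ≤ q * ρ ^ (T / (2 * j + 5)) := by
          unfold Psi3
          calc ∑ a ∈ AA q, GF3 κ T (Icc 1 T) ((a : ℝ) / q) ≤
              ∑ a ∈ AA q, ρ ^ (T / (2 * j + 5)) := by
                apply Finset.sum_le_sum
                intro a ha
                unfold AA at ha
                rw [Finset.mem_filter] at ha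
                have := hsup κ T q a (j + 1) (hκ q hq.2) hq1 hq.2 ha.2 hq.1.2
                rw [show 2 * (j + 1) + 3 = 2 * j + 5 by ring] at this
                exact this
            _ = ((AA q).card : ℝ) * ρ ^ (T / (2 * j + 5)) := by
                rw [Finset.sum_const, nsmul_eq_mul]
            _ ≤ q * ρ ^ (T / (2 * j + 5)) := by
                apply mul_le_mul_of_nonneg_right _ (by positivity)
                exact_mod_cast AA_card_le' q
        have hq8 : ((tau q : ℝ)) ^ 3 ≤ 1000 * 1000 ^ j := by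
          have h1 : tau q ^ 3 ≤ 1000 * 1000 ^ j := by
            calc tau q ^ 3 ≤ (10 ^ (j + 1)) ^ 3 :=
                  Nat.pow_le_pow_left ((tau_le_self' q).trans hq.1.2) 3
              _ = 1000 * 1000 ^ j := by
                  rw [← pow_mul, show (j + 1) * 3 = 3 * j + 3 by ring, pow_add, pow_mul]
                  norm_num
                  ring
          exact_mod_cast h1
        calc ((tau q : ℝ)) ^ 3 * Psi3 κ T q / q
            ≤ (1000 * 1000 ^ j) * (q * ρ ^ (T / (2 * j + 5))) / q := by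
              apply div_le_div_of_nonneg_right _ hq'.le
              apply mul_le_mul hq8 hPsi (Psi3_nonneg _ _ _) (by positivity)
          _ = (1000 * 1000 ^ j) * ρ ^ (T / (2 * j + 5)) := by field_simp
    _ = ((QT j).card : ℝ) * ((1000 * 1000 ^ j) * ρ ^ (T / (2 * j + 5))) := by
        rw [Finset.sum_const, nsmul_eq_mul]
    _ ≤ (9 * 10 ^ j) * ((1000 * 1000 ^ j) * ρ ^ (T / (2 * j + 5))) := by
        apply mul_le_mul_of_nonneg_right _ (by positivity)
        exact_mod_cast QT_card j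
    _ = 9000 * 10000 ^ j * ρ ^ (T / (2 * j + 5)) := by
        have : (10000 : ℝ) ^ j = 10 ^ j * 1000 ^ j := by rw [← mul_pow]; norm_num
        rw [this]
        ring

/-- the weighted error sum -/
noncomputable def errSum3 (κ T N0 Q : ℕ) : ℝ :=
  ∑ q ∈ (Icc 1 Q).filter (fun q => q.Coprime 10),
    ((tau q : ℝ)) ^ 3 * |(cnt3 κ T N0 q : ℝ) - 30 ^ T / q|

lemma errSum3_le (κ T N0 Q J : ℕ) (hQ : Q ≤ 10 ^ J) :
    errSum3 κ T N0 Q ≤ 30 ^ T * hsum 3 Q * ∑ j ∈ range J, blk3 κ T j := by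
  classical
  unfold errSum3
  have h1 : ∑ q ∈ (Icc 1 Q).filter (fun q => q.Coprime 10),
      ((tau q : ℝ)) ^ 3 * |(cnt3 κ T N0 q : ℝ) - 30 ^ T / q| ≤
      ∑ q ∈ (Icc 1 Q).filter (fun q => q.Coprime 10),
        ∑ d ∈ q.divisors.erase 1, 30 ^ T * (((tau q : ℝ)) ^ 3 / q * Psi3 κ T d) := by
    apply Finset.sum_le_sum
    intro q hq
    rw [Finset.mem_filter, Finset.mem_Icc] at hq
    calc ((tau q : ℝ)) ^ 3 * |(cnt3 κ T N0 q : ℝ) - 30 ^ T / q| ≤
        ((tau q : ℝ)) ^ 3 * (30 ^ T / q * ∑ d ∈ q.divisors.erase 1, Psi3 κ T d) :=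
          mul_le_mul_of_nonneg_left (count3 κ T N0 q (by omega)) (by positivity)
      _ = ∑ d ∈ q.divisors.erase 1, 30 ^ T * (((tau q : ℝ)) ^ 3 / q * Psi3 κ T d) := by
          rw [Finset.mul_sum, Finset.mul_sum]
          apply Finset.sum_congr rfl
          intro d _
          ring
  refine h1.trans ?_
  rw [Finset.sum_sigma']
  set Dset := (Icc 2 Q).filter (fun d => d.Coprime 10) with hDset
  have h2 : ∑ x ∈ ((Icc 1 Q).filter (fun q => q.Coprime 10)).sigma (fun q => q.divisors.erase 1),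
      30 ^ T * (((tau x.1 : ℝ)) ^ 3 / x.1 * Psi3 κ T x.2) ≤
      ∑ p ∈ Dset ×ˢ Icc 1 Q, 30 ^ T * ((((tau p.1 : ℝ)) ^ 3 * Psi3 κ T p.1 / p.1) *
        (((tau p.2 : ℝ)) ^ 3 / p.2)) := by
    have h3 : ∀ x ∈ ((Icc 1 Q).filter (fun q => q.Coprime 10)).sigma (fun q => q.divisors.erase 1),
        30 ^ T * (((tau x.1 : ℝ)) ^ 3 / x.1 * Psi3 κ T x.2) ≤
        30 ^ T * ((((tau x.2 : ℝ)) ^ 3 * Psi3 κ T x.2 / x.2) *
        (((tau (x.1 / x.2) : ℝ)) ^ 3 / ((x.1 / x.2 : ℕ) : ℝ))) := by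
      intro x hx
      rw [Finset.mem_sigma, Finset.mem_filter, Finset.mem_Icc, Finset.mem_erase,
        Nat.mem_divisors] at hx
      obtain ⟨⟨⟨hx1, hx2⟩, hx3⟩, hx4, hx5, hx6⟩ := hx
      obtain ⟨q, d⟩ := x
      simp only at hx1 hx2 hx3 hx4 hx5 hx6 ⊢
      obtain ⟨e, rfl⟩ := hx5
      have hd : 0 < d := Nat.pos_of_mul_pos_right (by omega : 0 < d * e)
      have he : 0 < e := Nat.pos_of_mul_pos_left (by omega : 0 < d * e)
      rw [Nat.mul_div_cancel_left e hd]
      apply mul_le_mul_of_nonneg_left _ (by positivity)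
      have hdR : (0 : ℝ) < d := by exact_mod_cast hd
      have heR : (0 : ℝ) < e := by exact_mod_cast he
      have ht : ((tau (d * e) : ℝ)) ^ 3 ≤ ((tau d : ℝ)) ^ 3 * ((tau e : ℝ)) ^ 3 := by
        rw [← mul_pow]
        apply pow_le_pow_left₀ (by positivity)
        exact_mod_cast tau_mul_le d e
      have hP := Psi3_nonneg κ T d
      calc ((tau (d * e) : ℝ)) ^ 3 / ((d * e : ℕ) : ℝ) * Psi3 κ T d
          ≤ (((tau d : ℝ)) ^ 3 * ((tau e : ℝ)) ^ 3) / ((d * e : ℕ) : ℝ) * Psi3 κ T d := by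
            apply mul_le_mul_of_nonneg_right _ hP
            exact div_le_div_of_nonneg_right ht (by positivity)
        _ = ((tau d : ℝ)) ^ 3 * Psi3 κ T d / d * (((tau e : ℝ)) ^ 3 / e) := by
            push_cast
            field_simp
    refine (Finset.sum_le_sum h3).trans ?_
    rw [← Finset.sum_image (s := ((Icc 1 Q).filter (fun q => q.Coprime 10)).sigma
        (fun q => q.divisors.erase 1))
      (g := fun x : (_ : ℕ) × ℕ => (x.2, x.1 / x.2))
      (f := fun p : ℕ × ℕ => 30 ^ T * ((((tau p.1 : ℝ)) ^ 3 * Psi3 κ T p.1 / p.1) *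
        (((tau p.2 : ℝ)) ^ 3 / (p.2 : ℝ))))]
    · apply Finset.sum_le_sum_of_subset_of_nonneg
      · intro p hp
        rw [Finset.mem_image] at hp
        obtain ⟨x, hx, rfl⟩ := hp
        rw [Finset.mem_sigma, Finset.mem_filter, Finset.mem_Icc, Finset.mem_erase,
          Nat.mem_divisors] at hx
        obtain ⟨⟨⟨hx1, hx2⟩, hx3⟩, hx4, hx5, hx6⟩ := hx
        have hle := Nat.le_of_dvd (by omega) hx5
        have hpos : 0 < x.2 := Nat.pos_of_dvd_of_pos hx5 (by omega)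
        rw [Finset.mem_product, hDset, Finset.mem_filter, Finset.mem_Icc, Finset.mem_Icc]
        refine ⟨⟨⟨by omega, by omega⟩, Nat.Coprime.coprime_dvd_left hx5 hx3⟩, ?_, ?_⟩
        · exact Nat.div_pos hle hpos
        · exact (Nat.div_le_self _ _).trans hx2
      · intro p _ _
        have := Psi3_nonneg κ T p.1
        positivity
    · intro x hx y hy hxy
      rw [Finset.mem_coe, Finset.mem_sigma, Finset.mem_filter, Finset.mem_Icc, Finset.mem_erase,
          Nat.mem_divisors] at hx hy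
      obtain ⟨q, d⟩ := x
      obtain ⟨q', d'⟩ := y
      simp only [Prod.mk.injEq] at hx hy hxy
      obtain ⟨rfl, h5⟩ := hxy
      have e1 : q = q' := by
        rw [← Nat.div_mul_cancel hx.2.2.1, ← Nat.div_mul_cancel hy.2.2.1, h5]
      rw [e1]
  refine h2.trans ?_
  rw [← Finset.mul_sum, Finset.sum_product]
  have h4 : ∑ x ∈ Dset, ∑ y ∈ Icc 1 Q, ((tau x : ℝ)) ^ 3 * Psi3 κ T x / x *
      (((tau y : ℝ)) ^ 3 / y) = (∑ x ∈ Dset, ((tau x : ℝ)) ^ 3 * Psi3 κ T x / x) * hsum 3 Q := by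
    unfold hsum
    rw [Finset.sum_mul]
    apply Finset.sum_congr rfl
    intro x _
    rw [Finset.mul_sum]
  rw [h4]
  have h5 : ∑ x ∈ Dset, ((tau x : ℝ)) ^ 3 * Psi3 κ T x / x ≤ ∑ j ∈ range J, blk3 κ T j := by
    unfold blk3
    rw [← Finset.sum_biUnion]
    · apply Finset.sum_le_sum_of_subset_of_nonneg
      · intro x hx
        rw [hDset, Finset.mem_filter, Finset.mem_Icc] at hx
        obtain ⟨⟨hx1, hx2⟩, hx3⟩ := hx
        rw [Finset.mem_biUnion]
        set j := Nat.clog 10 x - 1 with hj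
        have hc0 : 0 < Nat.clog 10 x := Nat.clog_pos (by norm_num) hx1
        have hlt : 10 ^ j < x := by
          have := Nat.pow_pred_clog_lt_self (b := 10) (by norm_num) (x := x) (by omega)
          simpa [hj] using this
        have hle : x ≤ 10 ^ (j + 1) := by
          have := Nat.le_pow_clog (b := 10) (by norm_num) x
          rw [show j + 1 = Nat.clog 10 x by omega]
          exact this
        refine ⟨j, ?_, ?_⟩
        · rw [Finset.mem_range]
          have : 10 ^ j < 10 ^ J := lt_of_lt_of_le hlt (hx2.trans hQ)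
          exact (Nat.pow_lt_pow_iff_right (by norm_num)).mp this
        · rw [mem_QT]
          exact ⟨⟨hlt, hle⟩, hx3⟩
      · intro x _ _
        have := Psi3_nonneg κ T x
        positivity
    · intro i _ j _ hij
      simp only [Function.onFun]
      rw [Finset.disjoint_left]
      intro x hx hx'
      rw [mem_QT] at hx hx'
      rcases Nat.lt_or_gt_of_ne hij with h | h
      · have : 10 ^ (i + 1) ≤ 10 ^ j := Nat.pow_le_pow_right (by norm_num) h
        omega
      · have : 10 ^ (j + 1) ≤ 10 ^ i := Nat.pow_le_pow_right (by norm_num) h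
        omega
  calc 30 ^ T * ((∑ x ∈ Dset, ((tau x : ℝ)) ^ 3 * Psi3 κ T x / x) * hsum 3 Q)
      ≤ 30 ^ T * ((∑ j ∈ range J, blk3 κ T j) * hsum 3 Q) := by
        apply mul_le_mul_of_nonneg_left _ (by positivity)
        exact mul_le_mul_of_nonneg_right h5 (hsum_nonneg _ _)
    _ = 30 ^ T * hsum 3 Q * ∑ j ∈ range J, blk3 κ T j := by ring

lemma blk3_large (g : ℕ) (hg : 1 ≤ g) : ∃ C θ : ℝ, 0 < C ∧ 0 < θ ∧ θ < 1 ∧
    ∀ κ T j : ℕ, (∀ q : ℕ, q.Coprime 10 → q.Coprime κ) → 65 * j + 65 * (j / g) ≤ 48 * T →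
      blk3 κ T j ≤ C * θ ^ j := by
  obtain ⟨C1, θ, hC1, hθ0, hθ1, hS⟩ := S_all3 g hg
  set μ : ℝ := (1 + 1 / θ) / 2 with hμ
  have hinv : 1 < 1 / θ := by
    rw [lt_div_iff₀ hθ0]
    linarith
  have hμ1 : 1 < μ := by
    rw [hμ]
    linarith
  have hθμ : θ * μ = (1 + θ) / 2 := by
    rw [hμ]
    field_simp
    ring
  obtain ⟨C2, hC2, htau⟩ := tau_cube10 μ hμ1
  refine ⟨C2 * C1, θ * μ, by positivity, by positivity, by rw [hθμ]; linarith, ?_⟩
  clear_value μ
  intro κ T j hκ hT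
  have h1 := hS κ T j hκ hT
  calc blk3 κ T j ≤ ∑ q ∈ QT j, (C2 * μ ^ j) / 10 ^ j * Psi3 κ T q := by
        unfold blk3
        apply Finset.sum_le_sum
        intro q hq
        rw [mem_QT] at hq
        have hqpos : 0 < q := by omega
        have hq' : (0 : ℝ) < q := by exact_mod_cast hqpos
        have h2 := htau j q hqpos hq.1.2
        have h3 : (10 : ℝ) ^ j ≤ q := by exact_mod_cast hq.1.1.le
        have h4 : ((tau q : ℝ)) ^ 3 / q ≤ (C2 * μ ^ j) / 10 ^ j := by
          apply div_le_div₀ (by positivity) h2 (by positivity) h3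
        calc ((tau q : ℝ)) ^ 3 * Psi3 κ T q / q = ((tau q : ℝ)) ^ 3 / q * Psi3 κ T q := by ring
          _ ≤ (C2 * μ ^ j) / 10 ^ j * Psi3 κ T q :=
            mul_le_mul_of_nonneg_right h4 (Psi3_nonneg _ _ _)
    _ = (C2 * μ ^ j) / 10 ^ j * ∑ q ∈ QT j, Psi3 κ T q := by rw [Finset.mul_sum]
    _ ≤ (C2 * μ ^ j) / 10 ^ j * (C1 * (10 * θ) ^ j) := by
        apply mul_le_mul_of_nonneg_left _ (by positivity)
        exact h1
    _ = C2 * C1 * (θ * μ) ^ j := by
        rw [mul_pow, mul_pow]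
        field_simp

/-- total over all decimal blocks -/
lemma blk3_total (g : ℕ) (hg : 1 ≤ g) : ∃ C θ : ℝ, 0 < C ∧ 0 < θ ∧ θ < 1 ∧
    ∃ s : ℕ, 0 < s ∧ ∀ κ T J : ℕ, (∀ q : ℕ, q.Coprime 10 → q.Coprime κ) → 65 * J + 65 * (J / g) ≤ 48 * T →
      ∑ j ∈ range J, blk3 κ T j ≤ C * θ ^ (Nat.sqrt (T / s)) := by
  obtain ⟨C, θ, hC, hθ0, hθ1, hL⟩ := blk3_large g hg
  obtain ⟨ρ, hρ0, hρ1, hS⟩ := blk3_small
  obtain ⟨s, hs⟩ := exists_pow_lt_of_lt_one (show (0 : ℝ) < 1 / 20000 by norm_num) hρ1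
  have hs0 : 0 < s := by
    rcases Nat.eq_zero_or_pos s with h | h
    · rw [h, pow_zero] at hs
      norm_num at hs
    · exact h
  set θ' : ℝ := max (1 / 2) θ with hθ'
  have hθ'0 : 0 < θ' := lt_max_of_lt_right hθ0
  have hθ'1 : θ' < 1 := max_lt (by norm_num) hθ1
  refine ⟨9000 + C / (1 - θ), θ', by
    have : 0 < C / (1 - θ) := div_pos hC (by linarith)
    linarith, hθ'0, hθ'1, 7 * s, by omega, ?_⟩
  intro κ T J hκ hT
  set u := Nat.sqrt (T / (7 * s)) with hu
  have hu2 : 7 * s * (u * u) ≤ T := by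
    calc 7 * s * (u * u) ≤ 7 * s * (T / (7 * s)) := Nat.mul_le_mul_left _ (Nat.sqrt_le _)
      _ ≤ T := Nat.mul_div_le _ _
  have hsmall : ∀ j < u, blk3 κ T j ≤ 9000 * 10000 ^ j * (1 / 20000) ^ u := by
    intro j hj
    refine (hS κ T j hκ).trans ?_
    apply mul_le_mul_of_nonneg_left _ (by positivity)
    have h1 : s * u ≤ T / (2 * j + 5) := by
      rw [Nat.le_div_iff_mul_le (by omega)]
      calc s * u * (2 * j + 5) ≤ s * u * (7 * u) := Nat.mul_le_mul_left _ (by omega)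
        _ = 7 * s * (u * u) := by ring
        _ ≤ T := hu2
    calc ρ ^ (T / (2 * j + 5)) ≤ ρ ^ (s * u) := pow_le_pow_of_le_one hρ0.le hρ1.le h1
      _ = (ρ ^ s) ^ u := by rw [pow_mul]
      _ ≤ (1 / 20000) ^ u := pow_le_pow_left₀ (by positivity) hs.le u
  have hlarge : ∀ j ∈ range J, blk3 κ T j ≤ C * θ ^ j := by
    intro j hj
    rw [Finset.mem_range] at hj
    apply hL κ T j hκ
    have := Nat.div_le_div_right (c := g) hj.le
    omega
  have hsplit : ∑ j ∈ range J, blk3 κ T j ≤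
      ∑ j ∈ range u, 9000 * 10000 ^ j * (1 / 20000) ^ u + ∑ j ∈ Ico u (u + J), C * θ ^ j := by
    have h1 : ∑ j ∈ range J, blk3 κ T j =
        ∑ j ∈ (range J).filter (fun j => j < u), blk3 κ T j +
          ∑ j ∈ (range J).filter (fun j => ¬ j < u), blk3 κ T j :=
      (Finset.sum_filter_add_sum_filter_not _ _ _).symm
    rw [h1]
    apply add_le_add
    · calc ∑ j ∈ (range J).filter (fun j => j < u), blk3 κ T j
          ≤ ∑ j ∈ (range J).filter (fun j => j < u), 9000 * 10000 ^ j * (1 / 20000 : ℝ) ^ u := by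
            apply Finset.sum_le_sum
            intro j hj
            rw [Finset.mem_filter] at hj
            exact hsmall j hj.2
        _ ≤ ∑ j ∈ range u, 9000 * 10000 ^ j * (1 / 20000) ^ u := by
            apply Finset.sum_le_sum_of_subset_of_nonneg
            · intro j hj
              rw [Finset.mem_filter] at hj
              exact Finset.mem_range.mpr hj.2
            · intro _ _ _
              positivity
    · calc ∑ j ∈ (range J).filter (fun j => ¬ j < u), blk3 κ T j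
          ≤ ∑ j ∈ (range J).filter (fun j => ¬ j < u), C * θ ^ j := by
            apply Finset.sum_le_sum
            intro j hj
            rw [Finset.mem_filter] at hj
            exact hlarge j hj.1
        _ ≤ ∑ j ∈ Ico u (u + J), C * θ ^ j := by
            apply Finset.sum_le_sum_of_subset_of_nonneg
            · intro j hj
              rw [Finset.mem_filter, Finset.mem_range] at hj
              rw [Finset.mem_Ico]
              omega
            · intro _ _ _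
              positivity
  refine hsplit.trans ?_
  have hA : ∑ j ∈ range u, 9000 * 10000 ^ j * (1 / 20000 : ℝ) ^ u ≤ 9000 * (1 / 2) ^ u := by
    rw [← Finset.sum_mul, ← Finset.mul_sum]
    have h1 : ∑ j ∈ range u, (10000 : ℝ) ^ j ≤ 10000 ^ u := by
      rw [geom_sum_eq (by norm_num)]
      have : (1 : ℝ) ≤ 10000 ^ u := one_le_pow₀ (by norm_num)
      rw [div_le_iff₀ (by norm_num)]
      linarith
    calc 9000 * (∑ j ∈ range u, (10000 : ℝ) ^ j) * (1 / 20000) ^ u
        ≤ 9000 * 10000 ^ u * (1 / 20000) ^ u := by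
          apply mul_le_mul_of_nonneg_right _ (by positivity)
          linarith
      _ = 9000 * (1 / 2) ^ u := by
          rw [mul_assoc, ← mul_pow]
          norm_num
  have hB : ∑ j ∈ Ico u (u + J), C * θ ^ j ≤ C / (1 - θ) * θ ^ u := by
    rw [← Finset.mul_sum, Finset.sum_Ico_eq_sum_range, Nat.add_sub_cancel_left]
    have h1 : ∀ i ∈ range J, θ ^ (u + i) = θ ^ u * θ ^ i := fun i _ => pow_add _ _ _
    rw [Finset.sum_congr rfl h1, ← Finset.mul_sum]
    have h2 : ∑ i ∈ range J, θ ^ i ≤ 1 / (1 - θ) := by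
      rw [geom_sum_eq hθ1.ne]
      have e : (θ ^ J - 1) / (θ - 1) = (1 - θ ^ J) / (1 - θ) := by
        rw [← neg_sub, ← neg_sub 1 θ, neg_div_neg_eq]
      rw [e]
      apply div_le_div_of_nonneg_right _ (by linarith)
      have : 0 ≤ θ ^ J := by positivity
      linarith
    calc C * (θ ^ u * ∑ i ∈ range J, θ ^ i) ≤ C * (θ ^ u * (1 / (1 - θ))) := by
          apply mul_le_mul_of_nonneg_left _ hC.le
          apply mul_le_mul_of_nonneg_left h2 (by positivity)
      _ = C / (1 - θ) * θ ^ u := by ring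
  have hA' : (1 / 2 : ℝ) ^ u ≤ θ' ^ u := pow_le_pow_left₀ (by norm_num) (le_max_left _ _) u
  have hB' : θ ^ u ≤ θ' ^ u := pow_le_pow_left₀ hθ0.le (le_max_right _ _) u
  have hCpos : 0 ≤ C / (1 - θ) := (div_pos hC (by linarith)).le
  calc ∑ j ∈ range u, 9000 * 10000 ^ j * (1 / 20000 : ℝ) ^ u + ∑ j ∈ Ico u (u + J), C * θ ^ j
      ≤ 9000 * (1 / 2) ^ u + C / (1 - θ) * θ ^ u := add_le_add hA hB
    _ ≤ 9000 * θ' ^ u + C / (1 - θ) * θ' ^ u := by
        apply add_le_add
        · linarith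
        · exact mul_le_mul_of_nonneg_left hB' hCpos
    _ = (9000 + C / (1 - θ)) * θ' ^ u := by ring


/-- **Level of distribution.** -/
theorem err3 (g : ℕ) (hg : 1 ≤ g) (A : ℕ) : ∃ T0 : ℕ, ∀ T : ℕ, T0 ≤ T →
    ∀ κ N0 Q J : ℕ, (∀ q : ℕ, q.Coprime 10 → q.Coprime κ) → Q ≤ 10 ^ J → 65 * J + 65 * (J / g) ≤ 48 * T →
      errSum3 κ T N0 Q ≤ 30 ^ T / (T : ℝ) ^ A := by
  obtain ⟨C, θ, hC, hθ0, hθ1, s, hs, htot⟩ := blk3_total g hg
  have hlim : Tendsto (fun u : ℕ => (u : ℝ) ^ (2 * (A + 8)) * θ ^ u) atTop (nhds 0) :=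
    tendsto_pow_const_mul_const_pow_of_abs_lt_one _ (by rw [abs_of_pos hθ0]; exact hθ1)
  have hCs : 0 < C * (3 * (4 * s : ℝ)) ^ (A + 8) := by positivity
  have hev := (hlim.eventually (gt_mem_nhds
    (show (0 : ℝ) < 1 / (C * (3 * (4 * s : ℝ)) ^ (A + 8)) by positivity)))
  obtain ⟨u0, hu0⟩ := Filter.eventually_atTop.mp hev
  refine ⟨s * (u0 + 1) ^ 2 + 1, ?_⟩
  intro T hT κ N0 Q J hκ hQ hJ
  have hT1 : 1 ≤ T := by omega
  have hTR : (1 : ℝ) ≤ T := by exact_mod_cast hT1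
  set u := Nat.sqrt (T / s) with hu
  have hu1 : u0 + 1 ≤ u := by
    rw [hu, Nat.le_sqrt, Nat.le_div_iff_mul_le hs]
    nlinarith
  have hu2 : T < s * ((u + 1) * (u + 1)) := by
    have h1 : T / s < (u + 1) * (u + 1) := Nat.lt_succ_sqrt _
    rw [Nat.div_lt_iff_lt_mul hs] at h1
    linarith
  have hTu : (T : ℝ) ≤ 4 * s * (u : ℝ) ^ 2 := by
    have h1 : (T : ℝ) ≤ s * ((u + 1) * (u + 1)) := by exact_mod_cast hu2.le
    have h2 : (1 : ℝ) ≤ u := by exact_mod_cast (by omega : 1 ≤ u)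
    have h3 : ((u : ℝ) + 1) * (u + 1) ≤ 4 * (u : ℝ) ^ 2 := by nlinarith
    have hsR : (0 : ℝ) < s := by exact_mod_cast hs
    nlinarith
  rcases Nat.eq_zero_or_pos Q with hQ0 | hQ0
  · subst hQ0
    unfold errSum3
    simp
    positivity
  have hJT : 65 * J ≤ 48 * T := (Nat.le_add_right _ _).trans hJ
  have h1 := errSum3_le κ T N0 Q J hQ
  have h2 := htot κ T J hκ hJ
  have h3 : hsum 3 Q ≤ (3 * (T : ℝ)) ^ 8 := by
    refine (hsum_le 3 Q hQ0).trans ?_
    norm_num
    have hlog : Real.log Q ≤ 2 * T := by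
      have e1 : Real.log Q ≤ Real.log ((10 : ℝ) ^ J) := by
        apply Real.log_le_log (by exact_mod_cast hQ0)
        exact_mod_cast hQ
      rw [Real.log_pow] at e1
      have e2 : 65 * ((J : ℕ) : ℝ) ≤ 48 * T := by exact_mod_cast hJT
      have e3 : Real.log 10 ≤ 5 / 2 := by
        have h16 : Real.log 1000 ≤ Real.log 1024 := Real.log_le_log (by norm_num) (by norm_num)
        have h17 : Real.log 1024 = 10 * Real.log 2 := by
          rw [show (1024 : ℝ) = 2 ^ 10 by norm_num, Real.log_pow]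
          norm_num
        have h18 : Real.log 1000 = 3 * Real.log 10 := by
          rw [show (1000 : ℝ) = 10 ^ 3 by norm_num, Real.log_pow]
          norm_num
        have := Real.log_two_lt_d9
        linarith
      have e4 : (0 : ℝ) ≤ Real.log 10 := Real.log_nonneg (by norm_num)
      have e5 : (0 : ℝ) ≤ ((J : ℕ) : ℝ) := by positivity
      have e6 : ((J : ℕ) : ℝ) * Real.log 10 ≤ ((J : ℕ) : ℝ) * (5 / 2) :=
        mul_le_mul_of_nonneg_left e3 e5
      linarith
    have hlog0 : 0 ≤ Real.log Q := Real.log_natCast_nonneg Q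
    apply pow_le_pow_left₀ (by linarith)
    linarith
  have h4 : (u : ℝ) ^ (2 * (A + 8)) * θ ^ u < 1 / (C * (3 * (4 * s : ℝ)) ^ (A + 8)) :=
    hu0 u (by omega)
  have h5 : (3 * (T : ℝ)) ^ 8 * (C * θ ^ u) * (T : ℝ) ^ A ≤ 1 := by
    calc (3 * (T : ℝ)) ^ 8 * (C * θ ^ u) * (T : ℝ) ^ A
        ≤ (3 * (T : ℝ)) ^ 8 * (C * θ ^ u) * (3 * (T : ℝ)) ^ A := by
          apply mul_le_mul_of_nonneg_left _ (by positivity)
          apply pow_le_pow_left₀ (by positivity)
          linarith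
      _ = C * θ ^ u * (3 * (T : ℝ)) ^ (A + 8) := by rw [pow_add]; ring
      _ ≤ C * θ ^ u * (3 * (4 * s * (u : ℝ) ^ 2)) ^ (A + 8) := by
          apply mul_le_mul_of_nonneg_left _ (by positivity)
          apply pow_le_pow_left₀ (by positivity)
          linarith
      _ = C * (3 * (4 * s : ℝ)) ^ (A + 8) * ((u : ℝ) ^ (2 * (A + 8)) * θ ^ u) := by
          rw [pow_mul (u : ℝ) 2 (A + 8), mul_pow 3 (4 * (s : ℝ) * (u : ℝ) ^ 2) (A + 8),
            mul_pow (4 * (s : ℝ)) ((u : ℝ) ^ 2) (A + 8), mul_pow 3 (4 * (s : ℝ)) (A + 8)]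
          ring
      _ ≤ C * (3 * (4 * s : ℝ)) ^ (A + 8) * (1 / (C * (3 * (4 * s : ℝ)) ^ (A + 8))) := by
          apply mul_le_mul_of_nonneg_left h4.le hCs.le
      _ = 1 := by field_simp
  have hblk0 : 0 ≤ ∑ j ∈ range J, blk3 κ T j := Finset.sum_nonneg fun j _ => blk3_nonneg _ _ _
  calc errSum3 κ T N0 Q ≤ 30 ^ T * hsum 3 Q * ∑ j ∈ range J, blk3 κ T j := h1
    _ ≤ 30 ^ T * (3 * (T : ℝ)) ^ 8 * (C * θ ^ u) := by
        apply mul_le_mul _ h2 hblk0 (by positivity)
        exact mul_le_mul_of_nonneg_left h3 (by positivity)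
    _ ≤ 30 ^ T / (T : ℝ) ^ A := by
        rw [le_div_iff₀ (by positivity)]
        calc 30 ^ T * (3 * (T : ℝ)) ^ 8 * (C * θ ^ u) * (T : ℝ) ^ A
            = 30 ^ T * ((3 * (T : ℝ)) ^ 8 * (C * θ ^ u) * (T : ℝ) ^ A) := by ring
          _ ≤ 30 ^ T * 1 := mul_le_mul_of_nonneg_left h5 (by positivity)
          _ = 30 ^ T := mul_one _


end Pool.Agent.Helper10.P3
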