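import Pool.Agent.Helper10.P5.SCore

/-! Large sieve for squares of primes with multiplicity. -/

namespace Pool.Agent.Helper10.P3

open Finset Pool.Agent.Helper10 Pool.Agent.Helper10.P5

/-- The number of off-diagonal pairs of a set whose squares lie in few residue classes. -/
lemma offdiag_count (r D S0 : ℕ) (hD : ∀ n : ℕ, 1 ≤ n → n ≤ 10 ^ (2 * r + 2) → tau n ≤ D)
    (S : Finset ℕ) (hS : ∀ x ∈ S, 10 ^ r < x ∧ x ≤ 10 ^ (r + 1)) (P : ℕ) (hP : 10 ^ (2 * r) < P)
    (k : ℤ) (hk : IsCoprime (P : ℤ) k) (s : ℕ → ℤ)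
    (hs : ∀ x ∈ S, |s x| ≤ S0 ∧ (P : ℤ) ∣ k * (x : ℤ) ^ 2 - s x) :
    S.offDiag.card ≤ D * ((4 * S0 + 1) * 200) := by
  classical
  have hPpos : (0 : ℤ) < P := by
    have : 0 < P := (Nat.zero_le _).trans_lt hP
    exact_mod_cast this
  set f : ℕ × ℕ → ℤ × ℤ := fun z => (s z.1 - s z.2, ((z.1 : ℤ) ^ 2 - (z.2 : ℤ) ^ 2) / P) with hf
  have hpow : (10 : ℤ) ^ (2 * r + 2) = 100 * 10 ^ (2 * r) := by rw [pow_add]; ring
  have hPz : (10 : ℤ) ^ (2 * r) < P := by exact_mod_cast hP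
  -- bound for `|x² - y²|`
  have hm : ∀ z ∈ S.offDiag, |(z.1 : ℤ) ^ 2 - (z.2 : ℤ) ^ 2| < 10 ^ (2 * r + 2) := by
    intro z hz
    rw [Finset.mem_offDiag] at hz
    have h1 := hS _ hz.1
    have h2 := hS _ hz.2.1
    have e : (10 : ℤ) ^ (2 * r + 2) = (10 ^ (r + 1)) ^ 2 := by rw [← pow_mul]; congr 1; ring
    have a1 : (z.1 : ℤ) ≤ 10 ^ (r + 1) := by exact_mod_cast h1.2
    have a2 : (z.2 : ℤ) ≤ 10 ^ (r + 1) := by exact_mod_cast h2.2
    have b1 : (0 : ℤ) < z.1 := by
      have := h1.1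
      have : 0 < z.1 := (Nat.zero_le _).trans_lt this
      exact_mod_cast this
    have b2 : (0 : ℤ) < z.2 := by
      have := h2.1
      have : 0 < z.2 := (Nat.zero_le _).trans_lt this
      exact_mod_cast this
    rw [e, abs_lt]
    constructor <;> nlinarith
  have himg : S.offDiag.image f ⊆ (Icc (-(2 * S0 : ℤ)) (2 * S0)) ×ˢ (Icc (-100 : ℤ) 99) := by
    intro b hb
    rw [Finset.mem_image] at hb
    obtain ⟨z, hz, rfl⟩ := hb
    have hmz := hm z hz
    rw [Finset.mem_offDiag] at hz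
    have h1 := (hs _ hz.1).1
    have h2 := (hs _ hz.2.1).1
    rw [abs_le] at h1 h2
    rw [Finset.mem_product, Finset.mem_Icc, Finset.mem_Icc]
    simp only [hf]
    rw [abs_lt] at hmz
    refine ⟨⟨by linarith, by linarith⟩, ?_, ?_⟩
    · rw [Int.le_ediv_iff_mul_le hPpos]
      linarith
    · have : ((z.1 : ℤ) ^ 2 - (z.2 : ℤ) ^ 2) / P < 100 := by
        rw [Int.ediv_lt_iff_lt_mul hPpos]
        linarith
      linarith
  have hcard : ((Icc (-(2 * S0 : ℤ)) (2 * S0)) ×ˢ (Icc (-100 : ℤ) 99)).card = (4 * S0 + 1) * 200 := by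
    rw [Finset.card_product, Int.card_Icc, Int.card_Icc]
    have : (2 * (S0 : ℤ) + 1 - -(2 * S0)).toNat = 4 * S0 + 1 := by omega
    rw [this]
    rfl
  have hfib : ∀ b ∈ S.offDiag.image f, (S.offDiag.filter (fun z => f z = b)).card ≤ D := by
    intro b hb
    rw [Finset.mem_image] at hb
    obtain ⟨z0, hz0, rfl⟩ := hb
    set m0 : ℤ := (z0.1 : ℤ) ^ 2 - (z0.2 : ℤ) ^ 2 with hm0
    have hz0' := Finset.mem_offDiag.1 hz0
    have key : ∀ z ∈ S.offDiag.filter (fun z => f z = f z0),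
        ((z.1 : ℤ) - z.2) * ((z.1 : ℤ) + z.2) = m0 := by
      intro z hz
      rw [Finset.mem_filter] at hz
      obtain ⟨hz1, hz2⟩ := hz
      have hz1' := Finset.mem_offDiag.1 hz1
      simp only [hf, Prod.mk.injEq] at hz2
      obtain ⟨e1, e2⟩ := hz2
      rw [← hm0] at e2
      set m : ℤ := (z.1 : ℤ) ^ 2 - (z.2 : ℤ) ^ 2 with hmdef
      have d1 := dvd_sub (hs _ hz1'.1).2 (hs _ hz1'.2.1).2
      have d2 := dvd_sub (hs _ hz0'.1).2 (hs _ hz0'.2.1).2
      have d3 := dvd_sub d1 d2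
      have d4 : (P : ℤ) ∣ k * (m - m0) := by
        have e : k * (m - m0) = k * ↑z.1 ^ 2 - s z.1 - (k * ↑z.2 ^ 2 - s z.2) -
            (k * ↑z0.1 ^ 2 - s z0.1 - (k * ↑z0.2 ^ 2 - s z0.2)) := by
          rw [hmdef, hm0]
          linear_combination e1
        rw [e]
        exact d3
      have d5 : (P : ℤ) ∣ m - m0 := hk.dvd_of_dvd_mul_left d4
      have h1 := Int.emod_add_mul_ediv m P
      have h2 := Int.emod_add_mul_ediv m0 P
      have h3 : m % P = m0 % P := Int.emod_eq_emod_iff_emod_sub_eq_zero.2 (Int.emod_eq_zero_of_dvd d5)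
      have h4 : m = m0 := by rw [← h1, ← h2, h3, e2]
      rw [← h4, hmdef]; ring
    have hne0 : m0 ≠ 0 := by
      intro h0
      have := key z0 (Finset.mem_filter.2 ⟨hz0, rfl⟩)
      rw [h0, mul_eq_zero] at this
      have hz01 : (0 : ℤ) < z0.1 := by
        have : 0 < z0.1 := (Nat.zero_le _).trans_lt (hS _ hz0'.1).1
        exact_mod_cast this
      rcases this with h | h
      · apply hz0'.2.2
        have : (z0.1 : ℤ) = z0.2 := by linarith
        exact_mod_cast this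
      · linarith [Int.natCast_nonneg z0.2]
    have hτ : tau m0.natAbs ≤ D := by
      apply hD
      · exact Nat.one_le_iff_ne_zero.2 (Int.natAbs_ne_zero.2 hne0)
      · have := hm z0 hz0
        rw [← hm0, Int.abs_eq_natAbs] at this
        exact_mod_cast this.le
    refine le_trans ?_ hτ
    unfold tau
    refine Finset.card_le_card_of_injOn (fun z => ((z.1 : ℤ) - z.2).natAbs) ?_ ?_
    · intro z hz
      have hk1 := key z hz
      rw [Finset.mem_coe, Nat.mem_divisors]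
      refine ⟨?_, Int.natAbs_ne_zero.2 hne0⟩
      rw [Int.natAbs_dvd_natAbs]
      exact Dvd.intro _ hk1
    · intro z hz w hw hzw
      have hk1 := key z hz
      have hk2 := key w hw
      have hz' := Finset.mem_offDiag.1 (Finset.mem_filter.1 hz).1
      have hw' := Finset.mem_offDiag.1 (Finset.mem_filter.1 hw).1
      have pz : (0 : ℤ) < z.1 := by
        have : 0 < z.1 := (Nat.zero_le _).trans_lt (hS _ hz'.1).1
        exact_mod_cast this
      have pw : (0 : ℤ) < w.1 := by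
        have : 0 < w.1 := (Nat.zero_le _).trans_lt (hS _ hw'.1).1
        exact_mod_cast this
      have nz : (0 : ℤ) ≤ z.2 := Int.natCast_nonneg _
      have nw : (0 : ℤ) ≤ w.2 := Int.natCast_nonneg _
      have hzne : (z.1 : ℤ) - z.2 ≠ 0 := by
        intro h; rw [h, zero_mul] at hk1; exact hne0 hk1.symm
      simp only at hzw
      rcases Int.natAbs_eq_natAbs_iff.1 hzw with h | h
      · rw [h] at hk1 hzne
        have h5 : (z.1 : ℤ) + z.2 = (w.1 : ℤ) + w.2 :=
          mul_left_cancel₀ hzne (hk1.trans hk2.symm)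
        have h6 : (z.1 : ℤ) = w.1 := by linarith
        have h7 : (z.2 : ℤ) = w.2 := by linarith
        ext
        · exact_mod_cast h6
        · exact_mod_cast h7
      · exfalso
        rw [h] at hk1 hzne
        have h5 : ((w.1 : ℤ) - w.2) * (((z.1 : ℤ) + z.2) + (w.1 + w.2)) = 0 := by
          linear_combination hk2 - hk1
        rcases mul_eq_zero.1 h5 with h6 | h6
        · rw [h6] at hzne; exact hzne neg_zero
        · linarith
  calc S.offDiag.card ≤ D * (S.offDiag.image f).card := Finset.card_le_mul_card_image _ _ hfib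
    _ ≤ D * ((4 * S0 + 1) * 200) := by
        rw [← hcard]
        exact Nat.mul_le_mul_left _ (Finset.card_le_card himg)

/-- Greedy colouring. -/
lemma greedy {ι : Type*} (near : ι → ι → Prop) (hsymm : ∀ x y, near x y → near y x) (M : ℕ)
    (A : Finset ι) (hdeg : ∀ x ∈ A, ∀ B : Finset ι, B ⊆ A → (∀ y ∈ B, y ≠ x ∧ near x y) →
      B.card ≤ M) :
    ∃ c : ι → ℕ, (∀ x ∈ A, c x < M + 1) ∧ ∀ x ∈ A, ∀ y ∈ A, x ≠ y → near x y → c x ≠ c y := by
  classical
  induction A using Finset.induction_on with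
  | empty => exact ⟨fun _ => 0, by simp, by simp⟩
  | insert a A ha ih =>
    obtain ⟨c, hc1, hc2⟩ := ih (fun x hx B hB h =>
      hdeg x (Finset.mem_insert_of_mem hx) B (hB.trans (Finset.subset_insert _ _)) h)
    set N := A.filter (fun y => near a y) with hN
    have hNc : N.card ≤ M := by
      apply hdeg a (Finset.mem_insert_self _ _) N
      · exact (Finset.filter_subset _ _).trans (Finset.subset_insert _ _)
      · intro y hy
        rw [hN, Finset.mem_filter] at hy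
        refine ⟨?_, hy.2⟩
        rintro rfl
        exact ha hy.1
    have hex : ∃ j ∈ range (M + 1), j ∉ N.image c := by
      by_contra hcon
      push Not at hcon
      have h1 : range (M + 1) ⊆ N.image c := fun j hj => hcon j hj
      have h2 := Finset.card_le_card h1
      rw [Finset.card_range] at h2
      have h3 : (N.image c).card ≤ N.card := Finset.card_image_le
      omega
    obtain ⟨j, hj1, hj2⟩ := hex
    rw [Finset.mem_range] at hj1
    have hj3 : ∀ y ∈ A, near a y → c y ≠ j := by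
      intro y hy hny h
      apply hj2
      rw [Finset.mem_image]
      exact ⟨y, Finset.mem_filter.2 ⟨hy, hny⟩, h⟩
    refine ⟨fun x => if x = a then j else c x, ?_, ?_⟩
    · intro x hx
      by_cases hxa : x = a
      · simp only [hxa, if_true]; exact hj1
      · simp only [hxa, if_false]
        exact hc1 x (Finset.mem_of_mem_insert_of_ne hx hxa)
    · intro x hx y hy hxy hn
      by_cases hxa : x = a
      · have hya : y ≠ a := fun h => hxy (hxa.trans h.symm)
        simp only [hxa, hya, if_true, if_false]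
        have hyA := Finset.mem_of_mem_insert_of_ne hy hya
        rw [hxa] at hn
        exact (hj3 y hyA hn).symm
      · by_cases hya : y = a
        · simp only [hxa, hya, if_true, if_false]
          have hxA := Finset.mem_of_mem_insert_of_ne hx hxa
          rw [hya] at hn
          exact hj3 x hxA (hsymm _ _ hn)
        · simp only [hxa, hya, if_false]
          exact hc2 x (Finset.mem_of_mem_insert_of_ne hx hxa) y
            (Finset.mem_of_mem_insert_of_ne hy hya) hxy hn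

lemma nd_triangle (x y : ℝ) : nd (x - y) ≤ nd x + nd y := by
  have h := nd_le (x - y) (round x - round y)
  refine h.trans ?_
  unfold nd
  push_cast
  have e : x - y - ((round x : ℝ) - round y) = (x - round x) - (y - round y) := by ring
  rw [e]
  exact abs_sub _ _

lemma nd_sub_comm (x y : ℝ) : nd (x - y) = nd (y - x) := by
  rw [← nd_neg (x - y), neg_sub]

/-- The points of the large sieve. -/
noncomputable def pt (κ' : ℕ) (p : Σ _ : ℕ, ℕ) : ℝ := (κ' : ℝ) * ((p.2 : ℝ) / p.1)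

lemma neigh (r κ' D U M : ℕ)
    (hκ : ∀ q : ℕ, q.Coprime 10 → q.Coprime κ')
    (hD : ∀ n : ℕ, 1 ≤ n → n ≤ 10 ^ (2 * r + 2) → tau n ≤ D)
    (hU : 4 * 10 ^ (2 * r + 2) ≤ U)
    (hM : 804 * D * (10 ^ (4 * r + 4) / U + 1) ≤ M ^ 2)
    (x : Σ _ : ℕ, ℕ) (hx : x ∈ (SQ r).sigma (fun q => AA q))
    (B : Finset (Σ _ : ℕ, ℕ)) (hB : B ⊆ (SQ r).sigma (fun q => AA q))
    (hBn : ∀ y ∈ B, y ≠ x ∧ nd (pt κ' x - pt κ' y) < 1 / U) : B.card ≤ M := by
  classical
  have hUpos : 0 < U := by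
    have : 0 < 4 * 10 ^ (2 * r + 2) := by positivity
    omega
  have hUR : (0 : ℝ) < U := by exact_mod_cast hUpos
  set B' := insert x B with hB'
  have hxB : x ∉ B := fun h => (hBn x h).1 rfl
  have hB'c : B'.card = B.card + 1 := Finset.card_insert_of_notMem hxB
  have hB'sub : ∀ y ∈ B', y ∈ (SQ r).sigma (fun q => AA q) := by
    intro y hy
    rw [hB', Finset.mem_insert] at hy
    rcases hy with rfl | hy
    · exact hx
    · exact hB hy
  have hB'n : ∀ y ∈ B', nd (pt κ' x - pt κ' y) < 1 / U := by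
    intro y hy
    rw [hB', Finset.mem_insert] at hy
    rcases hy with rfl | hy
    · rw [sub_self]
      have : nd 0 = 0 := by simp [nd]
      rw [this]; positivity
    · exact (hBn y hy).2
  have hspec : ∀ y ∈ B', ∃ p : ℕ, p.Prime ∧ 10 ^ r < p ∧ p ≤ 10 ^ (r + 1) ∧ y.1 = p ^ 2 ∧
      y.2 < y.1 ∧ y.2.Coprime y.1 ∧ p.Coprime 10 := by
    intro y hy
    have h1 := hB'sub y hy
    rw [Finset.mem_sigma, mem_SQ] at h1
    obtain ⟨⟨p, hp1, hp2, hp3⟩, h2⟩ := h1
    rw [mem_QT] at hp1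
    unfold AA at h2
    rw [Finset.mem_filter, Finset.mem_range] at h2
    exact ⟨p, hp2, hp1.1.1, hp1.1.2, hp3.symm, h2.1, h2.2, hp1.2⟩
  have hsq10 : ∀ p : ℕ, p ≤ 10 ^ (r + 1) → p ^ 2 ≤ 10 ^ (2 * r + 2) := by
    intro p hp
    calc p ^ 2 ≤ (10 ^ (r + 1)) ^ 2 := Nat.pow_le_pow_left hp 2
      _ = 10 ^ (2 * r + 2) := by rw [← pow_mul]; congr 1; ring
  -- injectivity of the first component
  have hinj : Set.InjOn (fun y : (Σ _ : ℕ, ℕ) => Nat.sqrt y.1) B' := by
    intro y hy z hz hyz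
    obtain ⟨p, hp1, hp2, hp3, hp4, hp5, hp6, hp7⟩ := hspec y hy
    obtain ⟨p', hp1', hp2', hp3', hp4', hp5', hp6', hp7'⟩ := hspec z hz
    simp only [hp4, hp4', Nat.sqrt_eq'] at hyz
    subst hyz
    by_contra hne
    have h1 := hB'n y hy
    have h2 := hB'n z hz
    have h3 : nd (pt κ' y - pt κ' z) < 2 / U := by
      have e : pt κ' y - pt κ' z = (pt κ' x - pt κ' z) - (pt κ' x - pt κ' y) := by ring
      rw [e]
      have := nd_triangle (pt κ' x - pt κ' z) (pt κ' x - pt κ' y)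
      have e2 : (2 : ℝ) / U = 1 / U + 1 / U := by ring
      rw [e2]; linarith
    have hne2 : y.2 ≠ z.2 := by
      intro h
      apply hne
      ext
      · rw [hp4, hp4']
      · rw [h]
    set q : ℕ := p ^ 2 with hq
    have hqpos : 0 < q := by rw [hq]; exact pow_pos hp1.pos 2
    have hqR : (0 : ℝ) < q := by exact_mod_cast hqpos
    have e3 : pt κ' y - pt κ' z = (((κ' : ℤ) * ((y.2 : ℤ) - z.2) : ℤ) : ℝ) / (q : ℝ) := by
      unfold pt
      rw [hp4, hp4']
      push_cast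
      field_simp
    have hnd : ¬ (q : ℤ) ∣ (κ' : ℤ) * ((y.2 : ℤ) - z.2) := by
      intro hdv
      have hcop : IsCoprime (q : ℤ) (κ' : ℤ) := by
        rw [Nat.isCoprime_iff_coprime]
        exact hκ q (Nat.Coprime.pow_left 2 hp7)
      have hdv2 := hcop.dvd_of_dvd_mul_left hdv
      have h4 : |(y.2 : ℤ) - z.2| < q := by
        rw [abs_lt]
        rw [hp4] at hp5
        rw [hp4'] at hp5'
        constructor <;> omega
      have h5 := Int.eq_zero_of_abs_lt_dvd hdv2 h4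
      apply hne2
      omega
    have h6 := nd_ge_of_not_dvd _ q hqpos hnd
    rw [← e3] at h6
    have h7 : (2 : ℝ) / U < 1 / q := by
      rw [div_lt_div_iff₀ hUR hqR]
      have h8 : (q : ℝ) ≤ 10 ^ (2 * r + 2) := by exact_mod_cast hsq10 p hp3
      have h9 : (4 : ℝ) * 10 ^ (2 * r + 2) ≤ U := by exact_mod_cast hU
      linarith
    linarith
  set S := B'.image (fun y : (Σ _ : ℕ, ℕ) => Nat.sqrt y.1) with hS
  have hScard : S.card = B'.card := Finset.card_image_of_injOn hinj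
  obtain ⟨p, hp1, hp2, hp3, hp4, hp5, hp6, hp7⟩ := hspec x (Finset.mem_insert_self _ _)
  set S0 : ℕ := 10 ^ (4 * r + 4) / U with hS0
  have hSs : ∀ w ∈ S, (10 ^ r < w ∧ w ≤ 10 ^ (r + 1)) ∧ ∃ s : ℤ, |s| ≤ S0 ∧
      ((x.1 : ℕ) : ℤ) ∣ ((κ' : ℤ) * x.2) * (w : ℤ) ^ 2 - s := by
    intro w hw
    rw [hS, Finset.mem_image] at hw
    obtain ⟨y, hy, rfl⟩ := hw
    obtain ⟨p', hp1', hp2', hp3', hp4', hp5', hp6', hp7'⟩ := hspec y hy
    have e0 : Nat.sqrt y.1 = p' := by rw [hp4', Nat.sqrt_eq']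
    rw [e0]
    refine ⟨⟨hp2', hp3'⟩, ?_⟩
    have h1 := hB'n y hy
    set m : ℤ := round (pt κ' x - pt κ' y) with hm
    have hxpos : 0 < x.1 := by rw [hp4]; exact pow_pos hp1.pos 2
    have hypos : 0 < y.1 := by rw [hp4']; exact pow_pos hp1'.pos 2
    have hxR : (0 : ℝ) < x.1 := by exact_mod_cast hxpos
    have hyR : (0 : ℝ) < y.1 := by exact_mod_cast hypos
    refine ⟨(κ' : ℤ) * x.2 * y.1 - (κ' : ℤ) * y.2 * x.1 - m * (x.1 * y.1), ?_, ?_⟩
    · have h2 : ((((κ' : ℤ) * x.2 * y.1 - (κ' : ℤ) * y.2 * x.1 - m * (x.1 * y.1) : ℤ)) : ℝ)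
          = (pt κ' x - pt κ' y - m) * (x.1 * y.1) := by
        unfold pt
        push_cast
        field_simp
      have h3 : |pt κ' x - pt κ' y - m| < 1 / U := h1
      have h4 : |((((κ' : ℤ) * x.2 * y.1 - (κ' : ℤ) * y.2 * x.1 - m * (x.1 * y.1) : ℤ)) : ℝ)| * U
          < 10 ^ (4 * r + 4) := by
        rw [h2, abs_mul, abs_of_pos (mul_pos hxR hyR)]
        have h5 : |pt κ' x - pt κ' y - m| * U < 1 := by
          rwa [lt_div_iff₀ hUR] at h3
        have h6 : (x.1 : ℝ) * y.1 ≤ 10 ^ (4 * r + 4) := by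
          have a1 : (x.1 : ℝ) ≤ 10 ^ (2 * r + 2) := by
            rw [hp4]; exact_mod_cast hsq10 p hp3
          have a2 : (y.1 : ℝ) ≤ 10 ^ (2 * r + 2) := by
            rw [hp4']; exact_mod_cast hsq10 p' hp3'
          calc (x.1 : ℝ) * y.1 ≤ 10 ^ (2 * r + 2) * 10 ^ (2 * r + 2) :=
                mul_le_mul a1 a2 hyR.le (by positivity)
            _ = 10 ^ (4 * r + 4) := by rw [← pow_add]; congr 1; ring
        calc |pt κ' x - pt κ' y - m| * (x.1 * y.1) * U
            = (|pt κ' x - pt κ' y - m| * U) * (x.1 * y.1) := by ring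
          _ < 1 * (x.1 * y.1) := mul_lt_mul_of_pos_right h5 (mul_pos hxR hyR)
          _ ≤ 10 ^ (4 * r + 4) := by rw [one_mul]; exact h6
      have h5 : |(κ' : ℤ) * x.2 * y.1 - (κ' : ℤ) * y.2 * x.1 - m * (x.1 * y.1)| * U
          < 10 ^ (4 * r + 4) := by exact_mod_cast h4
      rw [Int.abs_eq_natAbs] at h5 ⊢
      have h6 : ((κ' : ℤ) * x.2 * y.1 - (κ' : ℤ) * y.2 * x.1 - m * (x.1 * y.1)).natAbs * U
          < 10 ^ (4 * r + 4) := by exact_mod_cast h5
      have h7 : ((κ' : ℤ) * x.2 * y.1 - (κ' : ℤ) * y.2 * x.1 - m * (x.1 * y.1)).natAbs ≤ S0 := by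
        rw [hS0, Nat.le_div_iff_mul_le hUpos]
        exact h6.le
      exact_mod_cast h7
    · have e1 : ((p' : ℕ) : ℤ) ^ 2 = (y.1 : ℤ) := by rw [hp4']; push_cast; ring
      rw [e1]
      refine ⟨(κ' : ℤ) * y.2 + m * y.1, ?_⟩
      ring
  choose! s hs using fun w hw => (hSs w hw).2
  have hxq : 10 ^ (2 * r) < x.1 := by
    rw [hp4, mul_comm, pow_mul]
    exact Nat.pow_lt_pow_left hp2 (by norm_num)
  have hcop : IsCoprime ((x.1 : ℕ) : ℤ) ((κ' : ℤ) * x.2) := by
    have h1 : x.1.Coprime (κ' * x.2) := by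
      refine Nat.Coprime.mul_right ?_ hp6.symm
      rw [hp4]
      exact hκ _ (Nat.Coprime.pow_left 2 hp7)
    have := Nat.isCoprime_iff_coprime.2 h1
    push_cast at this
    exact this
  have hoff := offdiag_count r D S0 hD S (fun w hw => (hSs w hw).1) x.1 hxq ((κ' : ℤ) * x.2) hcop s hs
  rw [Finset.offDiag_card, hScard, hB'c] at hoff
  have h1 : D * ((4 * S0 + 1) * 200) ≤ M ^ 2 := by
    refine le_trans ?_ hM
    nlinarith [Nat.zero_le (D * S0), Nat.zero_le D]
  have h2 : (B.card + 1) * (B.card + 1) - (B.card + 1) = (B.card + 1) * B.card := by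
    rw [Nat.mul_succ, Nat.add_sub_cancel]
  rw [h2] at hoff
  by_contra hcon
  push Not at hcon
  have h3 : (M + 2) * (M + 1) ≤ (B.card + 1) * B.card := Nat.mul_le_mul (by omega) (by omega)
  nlinarith

theorem LS_squares {κ : Type*} (r κ' D U M : ℕ)
    (hκ : ∀ q : ℕ, q.Coprime 10 → q.Coprime κ')
    (hD : ∀ n : ℕ, 1 ≤ n → n ≤ 10 ^ (2 * r + 2) → tau n ≤ D)
    (hU : 4 * 10 ^ (2 * r + 2) ≤ U)
    (hM : 804 * D * (10 ^ (4 * r + 4) / U + 1) ≤ M ^ 2)
    (K : Finset κ) (u : κ → ℕ) (hu : Set.InjOn u K) (huU : ∀ k ∈ K, u k < U) (c : κ → ℂ) :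
    ∑ q ∈ SQ r, ∑ a ∈ AA q, ‖∑ k ∈ K, c k * ee (u k * ((κ' : ℝ) * ((a : ℝ) / q)))‖ ^ 2 ≤
      (M + 1) * (5 * U) * ∑ k ∈ K, ‖c k‖ ^ 2 := by
  classical
  have hUpos : 0 < U := by
    have : 0 < 4 * 10 ^ (2 * r + 2) := by positivity
    omega
  have hUR : (0 : ℝ) < U := by exact_mod_cast hUpos
  set A := (SQ r).sigma (fun q => AA q) with hA
  obtain ⟨col, hc1, hc2⟩ := greedy (fun x y => nd (pt κ' x - pt κ' y) < 1 / U)
    (fun x y h => by rw [nd_sub_comm]; exact h) M A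
    (fun x hx B hB h => neigh r κ' D U M hκ hD hU hM x hx B hB h)
  have hmaps : ∀ x ∈ A, col x ∈ range (M + 1) := fun x hx => Finset.mem_range.2 (hc1 x hx)
  have e1 : ∑ q ∈ SQ r, ∑ a ∈ AA q, ‖∑ k ∈ K, c k * ee (u k * ((κ' : ℝ) * ((a : ℝ) / q)))‖ ^ 2
      = ∑ x ∈ A, ‖∑ k ∈ K, c k * ee (u k * pt κ' x)‖ ^ 2 := by
    rw [hA, Finset.sum_sigma]
    rfl
  rw [e1, ← Finset.sum_fiberwise_of_maps_to hmaps]
  have h1 : ∀ j ∈ range (M + 1), ∑ x ∈ A.filter (fun x => col x = j),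
      ‖∑ k ∈ K, c k * ee (u k * pt κ' x)‖ ^ 2 ≤ 5 * U * ∑ k ∈ K, ‖c k‖ ^ 2 := by
    intro j _
    refine large_sieve (A.filter (fun x => col x = j)) (pt κ') (1 / (U : ℝ)) (by positivity) ?_
      K u hu U huU (by rw [one_div_one_div]) c
    intro x hx y hy hxy
    rw [Finset.mem_filter] at hx hy
    by_contra hcon
    push Not at hcon
    exact hc2 x hx.1 y hy.1 hxy hcon (hx.2.trans hy.2.symm)
  refine (Finset.sum_le_sum h1).trans (le_of_eq ?_)
  rw [Finset.sum_const, Finset.card_range, nsmul_eq_mul]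
  push_cast
  ring

end Pool.Agent.Helper10.P3
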