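import Pool.Agent.Helper10.P3.SAll3
import Pool.Agent.Helper10.P3.LSSq

/-! Power saving over squares of primes. -/

namespace Pool.Agent.Helper10.P3

open Finset Pool.Agent.Helper10 Pool.Agent.Helper10.P5 Pool.Agent.Helper10.P4

/-- the fourth moment over squares of primes -/
lemma fourth_sq (κ T ℓ r D : ℕ) (V : Finset ℕ)
    (hκ : ∀ q : ℕ, q.Coprime 10 → q.Coprime κ) (hℓ : ℓ ≤ T) (hV : V ⊆ Icc 1 ℓ)
    (hrℓ : r ≤ ℓ) (hℓr : ℓ ≤ 2 * r) (hD1 : 1 ≤ D)
    (hD : ∀ n : ℕ, 1 ≤ n → n ≤ 10 ^ (2 * r + 2) → tau n ≤ D) :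
    ∑ q ∈ SQ r, ∑ a ∈ AA q, GF3 κ T V ((a : ℝ) / q) ^ 4 ≤
      640000 * D * 10 ^ (2 * r + ℓ) * (71346 / 810000) ^ V.card := by
  classical
  set κ' : ℕ := κ * 10 ^ (T - ℓ) with hκ'
  have hκ'c : ∀ q : ℕ, q.Coprime 10 → q.Coprime κ' := fun q hq =>
    Nat.Coprime.mul_right (hκ q hq) (Nat.Coprime.pow_right _ hq)
  have e1 : ∑ q ∈ SQ r, ∑ a ∈ AA q, GF3 κ T V ((a : ℝ) / q) ^ 4 =
      ∑ q ∈ SQ r, ∑ a ∈ AA q, (GF3 κ T V ((a : ℝ) / q) ^ 2) ^ 2 :=
    Finset.sum_congr rfl fun q _ => Finset.sum_congr rfl fun a _ => by ring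
  rw [e1]
  have hM : 804 * D * (10 ^ (4 * r + 4) / 10 ^ (2 * ℓ + 3) + 1) ≤ (127 * D * 10 ^ (2 * r - ℓ)) ^ 2 := by
    have h1 : 10 ^ (4 * r + 4) / 10 ^ (2 * ℓ + 3) = 10 ^ (4 * r + 1 - 2 * ℓ) := by
      rw [Nat.pow_div (by omega) (by norm_num)]
      congr 1
      omega
    have h2 : 10 ^ (4 * r + 1 - 2 * ℓ) = 10 * (10 ^ (2 * r - ℓ)) ^ 2 := by
      rw [← pow_mul, ← pow_succ']
      congr 1
      omega
    rw [h1, h2]
    set z := 10 ^ (2 * r - ℓ) with hz
    have hz1 : 1 ≤ z := Nat.one_le_pow _ _ (by norm_num)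
    have hz2 : 1 ≤ z ^ 2 := Nat.one_le_pow _ _ hz1
    have hD2 : D * z ^ 2 ≤ D ^ 2 * z ^ 2 := by
      apply Nat.mul_le_mul_right
      nlinarith
    have hD3 : D ≤ D * z ^ 2 := Nat.le_mul_of_pos_right D hz2
    calc 804 * D * (10 * z ^ 2 + 1) = 8040 * (D * z ^ 2) + 804 * D := by ring
      _ ≤ 16129 * (D ^ 2 * z ^ 2) := by omega
      _ = (127 * D * z) ^ 2 := by ring
  have LS := LS_squares r κ' D (10 ^ (2 * ℓ + 3)) (127 * D * 10 ^ (2 * r - ℓ)) hκ'c hD
    (by
      calc 4 * 10 ^ (2 * r + 2) ≤ 10 * 10 ^ (2 * r + 2) := Nat.mul_le_mul_right _ (by norm_num)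
        _ = 10 ^ (2 * r + 3) := by rw [← pow_succ']
        _ ≤ 10 ^ (2 * ℓ + 3) := Nat.pow_le_pow_right (by norm_num) (by omega))
    hM (KK ℓ 19) (vl ℓ)
    (by
      intro f hf f' hf' h
      exact vl_inj ℓ 19 (by norm_num) f f' hf hf' h)
    (by
      intro f hf
      have h1 := vl_le ℓ 19 f hf
      norm_num at h1
      have h2 : 10 ^ (2 * ℓ + 3) = 100 * 10 ^ (2 * ℓ + 1) := by
        rw [show 2 * ℓ + 3 = (2 * ℓ + 1) + 2 by ring, pow_add]
        ring
      have h3 : 0 < 10 ^ (2 * ℓ + 1) := by positivity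
      omega)
    (fun f => ((ct3 V ℓ f : ℝ) : ℂ))
  have hcn : ∑ f ∈ KK ℓ 19, ‖((ct3 V ℓ f : ℝ) : ℂ)‖ ^ 2 = (71346 / 810000) ^ V.card := by
    rw [← ct3_sq_sum V ℓ hV]
    apply Finset.sum_congr rfl
    intro f _
    rw [Complex.norm_real, Real.norm_eq_abs, sq_abs]
  rw [hcn] at LS
  have e2 : ∑ q ∈ SQ r, ∑ a ∈ AA q, (GF3 κ T V ((a : ℝ) / q) ^ 2) ^ 2 =
      ∑ q ∈ SQ r, ∑ a ∈ AA q, ‖∑ k ∈ KK ℓ 19, ((ct3 V ℓ k : ℝ) : ℂ) *
        ee ((vl ℓ k : ℝ) * ((κ' : ℝ) * ((a : ℝ) / q)))‖ ^ 2 := by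
    apply Finset.sum_congr rfl
    intro q _
    apply Finset.sum_congr rfl
    intro a _
    rw [GF3_expand κ T ℓ V hℓ hV]
    congr 2
    apply Finset.sum_congr rfl
    intro f _
    congr 2
    rw [hκ']
    push_cast
    ring
  rw [e2]
  refine LS.trans ?_
  apply mul_le_mul_of_nonneg_right _ (by positivity)
  push_cast
  have hz1 : (1 : ℝ) ≤ 10 ^ (2 * r - ℓ) := one_le_pow₀ (by norm_num)
  have hDR : (1 : ℝ) ≤ D := by exact_mod_cast hD1
  have h1 : (127 * (D : ℝ) * 10 ^ (2 * r - ℓ) + 1) ≤ 128 * (D : ℝ) * 10 ^ (2 * r - ℓ) := by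
    nlinarith
  have h2 : (10 : ℝ) ^ (2 * r - ℓ) * 10 ^ (2 * ℓ + 3) = 1000 * 10 ^ (2 * r + ℓ) := by
    rw [← pow_add, show (1000 : ℝ) = 10 ^ 3 by norm_num, ← pow_add]
    congr 1
    omega
  calc (127 * (D : ℝ) * 10 ^ (2 * r - ℓ) + 1) * (5 * 10 ^ (2 * ℓ + 3))
      ≤ (128 * (D : ℝ) * 10 ^ (2 * r - ℓ)) * (5 * 10 ^ (2 * ℓ + 3)) :=
        mul_le_mul_of_nonneg_right h1 (by positivity)
    _ = 640 * D * (10 ^ (2 * r - ℓ) * 10 ^ (2 * ℓ + 3)) := by ring
    _ = 640000 * D * 10 ^ (2 * r + ℓ) := by rw [h2]; ring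

/-- **First moment over squares of primes.** -/
theorem S_sq3 (g : ℕ) (hg : 3 ≤ g) : ∃ C θ : ℝ, 0 < C ∧ 0 < θ ∧ θ < 1 ∧
    ∀ κ T r : ℕ, (∀ q : ℕ, q.Coprime 10 → q.Coprime κ) → 65 * r + 65 * (r / g) ≤ 48 * T →
      ∑ q ∈ SQ r, ∑ a ∈ AA q, GF3 κ T (Icc 1 T) ((a : ℝ) / q) ≤ C * (100 * θ) ^ r := by
  classical
  obtain ⟨σ, μ0, θ, hσ0, hσ1, hμ01, hθ0, hθ1, hσμ, hdec⟩ := decay_gen (97 / 100) (by norm_num)
    (by norm_num) (2 * g) (by omega)
  set μ : ℝ := min μ0 (101 / 100) with hμ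
  have hμ1 : 1 < μ := lt_min hμ01 (by norm_num)
  have hμle : μ ≤ μ0 := min_le_left _ _
  have hμle2 : μ ≤ 101 / 100 := min_le_right _ _
  clear_value μ
  obtain ⟨C', hC'1, hτ⟩ := tau_le_pow μ hμ1
  set θ' : ℝ := max θ (98 / 100) with hθ'
  have hθ'0 : 0 < θ' := lt_max_of_lt_left hθ0
  have hθ'1 : θ' < 1 := max_lt hθ1 (by norm_num)
  have hθle : θ ≤ θ' := le_max_left _ _
  have hθle2 : 98 / 100 ≤ θ' := le_max_right _ _
  set C1 : ℝ := 40000 * g * C' + 640000 * C' * (1000 / 97) ^ (2 * g) with hC1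
  set C2 : ℝ := 10 ^ (6 * g + 3) with hC2
  refine ⟨C1 + C2, θ', by positivity, hθ'0, hθ'1, ?_⟩
  intro κ T r hκ hT
  have hS : ∀ q ∈ SQ r, 0 < q ∧ q ≤ 10 ^ (2 * r + 2) ∧ q.Coprime 10 := by
    intro q hq
    have := SQ_spec r q hq
    exact ⟨this.1, this.2.1, this.2.2.1⟩
  have hθ1' : (1 : ℝ) ≤ (100 * θ') ^ r := one_le_pow₀ (by linarith)
  rcases Nat.lt_or_ge r (2 * g) with hrg | hrg
  · -- trivial bound
    have h1 : ∑ q ∈ SQ r, ∑ a ∈ AA q, GF3 κ T (Icc 1 T) ((a : ℝ) / q) ≤ 10 ^ (3 * r + 3) := by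
      calc ∑ q ∈ SQ r, ∑ a ∈ AA q, GF3 κ T (Icc 1 T) ((a : ℝ) / q)
          ≤ ∑ q ∈ SQ r, (10 : ℝ) ^ (2 * r + 2) := by
            apply Finset.sum_le_sum
            intro q hq
            calc ∑ a ∈ AA q, GF3 κ T (Icc 1 T) ((a : ℝ) / q) ≤ ∑ a ∈ AA q, (1 : ℝ) :=
                  Finset.sum_le_sum fun a _ => GF3_le_one _ _ _ _
              _ = (AA q).card := by simp
              _ ≤ (q : ℝ) := by
                  have : (AA q).card ≤ q := by
                    unfold AA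
                    refine (Finset.card_filter_le _ _).trans ?_
                    rw [Finset.card_range]
                  exact_mod_cast this
              _ ≤ 10 ^ (2 * r + 2) := by exact_mod_cast (hS q hq).2.1
        _ = (SQ r).card * (10 : ℝ) ^ (2 * r + 2) := by rw [Finset.sum_const, nsmul_eq_mul]
        _ ≤ (9 * 10 ^ r) * (10 : ℝ) ^ (2 * r + 2) := by
            apply mul_le_mul_of_nonneg_right _ (by positivity)
            exact_mod_cast SQ_card r
        _ ≤ 10 ^ (3 * r + 3) := by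
            have : (10 : ℝ) ^ (3 * r + 3) = 10 * 10 ^ r * 10 ^ (2 * r + 2) := by ring
            rw [this]
            apply mul_le_mul_of_nonneg_right _ (by positivity)
            have : (0 : ℝ) < 10 ^ r := by positivity
            linarith
    refine h1.trans ?_
    have h2 : (10 : ℝ) ^ (3 * r + 3) ≤ C2 := by
      rw [hC2]
      apply pow_le_pow_right₀ (by norm_num)
      omega
    have hC20 : 0 < C2 := by positivity
    have h7 : 0 ≤ C1 * (100 * θ') ^ r := by positivity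
    nlinarith
  · obtain ⟨ℓ, hℓ⟩ : ∃ ℓ, ℓ = min T (2 * r) := ⟨_, rfl⟩
    have hrg2 : r / g ≤ r := Nat.div_le_self _ _
    have hℓT : ℓ ≤ T := by omega
    have hℓ2 : ℓ ≤ 2 * r := by omega
    have hrℓ : r ≤ ℓ := by omega
    obtain ⟨L, hL⟩ : ∃ L, L = ℓ / (2 * g) := ⟨_, rfl⟩
    have hLr : L ≤ r / g := by
      rw [hL]
      calc ℓ / (2 * g) ≤ (2 * r) / (2 * g) := Nat.div_le_div_right hℓ2
        _ = r / g := Nat.mul_div_mul_left _ _ (by norm_num)
    have hg3 : 3 * (r / g) ≤ r := by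
      have h1 := Nat.mul_div_le r g
      nlinarith [Nat.zero_le (r / g)]
    have hLle : r / (2 * g) ≤ L := by
      rw [hL]
      exact Nat.div_le_div_right hrℓ
    have hℓr : 65 * r + 65 * L ≤ 48 * ℓ := by omega
    have hGL : (2 * g) * L ≤ ℓ := by rw [hL]; exact Nat.mul_div_le ℓ (2 * g)
    have hGL2 : ℓ < (2 * g) * L + 2 * g := by
      rw [hL]
      have := Nat.lt_mul_div_succ ℓ (show 0 < 2 * g by omega)
      rw [mul_add, mul_one] at this
      exact this
    set l : ℝ := (97 / 100) ^ L with hl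
    have hl0 : 0 < l := by positivity
    have h1 : l ≤ 1 / (97 / 100) * σ ^ r := by
      refine le_trans ?_ (hdec r)
      rw [hl]
      exact pow_le_pow_of_le_one (by norm_num) (by norm_num) hLle
    clear hrg2
    set D : ℕ := ⌊C' * μ ^ r⌋₊ with hDdef
    have hμr : (1 : ℝ) ≤ μ ^ r := one_le_pow₀ hμ1.le
    have hCμ : 1 ≤ C' * μ ^ r := by nlinarith
    have hDle : (D : ℝ) ≤ C' * μ ^ r := Nat.floor_le (by positivity)
    have hD1 : 1 ≤ D := by
      rw [hDdef]
      exact (Nat.one_le_floor_iff _).mpr hCμ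
    have hD : ∀ n : ℕ, 1 ≤ n → n ≤ 18 * 10 ^ (2 * ℓ + 1) → tau n ≤ D := by
      intro n hn1 hn2
      apply Nat.le_floor
      apply hτ r n hn1
      refine hn2.trans ?_
      apply Nat.mul_le_mul_left
      exact Nat.pow_le_pow_right (by norm_num) (by omega)
    have hD' : ∀ n : ℕ, 1 ≤ n → n ≤ 10 ^ (2 * r + 2) → tau n ≤ D := by
      intro n hn1 hn2
      apply Nat.le_floor
      apply hτ r n hn1
      refine hn2.trans ?_
      calc 10 ^ (2 * r + 2) ≤ 10 ^ (6 * r + 1) := Nat.pow_le_pow_right (by norm_num) (by omega)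
        _ ≤ 18 * 10 ^ (6 * r + 1) := Nat.le_mul_of_pos_left _ (by norm_num)
    have hpt := fun α => pointwise3 κ T ℓ L (2 * g) hℓT hGL l hl0 α
    have h2 := sum_compl3 κ T ℓ L (2 * g) (10 ^ (2 * r + 2)) D r hκ hℓT hℓr (SQ r) (SQ_card r) hS hD
    have h3 := fourth_sq κ T ℓ r D (Icc 1 ((2 * g) * L)) hκ hℓT
      (Finset.Icc_subset_Icc_right hGL) hrℓ hℓ2 hD1 hD'
    rw [Nat.card_Icc, Nat.add_sub_cancel] at h3
    have h4 : ∑ q ∈ SQ r, ∑ a ∈ AA q, GF3 κ T (Icc 1 T) ((a : ℝ) / q) ≤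
        l * ∑ q ∈ SQ r, ∑ a ∈ AA q, ∑ i ∈ range (2 * g),
          GF3 κ T (Icc 1 ℓ \ Ioc (i * L) ((i + 1) * L)) ((a : ℝ) / q) +
        (1 / l ^ (3 * (2 * g))) * ∑ q ∈ SQ r, ∑ a ∈ AA q,
          GF3 κ T (Icc 1 ((2 * g) * L)) ((a : ℝ) / q) ^ 4 := by
      rw [Finset.mul_sum, Finset.mul_sum, ← Finset.sum_add_distrib]
      apply Finset.sum_le_sum
      intro q _
      rw [Finset.mul_sum, Finset.mul_sum, ← Finset.sum_add_distrib]
      exact Finset.sum_le_sum fun a _ => hpt _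
    -- first part
    have h5 : l * ∑ q ∈ SQ r, ∑ a ∈ AA q, ∑ i ∈ range (2 * g),
          GF3 κ T (Icc 1 ℓ \ Ioc (i * L) ((i + 1) * L)) ((a : ℝ) / q) ≤
        40000 * g * C' * (100 * θ') ^ r := by
      calc l * ∑ q ∈ SQ r, ∑ a ∈ AA q, ∑ i ∈ range (2 * g),
          GF3 κ T (Icc 1 ℓ \ Ioc (i * L) ((i + 1) * L)) ((a : ℝ) / q)
          ≤ (1 / (97 / 100) * σ ^ r) * ((2 * g : ℕ) * ((10 ^ (2 * r + 2) : ℕ) * (90 + D))) := by
            apply mul_le_mul h1 h2 _ (by positivity)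
            apply Finset.sum_nonneg
            intro q _
            apply Finset.sum_nonneg
            intro a _
            apply Finset.sum_nonneg
            intro i _
            exact GF3_nonneg _ _ _ _
        _ ≤ (2 * σ ^ r) * ((2 * g : ℕ) * ((100 * 100 ^ r) * (91 * (C' * μ ^ r)))) := by
            apply mul_le_mul
            · apply mul_le_mul_of_nonneg_right _ (by positivity)
              norm_num
            · apply mul_le_mul_of_nonneg_left _ (by positivity)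
              push_cast
              have e1 : (10 : ℝ) ^ (2 * r + 2) = 100 * 100 ^ r := by
                rw [pow_add, pow_mul]
                norm_num
                ring
              rw [e1]
              apply mul_le_mul_of_nonneg_left _ (by positivity)
              linarith
            · positivity
            · positivity
        _ = 36400 * g * C' * (100 * (σ * μ)) ^ r := by
            push_cast
            rw [mul_pow, mul_pow]
            ring
        _ ≤ 40000 * g * C' * (100 * θ') ^ r := by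
            apply mul_le_mul
            · have : (0 : ℝ) ≤ g * C' := by positivity
              nlinarith
            · apply pow_le_pow_left₀ (by positivity)
              have : σ * μ ≤ σ * μ0 := mul_le_mul_of_nonneg_left hμle hσ0.le
              linarith
            · positivity
            · positivity
    -- second part
    have h6 : (1 / l ^ (3 * (2 * g))) * ∑ q ∈ SQ r, ∑ a ∈ AA q,
        GF3 κ T (Icc 1 ((2 * g) * L)) ((a : ℝ) / q) ^ 4 ≤
        640000 * C' * (1000 / 97) ^ (2 * g) * (100 * θ') ^ r := by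
      have e1 : l ^ (3 * (2 * g)) = ((97 / 100 : ℝ) ^ 3) ^ ((2 * g) * L) := by
        rw [hl, ← pow_mul, ← pow_mul]
        congr 1
        ring
      have e2 : (1 / l ^ (3 * (2 * g))) * (640000 * D * 10 ^ (2 * r + ℓ) *
          (71346 / 810000) ^ ((2 * g) * L)) = 640000 * D * 10 ^ (2 * r + ℓ) *
          ((71346 / 810000) / (97 / 100) ^ 3) ^ ((2 * g) * L) := by
        rw [e1, div_pow (71346 / 810000 : ℝ)]
        ring
      have e3 : ((71346 / 810000 : ℝ) / (97 / 100) ^ 3) ^ ((2 * g) * L) ≤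
          (97 / 1000) ^ ℓ * (1000 / 97) ^ (2 * g) := by
        calc ((71346 / 810000 : ℝ) / (97 / 100) ^ 3) ^ ((2 * g) * L) ≤ (97 / 1000) ^ ((2 * g) * L) := by
              apply pow_le_pow_left₀ (by norm_num)
              norm_num
          _ = ((97 / 1000) ^ ((2 * g) * L) * (97 / 1000) ^ (2 * g)) * (1000 / 97) ^ (2 * g) := by
              have hone : (97 / 1000 : ℝ) ^ (2 * g) * (1000 / 97) ^ (2 * g) = 1 := by
                rw [← mul_pow]
                norm_num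
              rw [mul_assoc ((97 / 1000 : ℝ) ^ ((2 * g) * L)), hone, mul_one]
          _ ≤ (97 / 1000) ^ ℓ * (1000 / 97) ^ (2 * g) := by
              apply mul_le_mul_of_nonneg_right _ (by positivity)
              rw [← pow_add]
              exact pow_le_pow_of_le_one (by norm_num) (by norm_num) hGL2.le
      calc (1 / l ^ (3 * (2 * g))) * ∑ q ∈ SQ r, ∑ a ∈ AA q,
            GF3 κ T (Icc 1 ((2 * g) * L)) ((a : ℝ) / q) ^ 4
          ≤ (1 / l ^ (3 * (2 * g))) * (640000 * D * 10 ^ (2 * r + ℓ) *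
          (71346 / 810000) ^ ((2 * g) * L)) := mul_le_mul_of_nonneg_left h3 (by positivity)
        _ = 640000 * D * 10 ^ (2 * r + ℓ) *
          ((71346 / 810000) / (97 / 100) ^ 3) ^ ((2 * g) * L) := e2
        _ ≤ 640000 * (C' * (101 / 100) ^ r) * 10 ^ (2 * r + ℓ) *
            ((97 / 1000) ^ ℓ * (1000 / 97) ^ (2 * g)) := by
            apply mul_le_mul _ e3 (by positivity) (by positivity)
            apply mul_le_mul_of_nonneg_right _ (by positivity)
            apply mul_le_mul_of_nonneg_left _ (by norm_num)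
            refine hDle.trans ?_
            apply mul_le_mul_of_nonneg_left _ (by linarith)
            exact pow_le_pow_left₀ (by linarith) hμle2 r
        _ = 640000 * C' * (1000 / 97) ^ (2 * g) * ((101 / 100) ^ r * 100 ^ r * (97 / 100) ^ ℓ) := by
            have e4 : (10 : ℝ) ^ (2 * r + ℓ) = 100 ^ r * 10 ^ ℓ := by
              rw [pow_add, pow_mul]
              norm_num
            have e5 : (10 : ℝ) ^ ℓ * (97 / 1000) ^ ℓ = (97 / 100) ^ ℓ := by
              rw [← mul_pow]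
              norm_num
            rw [e4, ← e5]
            ring
        _ ≤ 640000 * C' * (1000 / 97) ^ (2 * g) * ((101 / 100) ^ r * 100 ^ r * (97 / 100) ^ r) := by
            apply mul_le_mul_of_nonneg_left _ (by positivity)
            apply mul_le_mul_of_nonneg_left _ (by positivity)
            exact pow_le_pow_of_le_one (by norm_num) (by norm_num) hrℓ
        _ ≤ 640000 * C' * (1000 / 97) ^ (2 * g) * (100 * θ') ^ r := by
            apply mul_le_mul_of_nonneg_left _ (by positivity)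
            rw [← mul_pow, ← mul_pow]
            apply pow_le_pow_left₀ (by norm_num)
            linarith
    have h7 : 0 ≤ C2 * (100 * θ') ^ r := by positivity
    calc ∑ q ∈ SQ r, ∑ a ∈ AA q, GF3 κ T (Icc 1 T) ((a : ℝ) / q)
        ≤ 40000 * g * C' * (100 * θ') ^ r + 640000 * C' * (1000 / 97) ^ (2 * g) * (100 * θ') ^ r :=
          h4.trans (add_le_add h5 h6)
      _ = C1 * (100 * θ') ^ r := by rw [hC1]; ring
      _ ≤ (C1 + C2) * (100 * θ') ^ r := by rw [add_mul]; linarith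

end Pool.Agent.Helper10.P3
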