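import Pool.Agent.Helper10.P3.Num3d
import Pool.Agent.Helper10.P3.Err3
import Pool.Agent.Helper10.P3.Sq3
import Pool.Agent.Helper10.P3.Comb3

/-! The final count. -/

namespace Pool.Agent.Helper10.P3

open Finset Filter Pool.Agent.Helper10 Pool.Agent.Helper10.P5 Pool.Agent.Helper10.P4

/-- the palindrome attached to a member -/
abbrev FF3 (n : ℕ) (e : (Fin (n - 1) → ℕ) × (Fin (n - 1) → ℕ)) : ℕ :=
  NN 10 (n - 1) (10 ^ (2 * n) + 1) e

/-- the remainder -/
noncomputable def rr3 (n q : ℕ) : ℝ :=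
  |(cnt3 10 (n - 1) (10 ^ (2 * n) + 1) q : ℝ) - 30 ^ (n - 1) / q|

lemma errTot_rr3 (n Q : ℕ) : errTot (rr3 n) Q = errSum3 10 (n - 1) (10 ^ (2 * n) + 1) Q := rfl

/-- the level -/
def Jn (n : ℕ) : ℕ := 48000 * (n - 1) / 65065

/-- the logarithm of the level -/
noncomputable def ln3 (n : ℕ) : ℝ := Jn n * Real.log 10 - Real.log 2

lemma Jn_bounds (n : ℕ) : 65065 * Jn n ≤ 48000 * (n - 1) ∧ 48000 * (n - 1) < 65065 * Jn n + 65065 := by
  unfold Jn
  have h1 := Nat.div_mul_le_self (48000 * (n - 1)) 65065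
  have h2 := Nat.lt_div_mul_add (a := 48000 * (n - 1)) (b := 65065) (by norm_num)
  constructor
  · linarith
  · linarith

lemma Jn_level (n : ℕ) : 65 * Jn n + 65 * (Jn n / 1000) ≤ 48 * (n - 1) := by
  have h := (Jn_bounds n).1
  omega

lemma log10_le : Real.log 10 ≤ 2.3105 := by
  have h1 : Real.log ((10 : ℝ) ^ 3) ≤ Real.log ((2 : ℝ) ^ 10) := by
    apply Real.log_le_log (by norm_num)
    norm_num
  rw [Real.log_pow, Real.log_pow] at h1
  have h2 := Real.log_two_lt_d9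
  push_cast at h1
  linarith

lemma log10_ge : 3 * Real.log 2 ≤ Real.log 10 := by
  have h1 : Real.log ((2 : ℝ) ^ 3) ≤ Real.log 10 := by
    apply Real.log_le_log (by norm_num)
    norm_num
  rw [Real.log_pow] at h1
  push_cast at h1
  exact h1

lemma log2_pos : 0 < Real.log 2 := Real.log_pos (by norm_num)

lemma two_exp (n : ℕ) : 2 * Real.exp (ln3 n) = 10 ^ Jn n := by
  unfold ln3
  rw [Real.exp_sub, Real.exp_log (by norm_num), mul_comm (Jn n : ℝ), Real.exp_mul,
    Real.exp_log (by norm_num), Real.rpow_natCast]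
  ring

/-- real form of the bounds -/
lemma Jn_real (n : ℕ) (hn : 1 ≤ n) : 65065 * (Jn n : ℝ) ≤ 48000 * ((n : ℝ) - 1) ∧
    48000 * ((n : ℝ) - 1) ≤ 65065 * (Jn n : ℝ) + 65065 := by
  have h := Jn_bounds n
  have e : ((n - 1 : ℕ) : ℝ) = (n : ℝ) - 1 := by
    rw [Nat.cast_sub hn]
    norm_num
  constructor
  · rw [← e]
    exact_mod_cast h.1
  · rw [← e]
    exact_mod_cast h.2.le

lemma ln3_le (n : ℕ) (hn : 1 ≤ n) : ln3 n ≤ 2 * ((n : ℝ) - 1) := by
  unfold ln3
  have h1 := (Jn_real n hn).1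
  have h2 := log10_le
  have h3 := log2_pos
  have h4 : (0 : ℝ) ≤ Jn n := Nat.cast_nonneg _
  nlinarith

lemma ln3_ge (n : ℕ) (_hn : 1 ≤ n) : (Jn n - 1 / 3) * Real.log 10 ≤ ln3 n := by
  unfold ln3
  have h1 := log10_ge
  linarith

/-- members of the family with at most three prime factors, all of them large -/
noncomputable def good3 (n : ℕ) : Finset ((Fin (n - 1) → ℕ) × (Fin (n - 1) → ℕ)) :=
  (sift (EE (n - 1)) (FF3 n) (zf (25 / 137 * ln3 n))).filter
    (fun e => (FF3 n e).primeFactorsList.length ≤ 3)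

open Classical in
/-- members divisible by a large square -/
noncomputable def bad3 (n : ℕ) : Finset ((Fin (n - 1) → ℕ) × (Fin (n - 1) → ℕ)) :=
  (EE (n - 1)).filter (fun e => ∃ p : ℕ, p.Prime ∧ p.Coprime 10 ∧
        10 ^ (Jn n / 6) < p ∧ p ≤ 10 ^ Jn n ∧ p ^ 2 ∣ FF3 n e)

lemma sift_sub (n : ℕ) (z : ℕ) (e : (Fin (n - 1) → ℕ) × (Fin (n - 1) → ℕ))
    (he : e ∈ sift (EE (n - 1)) (FF3 n) z) : e ∈ EE (n - 1) := by
  unfold sift at he
  exact (Finset.mem_filter.mp he).1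

lemma sift_gt (n : ℕ) (hn : 1 ≤ n) (x : ℝ) (e : (Fin (n - 1) → ℕ) × (Fin (n - 1) → ℕ))
    (he : e ∈ sift (EE (n - 1)) (FF3 n) (zf x)) (p : ℕ) (hp : p.Prime) (hpN : p ∣ FF3 n e) :
    p.Coprime 10 ∧ x < Real.log p := by
  have h10 : p.Coprime 10 := by
    apply Nat.Coprime.coprime_dvd_left hpN
    show (NN 10 (n - 1) (10 ^ (2 * n) + 1) e).Coprime 10
    rw [NN_eq]
    exact Npal_coprime n hn _
  refine ⟨h10, ?_⟩
  by_contra hcon
  push Not at hcon
  unfold sift at he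
  rw [Finset.mem_filter] at he
  exact he.2 p ((mem_PP_zf x p).mpr ⟨⟨hp, h10⟩, hcon⟩) hpN

lemma FF3_pos (n : ℕ) (e : (Fin (n - 1) → ℕ) × (Fin (n - 1) → ℕ)) : 0 < FF3 n e := by
  show 0 < NN 10 (n - 1) (10 ^ (2 * n) + 1) e
  rw [NN_eq]
  exact Npal_pos n _

lemma FF3_log (n : ℕ) (hn : 1 ≤ n) (e : (Fin (n - 1) → ℕ) × (Fin (n - 1) → ℕ)) (he : e ∈ EE (n - 1)) :
    Real.log (FF3 n e) ≤ (2 * n + 2) * Real.log 10 := by
  have h5 : Real.log ((10 : ℝ) ^ (2 * n + 2)) = (2 * n + 2) * Real.log 10 := by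
    rw [Real.log_pow]
    push_cast
    ring
  rw [← h5]
  apply Real.log_le_log (by exact_mod_cast FF3_pos n e)
  have h6 := Npal_lt n hn (sv e) (sv_mem _ e he)
  rw [← NN_eq] at h6
  exact_mod_cast h6.le

/-- the weight of a sifted member -/
lemma weight3 (n : ℕ) (hn : 20000 ≤ n) (e : (Fin (n - 1) → ℕ) × (Fin (n - 1) → ℕ))
    (he : e ∈ sift (EE (n - 1)) (FF3 n) (zf (25 / 137 * ln3 n))) (hb : e ∉ bad3 n)
    (h4 : 4 ≤ (FF3 n e).primeFactorsList.length) :
    1 - 0.803 * ∑ p ∈ (PC (25 / 137 * ln3 n) (1349 / 1370 * ln3 n)).filter (fun p => p ∣ FF3 n e),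
          (1 - Real.log p / (1349 / 1370 * ln3 n)) ≤ 0 := by
  classical
  have hn1 : 1 ≤ n := by omega
  have hnR : (20000 : ℝ) ≤ n := by exact_mod_cast hn
  have hJ := Jn_real n hn1
  have hlg := ln3_ge n hn1
  have hl10 := log10_ge
  have hl2 := log2_pos
  have hl0 : 0 < Real.log 10 := by linarith
  have hJ1 : (10 : ℝ) ≤ Jn n := by linarith
  have hlam0 : 0 < ln3 n := by
    have : 0 < ((Jn n : ℝ) - 1 / 3) * Real.log 10 := mul_pos (by linarith) hl0
    linarith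
  have hY : 0 < 1349 / 1370 * ln3 n := by positivity
  have heE := sift_sub n _ e he
  have hlamJ : ln3 n ≤ Jn n * Real.log 10 := by
    unfold ln3
    linarith
  have h1 := comb3 (FF3 n e) (1349 / 1370 * ln3 n) (FF3_pos n e).ne' hY (by
    intro p hp hpy hsq
    apply hb
    unfold bad3
    rw [Finset.mem_filter]
    have h2 := sift_gt n hn1 _ e he p hp ((dvd_pow_self p (by norm_num)).trans hsq)
    have hp0 : (0 : ℝ) < p := by exact_mod_cast hp.pos
    refine ⟨heE, p, hp, h2.1, ?_, ?_, hsq⟩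
    · have h3 : Real.log ((10 : ℝ) ^ (Jn n / 6)) < Real.log p := by
        rw [Real.log_pow]
        refine lt_of_le_of_lt ?_ h2.2
        have h4 : ((Jn n / 6 : ℕ) : ℝ) ≤ (Jn n : ℝ) / 6 := Nat.cast_div_le
        have h5 : ((Jn n / 6 : ℕ) : ℝ) * Real.log 10 ≤ (Jn n : ℝ) / 6 * Real.log 10 :=
          mul_le_mul_of_nonneg_right h4 hl0.le
        have h6 : (Jn n : ℝ) / 6 * Real.log 10 ≤ 25 / 137 * (((Jn n : ℝ) - 1 / 3) * Real.log 10) := by
          nlinarith
        linarith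
      have h5 := (Real.log_lt_log_iff (by positivity) hp0).mp h3
      exact_mod_cast h5
    · have h3 : Real.log p ≤ Real.log ((10 : ℝ) ^ (Jn n)) := by
        rw [Real.log_pow]
        linarith
      have h5 := (Real.log_le_log_iff hp0 (by positivity)).mp h3
      exact_mod_cast h5)
  have h3 : Real.log (FF3 n e) / (1349 / 1370 * ln3 n) ≤ 2.7546 := by
    rw [div_le_iff₀ hY]
    refine (FF3_log n hn1 e heE).trans ?_
    have h5 : (2 * (n : ℝ) + 2) ≤ 2.7546 * (1349 / 1370) * ((Jn n : ℝ) - 1 / 3) := by linarith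
    calc (2 * (n : ℝ) + 2) * Real.log 10
        ≤ (2.7546 * (1349 / 1370) * ((Jn n : ℝ) - 1 / 3)) * Real.log 10 :=
          mul_le_mul_of_nonneg_right h5 hl0.le
      _ = 2.7546 * (1349 / 1370) * (((Jn n : ℝ) - 1 / 3) * Real.log 10) := by ring
      _ ≤ 2.7546 * (1349 / 1370) * ln3 n := mul_le_mul_of_nonneg_left hlg (by norm_num)
      _ = _ := by ring
  have h4R : (4 : ℝ) ≤ (FF3 n e).primeFactorsList.length := by exact_mod_cast h4
  have h5 : ∑ p ∈ (FF3 n e).primeFactors.filter (fun p : ℕ => Real.log (p : ℝ) ≤ 1349 / 1370 * ln3 n),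
      (1 - Real.log p / (1349 / 1370 * ln3 n)) ≤
      ∑ p ∈ (PC (25 / 137 * ln3 n) (1349 / 1370 * ln3 n)).filter (fun p => p ∣ FF3 n e),
          (1 - Real.log p / (1349 / 1370 * ln3 n)) := by
    apply Finset.sum_le_sum_of_subset_of_nonneg
    · intro p hp
      rw [Finset.mem_filter] at hp
      have hpp := Nat.prime_of_mem_primeFactors hp.1
      have hpd := Nat.dvd_of_mem_primeFactors hp.1
      have h9 := sift_gt n hn1 _ e he p hpp hpd
      rw [Finset.mem_filter, mem_PC]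
      exact ⟨⟨⟨hpp, h9.1⟩, h9.2, hp.2⟩, hpd⟩
    · intro p hp _
      rw [Finset.mem_filter, mem_PC] at hp
      have : Real.log p / (1349 / 1370 * ln3 n) ≤ 1 := by
        rw [div_le_one hY]
        exact hp.1.2.2
      linarith
  linarith

/-- the sieve data -/
lemma SD3 : ∃ n0 : ℕ, ∀ n : ℕ, n0 ≤ n →
    SD (ln3 n) (EE (n - 1)) (FF3 n) (30 ^ (n - 1)) (rr3 n) := by
  obtain ⟨T0, hT0⟩ := err3 1000 (by norm_num) 7
  refine ⟨T0 + 20000, fun n hn => ?_⟩
  have hn1 : 1 ≤ n := by omega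
  have hnR : (20000 : ℝ) ≤ n := by exact_mod_cast (by omega : 20000 ≤ n)
  refine ⟨by positivity, fun q => abs_nonneg _, fun q _ _ => le_refl _, ?_⟩
  intro Q hQ
  rw [two_exp] at hQ
  have hQ' : Q ≤ 10 ^ Jn n := by exact_mod_cast hQ
  rw [errTot_rr3]
  refine (hT0 (n - 1) (by omega) 10 _ Q (Jn n) (fun q hq => hq) hQ' (Jn_level n)).trans ?_
  have hJ := Jn_real n hn1
  have hlg := ln3_ge n hn1
  have hl10 := log10_ge
  have hl2 := log2_pos
  have hl0 : 0 < Real.log 10 := by linarith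
  have hlam0 : 0 < ln3 n := by
    have : 0 < ((Jn n : ℝ) - 1 / 3) * Real.log 10 := mul_pos (by linarith) hl0
    linarith
  have e : ((n - 1 : ℕ) : ℝ) = (n : ℝ) - 1 := by
    rw [Nat.cast_sub hn1]
    norm_num
  rw [e]
  apply div_le_div_of_nonneg_left (by positivity) (by positivity)
  have h1 := ln3_le n hn1
  calc ln3 n ^ 6 ≤ (2 * ((n : ℝ) - 1)) ^ 6 := pow_le_pow_left₀ hlam0.le h1 6
    _ = 64 * ((n : ℝ) - 1) ^ 6 := by ring
    _ ≤ ((n : ℝ) - 1) * ((n : ℝ) - 1) ^ 6 := by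
        apply mul_le_mul_of_nonneg_right _ (by
          have : (0 : ℝ) ≤ (n : ℝ) - 1 := by linarith
          positivity)
        linarith
    _ = ((n : ℝ) - 1) ^ 7 := by ring

lemma ln3_tendsto : Tendsto ln3 atTop atTop := by
  have h : ∀ n : ℕ, 2 ≤ n → (n : ℝ) / 10 - 10 ≤ ln3 n := by
    intro n hn
    have hn1 : 1 ≤ n := by omega
    have hJ := Jn_real n hn1
    have hlg := ln3_ge n hn1
    have hl10 := log10_ge
    have hl2 := Real.log_two_gt_d9
    have hl0 : 2 ≤ Real.log 10 := by linarith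
    have hl1 := log10_le
    have hJ0 : (0 : ℝ) ≤ Jn n := Nat.cast_nonneg _
    have hnR : (2 : ℝ) ≤ n := by exact_mod_cast hn
    nlinarith
  apply tendsto_atTop_mono' atTop (f₁ := fun n : ℕ => (n : ℝ) / 10 - 10)
  · filter_upwards [eventually_ge_atTop 2] with n hn
    exact h n hn
  · apply tendsto_atTop_add_const_right
    exact (tendsto_natCast_atTop_atTop).atTop_div_const (by norm_num)

/-- the number of good members -/
theorem good_count3 : ∃ n0 : ℕ, ∀ n : ℕ, n0 ≤ n → 20000 ≤ n ∧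
    (30 : ℝ) ^ (n - 1) * (1 / (20 * ((n : ℝ) - 1))) ≤ ((good3 n).card : ℝ) := by
  classical
  obtain ⟨n1, h1⟩ := SD3
  obtain ⟨C, θ, hC, hθ0, hθ1, hsq⟩ := sq3 1000 (by norm_num)
  obtain ⟨n2, h2⟩ := Filter.eventually_atTop.mp (ln3_tendsto.eventually Num3.abs3num)
  have hlim : Tendsto (fun u : ℕ => (u : ℝ) ^ 1 * θ ^ u) atTop (nhds 0) :=
    tendsto_pow_const_mul_const_pow_of_abs_lt_one 1 (by rw [abs_of_pos hθ0]; exact hθ1)
  obtain ⟨u0, hu0⟩ := Filter.eventually_atTop.mp (hlim.eventually (gt_mem_nhds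
    (show (0 : ℝ) < 1 / (4000 * C) by positivity)))
  refine ⟨n1 + n2 + 10 * u0 + 20000, fun n hn => ⟨by omega, ?_⟩⟩
  have hn1 : 1 ≤ n := by omega
  have hnR : (20000 : ℝ) ≤ n := by exact_mod_cast (by omega : 20000 ≤ n)
  have hSD := h1 n (by omega)
  have hmain := h2 n (by omega) _ _ _ _ _ hSD
  have hJ := Jn_real n hn1
  have hlg := ln3_ge n hn1
  have hll := ln3_le n hn1
  have hl10 := log10_ge
  have hl2 := log2_pos
  have hl0 : 0 < Real.log 10 := by linarith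
  have hlam0 : 0 < ln3 n := by
    have : 0 < ((Jn n : ℝ) - 1 / 3) * Real.log 10 := mul_pos (by linarith) hl0
    linarith
  have hY : 0 < 1349 / 1370 * ln3 n := by positivity
  set S := sift (EE (n - 1)) (FF3 n) (zf (25 / 137 * ln3 n)) with hS
  set w : ((Fin (n - 1) → ℕ) × (Fin (n - 1) → ℕ)) → ℝ := fun e => 1 - 0.803 *
    ∑ p ∈ (PC (25 / 137 * ln3 n) (1349 / 1370 * ln3 n)).filter (fun p => p ∣ FF3 n e),
          (1 - Real.log p / (1349 / 1370 * ln3 n)) with hw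
  have hw1 : ∀ e, w e ≤ 1 := by
    intro e
    simp only [hw]
    have : 0 ≤ ∑ p ∈ (PC (25 / 137 * ln3 n) (1349 / 1370 * ln3 n)).filter (fun p => p ∣ FF3 n e),
          (1 - Real.log p / (1349 / 1370 * ln3 n)) := by
      apply Finset.sum_nonneg
      intro p hp
      rw [Finset.mem_filter, mem_PC] at hp
      have : Real.log p / (1349 / 1370 * ln3 n) ≤ 1 := by
        rw [div_le_one hY]
        exact hp.1.2.2
      linarith
    linarith
  have hpt : ∀ e ∈ S, w e ≤ (if (FF3 n e).primeFactorsList.length ≤ 3 then 1 else 0) +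
      (if e ∈ bad3 n then 1 else 0) := by
    intro e he
    by_cases hb : e ∈ bad3 n
    · rw [if_pos hb]
      have := hw1 e
      split_ifs <;> linarith
    · rw [if_neg hb, add_zero]
      by_cases h3 : (FF3 n e).primeFactorsList.length ≤ 3
      · rw [if_pos h3]
        exact hw1 e
      · rw [if_neg h3]
        exact weight3 n (by omega) e he hb (by omega)
  have hsum : ∑ e ∈ S, w e ≤ ((good3 n).card : ℝ) + ((bad3 n).card : ℝ) := by
    refine (Finset.sum_le_sum hpt).trans ?_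
    rw [Finset.sum_add_distrib]
    apply add_le_add
    · rw [← Finset.sum_filter, Finset.sum_const, nsmul_eq_mul, mul_one]
      exact le_refl _
    · rw [← Finset.sum_filter, Finset.sum_const, nsmul_eq_mul, mul_one]
      exact_mod_cast Finset.card_le_card (fun e he => (Finset.mem_filter.mp he).2)
  have hbad : ((bad3 n).card : ℝ) ≤ 30 ^ (n - 1) * (C * θ ^ (Jn n / 6)) := by
    apply hsq 10 (n - 1) (10 ^ (2 * n) + 1) (Jn n / 6) (Jn n) (fun q hq => hq) (Jn_level n)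
    · exact Finset.filter_subset _ _
    · intro f hf
      exact (Finset.mem_filter.mp hf).2
  -- decay of the bad part
  have hJb := Jn_bounds n
  have hu : (n - 1) / 10 ≤ Jn n / 6 := by omega
  have hθ : C * θ ^ (Jn n / 6) ≤ 1 / (160 * ((n : ℝ) - 1)) := by
    have h3 : θ ^ (Jn n / 6) ≤ θ ^ ((n - 1) / 10) := pow_le_pow_of_le_one hθ0.le hθ1.le hu
    have h4 := hu0 ((n - 1) / 10) (by omega)
    rw [pow_one] at h4
    have h5 : (n : ℝ) - 1 ≤ 20 * (((n - 1) / 10 : ℕ) : ℝ) := by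
      have h6 : n - 1 ≤ 20 * ((n - 1) / 10) := by omega
      have h7 : ((n - 1 : ℕ) : ℝ) ≤ 20 * (((n - 1) / 10 : ℕ) : ℝ) := by exact_mod_cast h6
      rw [Nat.cast_sub hn1] at h7
      push_cast at h7 ⊢
      exact h7
    have hn0 : 0 < (n : ℝ) - 1 := by linarith
    rw [le_div_iff₀ (by positivity)]
    have hpos : 0 < θ ^ ((n - 1) / 10) := by positivity
    calc C * θ ^ (Jn n / 6) * (160 * ((n : ℝ) - 1))
        ≤ C * θ ^ ((n - 1) / 10) * (160 * (20 * (((n - 1) / 10 : ℕ) : ℝ))) := by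
          apply mul_le_mul
          · exact mul_le_mul_of_nonneg_left h3 hC.le
          · linarith
          · positivity
          · positivity
      _ = 3200 * C * ((((n - 1) / 10 : ℕ) : ℝ) * θ ^ ((n - 1) / 10)) := by ring
      _ ≤ 3200 * C * (1 / (4000 * C)) := by
          apply mul_le_mul_of_nonneg_left h4.le (by positivity)
      _ ≤ 1 := by
          have : 3200 * C * (1 / (4000 * C)) = 0.8 := by
            field_simp
            norm_num
          rw [this]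
          norm_num
  have hX : (0 : ℝ) < 30 ^ (n - 1) := by positivity
  have hn0 : 0 < (n : ℝ) - 1 := by linarith
  have h6 : (30 : ℝ) ^ (n - 1) * (0.05625 / ((n : ℝ) - 1)) ≤
      30 ^ (n - 1) / (2 / 5 * ln3 n) * 0.045 := by
    have e : (30 : ℝ) ^ (n - 1) / (2 / 5 * ln3 n) * 0.045 = 30 ^ (n - 1) * (0.1125 / ln3 n) := by
      field_simp
      norm_num
    rw [e]
    apply mul_le_mul_of_nonneg_left _ hX.le
    rw [div_le_div_iff₀ hn0 hlam0]
    linarith
  have h7 : ((bad3 n).card : ℝ) ≤ 30 ^ (n - 1) * (1 / (160 * ((n : ℝ) - 1))) :=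
    hbad.trans (mul_le_mul_of_nonneg_left hθ hX.le)
  have e8 : (30 : ℝ) ^ (n - 1) * (0.05625 / ((n : ℝ) - 1)) =
      30 ^ (n - 1) * (1 / (20 * ((n : ℝ) - 1))) + 30 ^ (n - 1) * (1 / (160 * ((n : ℝ) - 1))) := by
    field_simp
    norm_num
  rw [e8] at h6
  have h9 : ∑ e ∈ S, w e = ∑ e ∈ S, (1 - 0.803 *
    ∑ p ∈ (PC (25 / 137 * ln3 n) (1349 / 1370 * ln3 n)).filter (fun p => p ∣ FF3 n e),
          (1 - Real.log p / (1349 / 1370 * ln3 n))) := rfl
  rw [← h9] at hmain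
  linarith

end Pool.Agent.Helper10.P3
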