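import Pool.Agent.Helper10.P5.Mert

/-! Sums over the primes of a logarithmic interval. -/

namespace Pool.Agent.Helper10.P3

open Finset Filter Pool.Agent.Helper10 Pool.Agent.Helper10.P5

open Classical in
/-- primes coprime to ten with `x < log p ≤ y` -/
noncomputable def PC (x y : ℝ) : Finset ℕ :=
  (Icc 1 ⌊Real.exp y⌋₊).filter (fun p => (p.Prime ∧ p.Coprime 10) ∧ x < Real.log p)

lemma le_exp_iff (p : ℕ) (hp : 1 ≤ p) (y : ℝ) : p ≤ ⌊Real.exp y⌋₊ ↔ Real.log p ≤ y := by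
  have hp0 : (0 : ℝ) < p := by exact_mod_cast hp
  rw [Nat.le_floor_iff (Real.exp_pos y).le, Real.log_le_iff_le_exp hp0]

lemma mem_PC (x y : ℝ) (p : ℕ) :
    p ∈ PC x y ↔ (p.Prime ∧ p.Coprime 10) ∧ x < Real.log p ∧ Real.log p ≤ y := by
  unfold PC
  rw [Finset.mem_filter, Finset.mem_Icc]
  constructor
  · rintro ⟨⟨h1, h2⟩, h3, h4⟩
    exact ⟨h3, h4, (le_exp_iff p h1 y).mp h2⟩
  · rintro ⟨h3, h4, h5⟩
    exact ⟨⟨h3.1.pos, (le_exp_iff p h3.1.pos y).mpr h5⟩, h3, h4⟩

lemma PC_split (x y z : ℝ) (hxy : x ≤ y) (hyz : y ≤ z) (f : ℕ → ℝ) :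
    ∑ p ∈ PC x z, f p = ∑ p ∈ PC x y, f p + ∑ p ∈ PC y z, f p := by
  classical
  rw [← Finset.sum_union]
  · congr 1
    ext p
    rw [Finset.mem_union, mem_PC, mem_PC, mem_PC]
    constructor
    · rintro ⟨h1, h2, h3⟩
      rcases le_or_gt (Real.log p) y with h | h
      · exact Or.inl ⟨h1, h2, h⟩
      · exact Or.inr ⟨h1, h, h3⟩
    · rintro (⟨h1, h2, h3⟩ | ⟨h1, h2, h3⟩)
      · exact ⟨h1, h2, by linarith⟩
      · exact ⟨h1, by linarith, h3⟩
  · rw [Finset.disjoint_left]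
    intro p hp hp'
    rw [mem_PC] at hp hp'
    linarith [hp.2.2, hp'.2.1]

lemma PC_self (x : ℝ) : PC x x = ∅ := by
  ext p
  rw [mem_PC]
  constructor
  · rintro ⟨_, h1, h2⟩
    linarith
  · intro h
    simp at h

lemma PC_telescope (u : ℕ → ℝ) (hu : Monotone u) (n : ℕ) (f : ℕ → ℝ) :
    ∑ p ∈ PC (u 0) (u n), f p = ∑ j ∈ range n, ∑ p ∈ PC (u j) (u (j + 1)), f p := by
  induction n with
  | zero => simp [PC_self]
  | succ n ih =>
    rw [Finset.sum_range_succ, ← ih, ← PC_split]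
    · exact hu (Nat.zero_le n)
    · exact hu (Nat.le_succ n)

/-- floor of the exponential -/
lemma log_floor_exp (y : ℝ) (hy : 0 ≤ y) : 1 ≤ ⌊Real.exp y⌋₊ ∧ y - Real.log 2 ≤ Real.log ⌊Real.exp y⌋₊ ∧
    Real.log ⌊Real.exp y⌋₊ ≤ y := by
  have h1 : (1 : ℝ) ≤ Real.exp y := Real.one_le_exp hy
  have h2 : 1 ≤ ⌊Real.exp y⌋₊ := (Nat.one_le_floor_iff _).mpr h1
  have h2R : (1 : ℝ) ≤ (⌊Real.exp y⌋₊ : ℝ) := by exact_mod_cast h2
  refine ⟨h2, ?_, (le_exp_iff _ h2 y).mp (le_refl _)⟩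
  have h3 : Real.exp y < (⌊Real.exp y⌋₊ : ℝ) + 1 := Nat.lt_floor_add_one _
  have h4 : Real.exp y ≤ 2 * (⌊Real.exp y⌋₊ : ℝ) := by linarith
  have h5 := Real.log_le_log (Real.exp_pos y) h4
  rw [Real.log_exp, Real.log_mul (by norm_num) (by linarith)] at h5
  linarith

/-- the difference between `log p / (p-1)` and `log p / p` is summable -/
lemma corr_small : ∃ S : ℝ, 0 ≤ S ∧ ∀ A : Finset ℕ, (∀ p ∈ A, p.Prime) →
    ∑ p ∈ A, (Real.log p / ((p : ℝ) - 1) - Real.log p / p) ≤ S := by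
  have hsummable : Summable (fun n : ℕ => 1 / (n : ℝ) ^ (3 / 2 : ℝ)) :=
    Real.summable_one_div_nat_rpow.mpr (by norm_num)
  set S := ∑' n : ℕ, 1 / (n : ℝ) ^ (3 / 2 : ℝ) with hS
  have hS0 : 0 ≤ S := tsum_nonneg fun n => by positivity
  refine ⟨4 * S, by positivity, ?_⟩
  intro A hA
  have h3 : ∑ p ∈ A, 1 / (p : ℝ) ^ (3 / 2 : ℝ) ≤ S :=
    hsummable.sum_le_tsum _ (fun _ _ => by positivity)
  calc ∑ p ∈ A, (Real.log p / ((p : ℝ) - 1) - Real.log p / p) ≤
        ∑ p ∈ A, 4 * (1 / (p : ℝ) ^ (3 / 2 : ℝ)) := by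
        apply Finset.sum_le_sum
        intro p hp
        have hp2 := (hA p hp).two_le
        have hpR : (2 : ℝ) ≤ p := by exact_mod_cast hp2
        have hp0 : (0 : ℝ) < p := by linarith
        have hlog0 : 0 ≤ Real.log p := Real.log_nonneg (by linarith)
        have hlog : Real.log p ≤ 2 * (p : ℝ) ^ (1 / 2 : ℝ) := by
          have := Real.log_le_rpow_div hp0.le (show (0 : ℝ) < 1 / 2 by norm_num)
          linarith
        have e1 : Real.log p / ((p : ℝ) - 1) - Real.log p / p = 1 / (p * (p - 1)) * Real.log p := by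
          have : (p : ℝ) - 1 ≠ 0 := by linarith
          field_simp
          ring
        have e2 : (1 : ℝ) / (p * (p - 1)) ≤ 2 / (p : ℝ) ^ 2 := by
          rw [div_le_div_iff₀ (by nlinarith) (by positivity)]
          nlinarith
        have e3 : 2 / (p : ℝ) ^ 2 * Real.log p ≤ 4 * (1 / (p : ℝ) ^ (3 / 2 : ℝ)) := by
          calc 2 / (p : ℝ) ^ 2 * Real.log p ≤ 2 / (p : ℝ) ^ 2 * (2 * (p : ℝ) ^ (1 / 2 : ℝ)) :=
                mul_le_mul_of_nonneg_left hlog (by positivity)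
            _ = 4 * (1 / (p : ℝ) ^ (3 / 2 : ℝ)) := by
                have : (p : ℝ) ^ (1 / 2 : ℝ) / (p : ℝ) ^ 2 = 1 / (p : ℝ) ^ (3 / 2 : ℝ) := by
                  rw [← Real.rpow_natCast, ← Real.rpow_sub hp0]
                  have e5 : (1 : ℝ) / (p : ℝ) ^ (3 / 2 : ℝ) = (p : ℝ) ^ (-(3 / 2) : ℝ) := by
                    rw [Real.rpow_neg hp0.le, one_div]
                  rw [e5]
                  norm_num
                rw [← this]
                ring
        rw [e1]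
        exact (mul_le_mul_of_nonneg_right e2 hlog0).trans e3
    _ = 4 * ∑ p ∈ A, 1 / (p : ℝ) ^ (3 / 2 : ℝ) := by rw [Finset.mul_sum]
    _ ≤ 4 * S := by linarith

/-- **Mertens in logarithmic intervals.** -/
theorem M1 : ∃ C : ℝ, 0 ≤ C ∧ ∀ x y : ℝ, 0 ≤ x → x ≤ y →
    ∑ p ∈ PC x y, Real.log p / ((p : ℝ) - 1) ≤ (y - x) + C ∧
    (y - x) - C ≤ ∑ p ∈ PC x y, Real.log p / ((p : ℝ) - 1) := by
  classical
  obtain ⟨C1, hC1, hlow⟩ := mertens_lower
  obtain ⟨S, hS, hcorr⟩ := corr_small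
  have hl2 : 0 ≤ Real.log 2 := Real.log_nonneg (by norm_num)
  have hl4 : 0 ≤ Real.log 4 := Real.log_nonneg (by norm_num)
  have hl5 : 0 ≤ Real.log 5 := Real.log_nonneg (by norm_num)
  refine ⟨C1 + Real.log 2 + Real.log 4 + S + Real.log 2 + Real.log 5, by positivity, ?_⟩
  intro x y hx hxy
  have hy : 0 ≤ y := hx.trans hxy
  obtain ⟨hnx1, hnx2, hnx3⟩ := log_floor_exp x hx
  obtain ⟨hny1, hny2, hny3⟩ := log_floor_exp y hy
  set nx := ⌊Real.exp x⌋₊ with hnx
  set ny := ⌊Real.exp y⌋₊ with hny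
  have hxx := hlow nx hnx1
  have hyy := hlow ny hny1
  have hxu : ∑ p ∈ PL nx, Real.log p / p ≤ Real.log nx + Real.log 4 := mertens_upper nx hnx1
  have hyu : ∑ p ∈ PL ny, Real.log p / p ≤ Real.log ny + Real.log 4 := mertens_upper ny hny1
  have hnxy : nx ≤ ny := Nat.floor_le_floor (Real.exp_le_exp.mpr hxy)
  have hsub : PL nx ⊆ PL ny := by
    intro p hp
    rw [mem_PL] at hp ⊢
    exact ⟨hp.1.trans hnxy, hp.2⟩
  have hdiff : ∑ p ∈ PL ny \ PL nx, Real.log p / (p : ℝ) =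
      ∑ p ∈ PL ny, Real.log p / (p : ℝ) - ∑ p ∈ PL nx, Real.log p / (p : ℝ) := by
    rw [eq_sub_iff_add_eq]
    exact Finset.sum_sdiff hsub
  -- relation with PC
  have hPC : PC x y ⊆ PL ny \ PL nx := by
    intro p hp
    rw [mem_PC] at hp
    rw [Finset.mem_sdiff, mem_PL, mem_PL]
    refine ⟨⟨(le_exp_iff p hp.1.1.pos y).mpr hp.2.2, hp.1.1⟩, ?_⟩
    rintro ⟨h1, _⟩
    have := (le_exp_iff p hp.1.1.pos x).mp h1
    linarith [hp.2.1]
  have hrest : PL ny \ PL nx ⊆ PC x y ∪ {2, 5} := by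
    intro p hp
    rw [Finset.mem_sdiff, mem_PL, mem_PL] at hp
    rw [Finset.mem_union, mem_PC]
    by_cases h10 : p.Coprime 10
    · left
      refine ⟨⟨hp.1.2, h10⟩, ?_, (le_exp_iff p hp.1.2.pos y).mp hp.1.1⟩
      by_contra hcon
      push Not at hcon
      exact hp.2 ⟨(le_exp_iff p hp.1.2.pos x).mpr hcon, hp.1.2⟩
    · right
      have h2 : p ∣ 10 := by
        by_contra h3
        exact h10 ((Nat.Prime.coprime_iff_not_dvd hp.1.2).mpr h3)
      have h4 : p ∈ Nat.primeFactors 10 := Nat.mem_primeFactors.mpr ⟨hp.1.2, h2, by norm_num⟩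
      have h5 : Nat.primeFactors 10 = {2, 5} := by decide +kernel
      rw [h5] at h4
      exact h4
  have hterm0 : ∀ p : ℕ, 0 ≤ Real.log p / (p : ℝ) := by
    intro p
    have := Real.log_natCast_nonneg p
    positivity
  have hprime : ∀ p ∈ PC x y, p.Prime := fun p hp => ((mem_PC x y p).mp hp).1.1
  have hc := hcorr (PC x y) hprime
  rw [Finset.sum_sub_distrib] at hc
  have hle1 : ∑ p ∈ PC x y, Real.log p / (p : ℝ) ≤ ∑ p ∈ PL ny \ PL nx, Real.log p / (p : ℝ) :=
    Finset.sum_le_sum_of_subset_of_nonneg hPC (fun p _ _ => hterm0 p)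
  have hle2 : ∑ p ∈ PL ny \ PL nx, Real.log p / (p : ℝ) ≤
      ∑ p ∈ PC x y, Real.log p / (p : ℝ) + (Real.log 2 + Real.log 5) := by
    refine (Finset.sum_le_sum_of_subset_of_nonneg hrest (fun p _ _ => hterm0 p)).trans ?_
    have h1 := Finset.sum_union_inter (s₁ := PC x y) (s₂ := {2, 5})
      (f := fun p : ℕ => Real.log p / (p : ℝ))
    have h2 : 0 ≤ ∑ p ∈ PC x y ∩ {2, 5}, Real.log p / (p : ℝ) :=
      Finset.sum_nonneg fun p _ => hterm0 p
    have h3 : ∑ p ∈ ({2, 5} : Finset ℕ), Real.log p / (p : ℝ) = Real.log 2 / 2 + Real.log 5 / 5 := by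
      rw [Finset.sum_pair (by norm_num)]
      norm_num
    linarith
  have hge : ∑ p ∈ PC x y, Real.log p / (p : ℝ) ≤ ∑ p ∈ PC x y, Real.log p / ((p : ℝ) - 1) := by
    apply Finset.sum_le_sum
    intro p hp
    have hp2 := (hprime p hp).two_le
    have hpR : (2 : ℝ) ≤ p := by exact_mod_cast hp2
    exact div_le_div_of_nonneg_left (Real.log_natCast_nonneg p) (by linarith) (by linarith)
  constructor
  · linarith
  · linarith

/-- one cell: reciprocals of primes -/
lemma cell_recip (C : ℝ) (hM : ∀ x y : ℝ, 0 ≤ x → x ≤ y →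
    ∑ p ∈ PC x y, Real.log p / ((p : ℝ) - 1) ≤ (y - x) + C ∧
    (y - x) - C ≤ ∑ p ∈ PC x y, Real.log p / ((p : ℝ) - 1)) (x y : ℝ) (hx : 0 < x) (hxy : x ≤ y) :
    ∑ p ∈ PC x y, 1 / ((p : ℝ) - 1) ≤ ((y - x) + C) / x ∧
      ((y - x) - C) / y ≤ ∑ p ∈ PC x y, 1 / ((p : ℝ) - 1) := by
  obtain ⟨h1, h2⟩ := hM x y hx.le hxy
  have hy : 0 < y := lt_of_lt_of_le hx hxy
  have hp1 : ∀ p ∈ PC x y, 0 < (p : ℝ) - 1 := by
    intro p hp
    have := ((mem_PC x y p).mp hp).1.1.one_lt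
    have : (1 : ℝ) < p := by exact_mod_cast this
    linarith
  constructor
  · rw [le_div_iff₀ hx, Finset.sum_mul]
    refine le_trans ?_ h1
    apply Finset.sum_le_sum
    intro p hp
    have h3 := hp1 p hp
    have h4 := ((mem_PC x y p).mp hp).2.1
    rw [one_div_mul_eq_div]
    exact div_le_div_of_nonneg_right h4.le h3.le
  · rw [div_le_iff₀ hy, Finset.sum_mul]
    refine h2.trans ?_
    apply Finset.sum_le_sum
    intro p hp
    have h3 := hp1 p hp
    have h4 := ((mem_PC x y p).mp hp).2.2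
    rw [one_div_mul_eq_div]
    exact div_le_div_of_nonneg_right h4 h3.le

lemma exp_bounds (t : ℝ) (h0 : 0 ≤ t) (h1 : t ≤ 1 / 2) :
    Real.exp t - 1 ≤ t + 2 * t ^ 2 ∧ t - t ^ 2 ≤ 1 - Real.exp (-t) := by
  have h2 : 1 - t ≤ Real.exp (-t) := by
    have := Real.add_one_le_exp (-t)
    linarith
  have h3 : 1 + t ≤ Real.exp t := by
    have := Real.add_one_le_exp t
    linarith
  have h4 : Real.exp t * Real.exp (-t) = 1 := by rw [← Real.exp_add, add_neg_cancel, Real.exp_zero]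
  have h5 := Real.exp_pos t
  have h6 := Real.exp_pos (-t)
  constructor
  · have h7 : Real.exp t * (1 - t) ≤ 1 := by
      calc Real.exp t * (1 - t) ≤ Real.exp t * Real.exp (-t) := mul_le_mul_of_nonneg_left h2 h5.le
        _ = 1 := h4
    nlinarith
  · have h7 : (1 + t) * Real.exp (-t) ≤ 1 := by
      calc (1 + t) * Real.exp (-t) ≤ Real.exp t * Real.exp (-t) :=
            mul_le_mul_of_nonneg_right h3 h6.le
        _ = 1 := h4
    nlinarith

/-- **Reciprocals of primes in logarithmic intervals.** -/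
theorem M2 (a b : ℝ) (ha : 0 < a) (hab : a ≤ b) (ε : ℝ) (hε : 0 < ε) : ∀ᶠ lam : ℝ in atTop,
    ∑ p ∈ PC (a * lam) (b * lam), 1 / ((p : ℝ) - 1) ≤ Real.log (b / a) + ε ∧
    Real.log (b / a) - ε ≤ ∑ p ∈ PC (a * lam) (b * lam), 1 / ((p : ℝ) - 1) := by
  obtain ⟨C, hC, hM⟩ := M1
  have hb : 0 < b := lt_of_lt_of_le ha hab
  set h : ℝ := Real.log (b / a) with hh
  have hh0 : 0 ≤ h := Real.log_nonneg ((one_le_div ha).mpr hab)
  obtain ⟨n, hn⟩ := exists_nat_gt (max (4 * h ^ 2 / ε) (2 * h))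
  have hn1 : 4 * h ^ 2 / ε < n := lt_of_le_of_lt (le_max_left _ _) hn
  have hn2 : 2 * h < n := lt_of_le_of_lt (le_max_right _ _) hn
  have hn0 : (0 : ℝ) < n := by linarith
  set t : ℝ := h / n with ht
  have ht0 : 0 ≤ t := by positivity
  have ht1 : t ≤ 1 / 2 := by
    rw [ht, div_le_iff₀ hn0]
    linarith
  have hnt : n * t = h := by rw [ht]; field_simp
  have hnt2 : n * (2 * t ^ 2) ≤ ε / 2 := by
    have e1 : n * (2 * t ^ 2) = 2 * h ^ 2 / n := by rw [ht]; field_simp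
    rw [e1, div_le_iff₀ hn0]
    rw [div_lt_iff₀ hε] at hn1
    linarith
  obtain ⟨hρ1, hρ2⟩ := exp_bounds t ht0 ht1
  set ρ := Real.exp t with hρ
  have hρ0 : 0 < ρ := Real.exp_pos t
  have hρge : 1 ≤ ρ := Real.one_le_exp ht0
  have hρinv : Real.exp (-t) = 1 / ρ := by rw [hρ, Real.exp_neg, one_div]
  rw [hρinv] at hρ2
  have hρn : ρ ^ n = b / a := by
    rw [hρ, ← Real.exp_nat_mul, hnt, hh, Real.exp_log (by positivity)]
  filter_upwards [Filter.eventually_gt_atTop 0, Filter.eventually_ge_atTop (2 * n * C / (a * ε))]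
    with lam hlam0 hlam
  have hal : 0 < a * lam := mul_pos ha hlam0
  set u : ℕ → ℝ := fun j => a * lam * ρ ^ j with hu
  have humono : Monotone u := by
    intro i j hij
    simp only [hu]
    apply mul_le_mul_of_nonneg_left _ hal.le
    exact pow_le_pow_right₀ hρge hij
  have hu0 : u 0 = a * lam := by simp [hu]
  have hun : u n = b * lam := by
    simp only [hu]
    rw [hρn]
    field_simp
  have htel := PC_telescope u humono n (fun p => 1 / ((p : ℝ) - 1))
  rw [hu0, hun] at htel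
  rw [htel]
  have huge : ∀ j, a * lam ≤ u j := by
    intro j
    rw [← hu0]
    exact humono (Nat.zero_le j)
  have hus : ∀ j, u (j + 1) = u j * ρ := by
    intro j
    simp only [hu]
    ring
  have hCa : n * (C / (a * lam)) ≤ ε / 2 := by
    have e1 : 2 * n * C ≤ lam * (a * ε) := by
      rw [div_le_iff₀ (by positivity)] at hlam
      exact hlam
    rw [← mul_div_assoc, div_le_iff₀ hal]
    linarith
  constructor
  · calc ∑ j ∈ range n, ∑ p ∈ PC (u j) (u (j + 1)), 1 / ((p : ℝ) - 1)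
        ≤ ∑ j ∈ range n, ((ρ - 1) + C / (a * lam)) := by
          apply Finset.sum_le_sum
          intro j _
          have hj0 : 0 < u j := lt_of_lt_of_le hal (huge j)
          have hj1 : u j ≤ u (j + 1) := humono (Nat.le_succ j)
          refine (cell_recip C hM (u j) (u (j + 1)) hj0 hj1).1.trans ?_
          rw [hus j]
          have e1 : (u j * ρ - u j + C) / u j = (ρ - 1) + C / u j := by
            field_simp
          rw [e1]
          have := div_le_div_of_nonneg_left hC hal (huge j)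
          linarith
      _ = n * (ρ - 1) + n * (C / (a * lam)) := by
          rw [Finset.sum_const, Finset.card_range, nsmul_eq_mul]
          ring
      _ ≤ h + ε := by
          have := mul_le_mul_of_nonneg_left hρ1 hn0.le
          rw [mul_add, hnt] at this
          linarith
  · calc h - ε ≤ n * (1 - 1 / ρ) - n * (C / (a * lam)) := by
          have h8 := mul_le_mul_of_nonneg_left hρ2 hn0.le
          rw [mul_sub, hnt] at h8
          have h9 : n * t ^ 2 ≤ n * (2 * t ^ 2) := by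
            apply mul_le_mul_of_nonneg_left _ hn0.le
            nlinarith [sq_nonneg t]
          linarith
      _ = ∑ j ∈ range n, ((1 - 1 / ρ) - C / (a * lam)) := by
          rw [Finset.sum_const, Finset.card_range, nsmul_eq_mul]
          ring
      _ ≤ ∑ j ∈ range n, ∑ p ∈ PC (u j) (u (j + 1)), 1 / ((p : ℝ) - 1) := by
          apply Finset.sum_le_sum
          intro j _
          have hj0 : 0 < u j := lt_of_lt_of_le hal (huge j)
          have hj1 : u j ≤ u (j + 1) := humono (Nat.le_succ j)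
          refine le_trans ?_ (cell_recip C hM (u j) (u (j + 1)) hj0 hj1).2
          rw [hus j]
          have e1 : (u j * ρ - u j - C) / (u j * ρ) = (1 - 1 / ρ) - C / (u j * ρ) := by
            field_simp
          rw [e1]
          have h10 : a * lam ≤ u j * ρ := by
            rw [← hus j]
            exact huge (j + 1)
          have := div_le_div_of_nonneg_left hC hal h10
          linarith

end Pool.Agent.Helper10.P3
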