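import Pool.Agent.Helper10.P4.Low4
import Pool.Agent.Helper10.P4.GN
import Pool.Agent.Helper10.P3.Primes

/-! The decomposition of the sums over smooth numbers by the largest prime factor. -/

namespace Pool.Agent.Helper10.P3

open Finset Filter Pool.Agent.Helper10 Pool.Agent.Helper10.P5 Pool.Agent.Helper10.P4

lemma GS_nonneg (W z : ℕ) : 0 ≤ GS W z := by
  unfold GS
  exact Finset.sum_nonneg fun _ _ => by positivity

lemma GS_le_G5 (W z : ℕ) : GS W z ≤ G5 W := by
  unfold GS G5
  apply Finset.sum_le_sum_of_subset_of_nonneg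
  · intro k hk
    exact ((mem_DS W z k).mp hk).1
  · intro _ _ _
    positivity

lemma GS_mono (W W' z : ℕ) (h : W ≤ W') : GS W z ≤ GS W' z := by
  unfold GS
  apply Finset.sum_le_sum_of_subset_of_nonneg
  · intro k hk
    rw [mem_DS] at hk ⊢
    exact ⟨DD_mono W W' h hk.1, hk.2⟩
  · intro _ _ _
    positivity

lemma GS_eq_G5 (W z : ℕ) (h : W < z) : GS W z = G5 W := by
  unfold GS G5
  apply Finset.sum_congr _ (fun _ _ => rfl)
  ext k
  rw [mem_DS]
  constructor
  · exact fun h => h.1
  · intro hk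
    refine ⟨hk, ?_⟩
    intro p _ hpk
    have hk' := (mem_DD W k).mp hk
    have := Nat.le_of_dvd (by omega) hpk
    omega

open Classical in
/-- members with largest prime factor `p` -/
noncomputable def CP (W p : ℕ) : Finset ℕ :=
  (DD W).filter (fun k => p ∣ k ∧ ∀ q : ℕ, q.Prime → q ∣ k → q ≤ p)

lemma CP_sum (W p : ℕ) (hp : p.Prime) (hp10 : p.Coprime 10) :
    ∑ k ∈ CP W p, 1 / (Nat.totient k : ℝ) = 1 / ((p : ℝ) - 1) * GS (W / p) p := by
  classical
  have himg : CP W p = (DS (W / p) p).image (fun m => p * m) := by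
    ext k
    unfold CP
    rw [Finset.mem_filter, Finset.mem_image, mem_DD]
    constructor
    · rintro ⟨⟨⟨h1, h2⟩, h3, h4⟩, h5, h6⟩
      obtain ⟨m, rfl⟩ := h5
      refine ⟨m, ?_, rfl⟩
      have hm0 : 0 < m := Nat.pos_of_mul_pos_left (by omega : 0 < p * m)
      rw [mem_DS, mem_DD]
      refine ⟨⟨⟨hm0, ?_⟩, ?_, ?_⟩, ?_⟩
      · rw [Nat.le_div_iff_mul_le hp.pos]
        linarith [mul_comm p m]
      · exact Squarefree.of_mul_right h3
      · exact Nat.Coprime.coprime_dvd_left (Dvd.intro_left _ rfl) h4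
      · intro q hq hqm
        have h7 := h6 q hq (hqm.trans (Dvd.intro_left _ rfl))
        rcases Nat.lt_or_ge q p with h8 | h8
        · exact h8
        · exfalso
          have h9 : q = p := le_antisymm h7 h8
          subst h9
          have h10 : q * q ∣ q * m := Nat.mul_dvd_mul_left q hqm
          exact hq.one_lt.ne' (Nat.isUnit_iff.mp (h3 q h10))
    · rintro ⟨m, hm, rfl⟩
      rw [mem_DS, mem_DD] at hm
      obtain ⟨⟨⟨h1, h2⟩, h3, h4⟩, h5⟩ := hm
      have hcop : Nat.Coprime p m := by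
        rw [Nat.Prime.coprime_iff_not_dvd hp]
        intro h
        exact absurd (h5 p hp h) (lt_irrefl _)
      refine ⟨⟨⟨Nat.mul_pos hp.pos h1, ?_⟩, ?_, Nat.Coprime.mul_left hp10 h4⟩, Dvd.intro _ rfl, ?_⟩
      · rw [Nat.le_div_iff_mul_le hp.pos] at h2
        linarith [mul_comm p m]
      · rw [Nat.squarefree_mul hcop]
        exact ⟨hp.squarefree, h3⟩
      · intro q hq hqk
        rcases (Nat.Prime.dvd_mul hq).mp hqk with h6 | h6
        · exact ((Nat.prime_dvd_prime_iff_eq hq hp).mp h6).le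
        · exact (h5 q hq h6).le
  rw [himg, Finset.sum_image (fun x _ y _ h => Nat.eq_of_mul_eq_mul_left hp.pos h)]
  unfold GS
  rw [Finset.mul_sum]
  apply Finset.sum_congr rfl
  intro m hm
  rw [mem_DS, mem_DD] at hm
  have hcop : Nat.Coprime p m := by
    rw [Nat.Prime.coprime_iff_not_dvd hp]
    intro h
    exact absurd (hm.2 p hp h) (lt_irrefl _)
  rw [Nat.totient_mul hcop, Nat.totient_prime hp]
  push_cast
  rw [Nat.cast_sub hp.pos, one_div_mul_one_div]
  norm_num

open Classical in
/-- **Decomposition by the largest prime factor.** -/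
theorem GS_split (W z : ℕ) : G5 W = GS W z + ∑ p ∈ (PL W).filter (fun p => z ≤ p ∧ p.Coprime 10),
    1 / ((p : ℝ) - 1) * GS (W / p) p := by
  have h1 : G5 W = GS W z + ∑ k ∈ (DD W).filter (fun k => ¬ Smo z k), 1 / (Nat.totient k : ℝ) := by
    unfold G5 GS DS
    rw [Finset.sum_filter_add_sum_filter_not]
  rw [h1]
  congr 1
  have h2 : (DD W).filter (fun k => ¬ Smo z k) =
      ((PL W).filter (fun p => z ≤ p ∧ p.Coprime 10)).biUnion (fun p => CP W p) := by
    ext k
    rw [Finset.mem_filter, Finset.mem_biUnion]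
    constructor
    · rintro ⟨hk, hs⟩
      have hk' := (mem_DD W k).mp hk
      unfold Smo at hs
      push Not at hs
      obtain ⟨q, hq, hqk, hzq⟩ := hs
      have hne : k.primeFactors.Nonempty := ⟨q, Nat.mem_primeFactors.mpr ⟨hq, hqk, by omega⟩⟩
      obtain ⟨p, hp, hmax⟩ := Finset.exists_max_image k.primeFactors id hne
      rw [Nat.mem_primeFactors] at hp
      refine ⟨p, ?_, ?_⟩
      · rw [Finset.mem_filter, mem_PL]
        have hle := Nat.le_of_dvd (by omega) hp.2.1
        refine ⟨⟨by omega, hp.1⟩, ?_, Nat.Coprime.coprime_dvd_left hp.2.1 hk'.2.2⟩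
        have := hmax q (Nat.mem_primeFactors.mpr ⟨hq, hqk, by omega⟩)
        simp only [id] at this
        omega
      · unfold CP
        rw [Finset.mem_filter]
        refine ⟨hk, hp.2.1, ?_⟩
        intro r hr hrk
        have := hmax r (Nat.mem_primeFactors.mpr ⟨hr, hrk, by omega⟩)
        simpa using this
    · rintro ⟨p, hp, hk⟩
      rw [Finset.mem_filter, mem_PL] at hp
      unfold CP at hk
      rw [Finset.mem_filter] at hk
      refine ⟨hk.1, ?_⟩
      intro hs
      have := hs p hp.1.2 hk.2.1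
      omega
  rw [h2, Finset.sum_biUnion]
  · apply Finset.sum_congr rfl
    intro p hp
    rw [Finset.mem_filter, mem_PL] at hp
    exact CP_sum W p hp.1.2 hp.2.2
  · intro p hp q hq hpq
    rw [Function.onFun, Finset.disjoint_left]
    intro k hk hk'
    unfold CP at hk hk'
    rw [Finset.mem_filter] at hk hk'
    rw [Finset.mem_coe, Finset.mem_filter, mem_PL] at hp hq
    apply hpq
    exact le_antisymm (hk'.2.2 p hp.1.2 hk.2.1) (hk.2.2 q hq.1.2 hk'.2.1)

end Pool.Agent.Helper10.P3
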