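import Pool.Agent.Helper10.P3.GTab

/-! The recursive step for the asymptotic bounds of smooth sums. -/

namespace Pool.Agent.Helper10.P3

open Finset Filter Pool.Agent.Helper10 Pool.Agent.Helper10.P5 Pool.Agent.Helper10.P4

lemma aw_const (N i : ℕ) (V : ℕ → ℝ) : aw N (fun _ => V i) i = aw N V i := by
  unfold aw
  rfl

theorem low_step (N m : ℕ) (hN : 1 ≤ N) (U : ℕ → ℝ) (hU : ∀ i < m, UpP N (i + 1) (U i)) :
    LowP N (N + m) (((N + m : ℕ) : ℝ) / N * (1 - ∑ i ∈ range m, aw N U i)) := by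
  classical
  obtain ⟨C0, hC01, hG⟩ := G5_asymp
  intro ε hε A
  have hNR : (1 : ℝ) ≤ N := by exact_mod_cast hN
  obtain ⟨R, hR⟩ : ∃ R : ℝ, R = ((N + m : ℕ) : ℝ) / N := ⟨_, rfl⟩
  have hR1 : 1 ≤ R := by
    rw [hR, le_div_iff₀ (by linarith)]
    push_cast
    have : (0 : ℝ) ≤ m := Nat.cast_nonneg m
    linarith
  rw [← hR]
  obtain ⟨A', hA'⟩ : ∃ A', A' = max A 1 := ⟨_, rfl⟩
  have hAA' : A ≤ A' := by rw [hA']; exact le_max_left _ _
  have hA'1 : 1 ≤ A' := by rw [hA']; exact le_max_right _ _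
  have hl2 : 0 < Real.log 2 := Real.log_pos (by norm_num)
  have hm0 : (0 : ℝ) ≤ m := Nat.cast_nonneg m
  obtain ⟨ε', hε'⟩ : ∃ ε' : ℝ, ε' = ε / (2 * R * (m + 1)) := ⟨_, rfl⟩
  have hε'0 : 0 < ε' := by rw [hε']; positivity
  have hRm : R * (m * ε') ≤ ε / 2 := by
    rw [hε']
    have e1 : R * (m * (ε / (2 * R * (m + 1)))) = ε / 2 * (m / (m + 1)) := by
      field_simp
    rw [e1]
    apply mul_le_of_le_one_right (by positivity)
    rw [div_le_one (by positivity)]
    linarith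
  have hex : ∀ i, ∃ K lam0 : ℝ, i < m → 0 ≤ K ∧ ∀ W : ℕ, 1 ≤ W → lam0 ≤ Real.log W →
      ∑ p ∈ PC (xx N (Real.log W) (i + 1)) (xx N (Real.log W) i), 1 / ((p : ℝ) - 1) * GS (W / p) p ≤
        2 / 5 * Real.log W * (aw N U i + ε') + K := by
    intro i
    by_cases hi : i < m
    · obtain ⟨K, lam0, h1, h2⟩ := cell_up N i hN (U i) (hU i hi) ε' hε'0
      refine ⟨K, lam0, fun _ => ⟨h1, ?_⟩⟩
      intro W hW hlam
      have := h2 W hW hlam
      rwa [aw_const] at this
    · exact ⟨0, 0, fun h => absurd h hi⟩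
  choose K lam0 hcell using hex
  set S := ∑ i ∈ range m, aw N U i with hS
  set Kt := ∑ i ∈ range m, K i with hKt
  obtain ⟨lamt, hlamt⟩ : ∃ lamt : ℝ, lamt = ∑ i ∈ range m, |lam0 i| := ⟨_, rfl⟩
  have hlamt0 : 0 ≤ lamt := by
    rw [hlamt]
    exact Finset.sum_nonneg fun _ _ => abs_nonneg _
  have hlami : ∀ i ∈ range m, lam0 i ≤ lamt := by
    intro i hi
    rw [hlamt]
    exact (le_abs_self _).trans (Finset.single_le_sum (f := fun i => |lam0 i|)
      (fun _ _ => abs_nonneg _) hi)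
  obtain ⟨K', hK'⟩ : ∃ K' : ℝ, K' = 2 / 5 * ((A' + Real.log 2) * |1 - S - m * ε'|) + C0 + Kt := ⟨_, rfl⟩
  obtain ⟨z0, hz0⟩ := exists_log_ge (max (A' + Real.log 2 + lamt) (5 * K' / ε))
  refine ⟨z0, fun z hz W hW hlog => ?_⟩
  have hz1 := hz0 z hz
  have hz2 : A' + Real.log 2 + lamt ≤ Real.log z := le_trans (le_max_left _ _) hz1
  have hz3 : 5 * K' / ε ≤ Real.log z := le_trans (le_max_right _ _) hz1
  set l := Real.log z with hl
  have hl0 : 0 ≤ l := by linarith
  have hRl : l ≤ R * l := le_mul_of_one_le_left hl0 hR1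
  obtain ⟨y, hy⟩ : ∃ y : ℝ, y = R * l - A' := ⟨_, rfl⟩
  have hy0 : 0 ≤ y := by rw [hy]; linarith
  obtain ⟨h1, h2, h3⟩ := log_floor_exp y hy0
  set W1 := ⌊Real.exp y⌋₊ with hW1
  set lam := Real.log (W1 : ℝ) with hlam
  have hW1W : W1 ≤ W := by
    have h4 : lam ≤ Real.log W := by
      refine h3.trans (le_trans ?_ hlog)
      rw [hy, hR]
      have : ((N + m : ℕ) : ℝ) / N * l - A' ≤ ((N + m : ℕ) : ℝ) / N * l - A := by linarith
      exact this
    have h5 := (Real.log_le_log_iff (by exact_mod_cast h1) (by exact_mod_cast hW)).mp h4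
    exact_mod_cast h5
  refine le_trans ?_ (GS_mono W1 W z hW1W)
  have hsplit := GS_split W1 z
  have hGW := (hG W1 h1).1
  have hlam0 : 0 ≤ lam := Real.log_natCast_nonneg W1
  have hlamge : lamt ≤ lam := by
    rw [hy] at h2
    linarith
  have hxm : xx N lam m < l := by
    unfold xx
    rw [div_lt_iff₀ (by positivity)]
    have h6 : lam * N ≤ (R * l - A') * N := by
      apply mul_le_mul_of_nonneg_right _ (by linarith)
      rw [← hy]
      exact h3
    have h7 : R * N = N + m := by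
      rw [hR]
      push_cast
      field_simp
    nlinarith
  have hF : ∑ p ∈ (PL W1).filter (fun p => z ≤ p ∧ p.Coprime 10),
      1 / ((p : ℝ) - 1) * GS (W1 / p) p ≤
      ∑ p ∈ PC (xx N lam m) lam, 1 / ((p : ℝ) - 1) * GS (W1 / p) p := by
    apply Finset.sum_le_sum_of_subset_of_nonneg
    · intro p hp
      rw [Finset.mem_filter, mem_PL] at hp
      rw [mem_PC]
      have hp0 : (0 : ℝ) < p := by exact_mod_cast hp.1.2.pos
      refine ⟨⟨hp.1.2, hp.2.2⟩, ?_, ?_⟩
      · refine lt_of_lt_of_le hxm ?_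
        rcases Nat.eq_zero_or_pos z with hz0' | hz0'
        · rw [hl, hz0']
          simp only [Nat.cast_zero, Real.log_zero]
          exact Real.log_natCast_nonneg p
        · apply Real.log_le_log (by exact_mod_cast hz0')
          exact_mod_cast hp.2.1
      · apply Real.log_le_log hp0
        exact_mod_cast hp.1.1
    · intro p hp _
      rw [mem_PC] at hp
      have : (1 : ℝ) < p := by exact_mod_cast hp.1.1.one_lt
      have h2 : 0 < (p : ℝ) - 1 := by linarith
      have := GS_nonneg (W1 / p) p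
      positivity
  rw [cells_sum N m lam hN hlam0] at hF
  have hcells : ∑ i ∈ range m, ∑ p ∈ PC (xx N lam (i + 1)) (xx N lam i),
      1 / ((p : ℝ) - 1) * GS (W1 / p) p ≤ 2 / 5 * lam * (S + m * ε') + Kt := by
    calc ∑ i ∈ range m, ∑ p ∈ PC (xx N lam (i + 1)) (xx N lam i),
          1 / ((p : ℝ) - 1) * GS (W1 / p) p
        ≤ ∑ i ∈ range m, (2 / 5 * lam * (aw N U i + ε') + K i) := by
          apply Finset.sum_le_sum
          intro i hi
          exact (hcell i (Finset.mem_range.mp hi)).2 W1 h1 ((hlami i hi).trans hlamge)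
      _ = 2 / 5 * lam * (S + m * ε') + Kt := by
          rw [Finset.sum_add_distrib, ← Finset.mul_sum, Finset.sum_add_distrib, Finset.sum_const,
            Finset.card_range, nsmul_eq_mul]
  have hmain : 2 / 5 * lam * (1 - S - m * ε') - C0 - Kt ≤ GS W1 z := by
    have e1 : 2 / 5 * lam * (1 - S - m * ε') = 2 / 5 * lam - 2 / 5 * lam * (S + m * ε') := by ring
    rw [e1]
    linarith
  refine le_trans ?_ hmain
  -- final numerical inequality
  set B := 1 - S - m * ε' with hB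
  have hdev : |lam - R * l| ≤ A' + Real.log 2 := by
    rw [abs_le]
    rw [hy] at h2 h3
    constructor <;> linarith
  have h8 : -((A' + Real.log 2) * |B|) ≤ (lam - R * l) * B := by
    have h9 : |(lam - R * l) * B| ≤ (A' + Real.log 2) * |B| := by
      rw [abs_mul]
      exact mul_le_mul_of_nonneg_right hdev (abs_nonneg _)
    linarith [neg_abs_le ((lam - R * l) * B)]
  have h10 : 5 * K' ≤ l * ε := by
    rw [div_le_iff₀ hε] at hz3
    exact hz3
  have h11 : l * (R * (m * ε')) ≤ l * (ε / 2) := mul_le_mul_of_nonneg_left hRm hl0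
  have e2 : 2 / 5 * lam * B = 2 / 5 * (R * l * B) + 2 / 5 * ((lam - R * l) * B) := by ring
  have e3 : R * l * B = l * (R * (1 - S)) - l * (R * (m * ε')) := by rw [hB]; ring
  rw [e2, e3]
  have e4 : 2 / 5 * l * (R * (1 - S) - ε) = 2 / 5 * (l * (R * (1 - S))) - 2 / 5 * (l * ε) := by ring
  rw [e4]
  rw [hK'] at h10
  linarith

theorem up_step (N m : ℕ) (hN : 1 ≤ N) (L : ℕ → ℝ) (hL : ∀ i < m, LowP N i (L i)) :
    UpP N (N + m) (((N + m : ℕ) : ℝ) / N * (1 - ∑ i ∈ range m, aw N L i)) := by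
  classical
  obtain ⟨C0, hC01, hG⟩ := G5_asymp
  intro ε hε A
  have hNR : (1 : ℝ) ≤ N := by exact_mod_cast hN
  obtain ⟨R, hR⟩ : ∃ R : ℝ, R = ((N + m : ℕ) : ℝ) / N := ⟨_, rfl⟩
  have hR1 : 1 ≤ R := by
    rw [hR, le_div_iff₀ (by linarith)]
    push_cast
    have : (0 : ℝ) ≤ m := Nat.cast_nonneg m
    linarith
  rw [← hR]
  obtain ⟨A', hA'⟩ : ∃ A', A' = max A 1 := ⟨_, rfl⟩
  have hAA' : A ≤ A' := by rw [hA']; exact le_max_left _ _
  have hA'1 : 1 ≤ A' := by rw [hA']; exact le_max_right _ _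
  have hl2 : 0 < Real.log 2 := Real.log_pos (by norm_num)
  have hl21 : Real.log 2 ≤ 1 := by
    have := Real.log_two_lt_d9
    linarith
  have hm0 : (0 : ℝ) ≤ m := Nat.cast_nonneg m
  obtain ⟨ε', hε'⟩ : ∃ ε' : ℝ, ε' = ε / (2 * R * (m + 1)) := ⟨_, rfl⟩
  have hε'0 : 0 < ε' := by rw [hε']; positivity
  have hRm : R * (m * ε') ≤ ε / 2 := by
    rw [hε']
    have e1 : R * (m * (ε / (2 * R * (m + 1)))) = ε / 2 * (m / (m + 1)) := by
      field_simp
    rw [e1]
    apply mul_le_of_le_one_right (by positivity)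
    rw [div_le_one (by positivity)]
    linarith
  have hex : ∀ i, ∃ K lam0 : ℝ, i < m → 0 ≤ K ∧ ∀ W : ℕ, 1 ≤ W → lam0 ≤ Real.log W →
      2 / 5 * Real.log W * (aw N L i - ε') - K ≤
      ∑ p ∈ PC (xx N (Real.log W) (i + 1)) (xx N (Real.log W) i),
        1 / ((p : ℝ) - 1) * GS (W / p) p := by
    intro i
    by_cases hi : i < m
    · obtain ⟨K, lam0, h1, h2⟩ := cell_low N i hN (L i) (hL i hi) ε' hε'0
      refine ⟨K, lam0, fun _ => ⟨h1, ?_⟩⟩
      intro W hW hlam
      have := h2 W hW hlam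
      rwa [aw_const] at this
    · exact ⟨0, 0, fun h => absurd h hi⟩
  choose K lam0 hcell using hex
  set S := ∑ i ∈ range m, aw N L i with hS
  set Kt := ∑ i ∈ range m, K i with hKt
  obtain ⟨lamt, hlamt⟩ : ∃ lamt : ℝ, lamt = ∑ i ∈ range m, |lam0 i| := ⟨_, rfl⟩
  have hlamt0 : 0 ≤ lamt := by
    rw [hlamt]
    exact Finset.sum_nonneg fun _ _ => abs_nonneg _
  have hlami : ∀ i ∈ range m, lam0 i ≤ lamt := by
    intro i hi
    rw [hlamt]
    exact (le_abs_self _).trans (Finset.single_le_sum (f := fun i => |lam0 i|)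
      (fun _ _ => abs_nonneg _) hi)
  obtain ⟨K', hK'⟩ : ∃ K' : ℝ, K' = 2 / 5 * ((A' + Real.log 2) * |1 - S + m * ε'|) + C0 + Kt := ⟨_, rfl⟩
  obtain ⟨z0, hz0⟩ := exists_log_ge (max (A' + Real.log 2 + lamt) (5 * K' / ε))
  refine ⟨z0, fun z hz W hW hlog => ?_⟩
  have hz1 := hz0 z hz
  have hz2 : A' + Real.log 2 + lamt ≤ Real.log z := le_trans (le_max_left _ _) hz1
  have hz3 : 5 * K' / ε ≤ Real.log z := le_trans (le_max_right _ _) hz1
  set l := Real.log z with hl
  have hl0 : 0 ≤ l := by linarith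
  have hRl : l ≤ R * l := le_mul_of_one_le_left hl0 hR1
  obtain ⟨y, hy⟩ : ∃ y : ℝ, y = R * l + A' := ⟨_, rfl⟩
  have hy0 : 0 ≤ y := by rw [hy]; linarith
  obtain ⟨h1, h2, h3⟩ := log_floor_exp y hy0
  set W1 := ⌊Real.exp y⌋₊ with hW1
  set lam := Real.log (W1 : ℝ) with hlam
  have hW1W : W ≤ W1 := by
    rw [hW1, le_exp_iff W hW, hy]
    have : Real.log W ≤ R * l + A := hlog
    linarith
  refine le_trans (GS_mono W W1 z hW1W) ?_
  have hsplit := GS_split W1 z
  have hGW := (hG W1 h1).2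
  have hlam0 : 0 ≤ lam := Real.log_natCast_nonneg W1
  have hlamge : lamt ≤ lam := by
    rw [hy] at h2
    linarith
  have hxm : l ≤ xx N lam m := by
    unfold xx
    rw [le_div_iff₀ (by positivity)]
    have h6 : (R * l) * N ≤ lam * N := by
      apply mul_le_mul_of_nonneg_right _ (by linarith)
      rw [hy] at h2
      linarith
    have h7 : R * N = N + m := by
      rw [hR]
      push_cast
      field_simp
    nlinarith
  have hF : ∑ p ∈ PC (xx N lam m) lam, 1 / ((p : ℝ) - 1) * GS (W1 / p) p ≤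
      ∑ p ∈ (PL W1).filter (fun p => z ≤ p ∧ p.Coprime 10),
      1 / ((p : ℝ) - 1) * GS (W1 / p) p := by
    apply Finset.sum_le_sum_of_subset_of_nonneg
    · intro p hp
      rw [mem_PC] at hp
      rw [Finset.mem_filter, mem_PL]
      have hp0 : (0 : ℝ) < p := by exact_mod_cast hp.1.1.pos
      refine ⟨⟨?_, hp.1.1⟩, ?_, hp.1.2⟩
      · have h4 := (Real.log_le_log_iff hp0 (by exact_mod_cast h1)).mp hp.2.2
        exact_mod_cast h4
      · have h4 : l < Real.log p := lt_of_le_of_lt hxm hp.2.1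
        rcases Nat.eq_zero_or_pos z with hz0' | hz0'
        · omega
        · have h5 := (Real.log_lt_log_iff (by exact_mod_cast hz0') hp0).mp h4
          have h6 : z < p := by exact_mod_cast h5
          exact h6.le
    · intro p hp _
      rw [Finset.mem_filter, mem_PL] at hp
      have : (1 : ℝ) < p := by exact_mod_cast hp.1.2.one_lt
      have h2 : 0 < (p : ℝ) - 1 := by linarith
      have := GS_nonneg (W1 / p) p
      positivity
  rw [cells_sum N m lam hN hlam0] at hF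
  have hcells : 2 / 5 * lam * (S - m * ε') - Kt ≤
      ∑ i ∈ range m, ∑ p ∈ PC (xx N lam (i + 1)) (xx N lam i),
      1 / ((p : ℝ) - 1) * GS (W1 / p) p := by
    calc 2 / 5 * lam * (S - m * ε') - Kt
        = ∑ i ∈ range m, (2 / 5 * lam * (aw N L i - ε') - K i) := by
          rw [Finset.sum_sub_distrib, ← Finset.mul_sum, Finset.sum_sub_distrib, Finset.sum_const,
            Finset.card_range, nsmul_eq_mul]
      _ ≤ ∑ i ∈ range m, ∑ p ∈ PC (xx N lam (i + 1)) (xx N lam i),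
          1 / ((p : ℝ) - 1) * GS (W1 / p) p := by
          apply Finset.sum_le_sum
          intro i hi
          exact (hcell i (Finset.mem_range.mp hi)).2 W1 h1 ((hlami i hi).trans hlamge)
  have hmain : GS W1 z ≤ 2 / 5 * lam * (1 - S + m * ε') + C0 + Kt := by
    have e1 : 2 / 5 * lam * (1 - S + m * ε') = 2 / 5 * lam - 2 / 5 * lam * (S - m * ε') := by ring
    rw [e1]
    linarith
  refine le_trans hmain ?_
  -- final numerical inequality
  set B := 1 - S + m * ε' with hB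
  have hdev : |lam - R * l| ≤ A' + Real.log 2 := by
    rw [abs_le]
    rw [hy] at h2 h3
    constructor <;> linarith
  have h8 : (lam - R * l) * B ≤ (A' + Real.log 2) * |B| := by
    have h9 : |(lam - R * l) * B| ≤ (A' + Real.log 2) * |B| := by
      rw [abs_mul]
      exact mul_le_mul_of_nonneg_right hdev (abs_nonneg _)
    linarith [le_abs_self ((lam - R * l) * B)]
  have h10 : 5 * K' ≤ l * ε := by
    rw [div_le_iff₀ hε] at hz3
    exact hz3
  have h11 : l * (R * (m * ε')) ≤ l * (ε / 2) := mul_le_mul_of_nonneg_left hRm hl0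
  have e2 : 2 / 5 * lam * B = 2 / 5 * (R * l * B) + 2 / 5 * ((lam - R * l) * B) := by ring
  have e3 : R * l * B = l * (R * (1 - S)) + l * (R * (m * ε')) := by rw [hB]; ring
  rw [e2, e3]
  have e4 : 2 / 5 * l * (R * (1 - S) + ε) = 2 / 5 * (l * (R * (1 - S))) + 2 / 5 * (l * ε) := by ring
  rw [e4]
  rw [hK'] at h10
  linarith

/-- **The table theorem.** -/
theorem table (N K : ℕ) (hN : 1 ≤ N) (L U : ℕ → ℝ)
    (hL0 : ∀ k ≤ N, L k ≤ (k : ℝ) / N) (hU0 : ∀ k ≤ N, (k : ℝ) / N ≤ U k)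
    (hL : ∀ m, N + m ≤ K → L (N + m) ≤
      ((N + m : ℕ) : ℝ) / N * (1 - ∑ i ∈ range m, aw N (fun i => U (i + 1)) i))
    (hU : ∀ m, N + m ≤ K → ((N + m : ℕ) : ℝ) / N * (1 - ∑ i ∈ range m, aw N L i) ≤ U (N + m)) :
    ∀ k ≤ K, LowP N k (L k) ∧ UpP N k (U k) := by
  intro k
  induction k using Nat.strong_induction_on with
  | _ k ih =>
    intro hk
    rcases Nat.lt_or_ge k N with h | h
    · exact ⟨LowP_mono N k _ _ (hL0 k h.le) (low_base N k hN h.le),
        UpP_mono N k _ _ (hU0 k h.le) (up_base N k)⟩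
    · obtain ⟨m, rfl⟩ := Nat.exists_eq_add_of_le h
      constructor
      · apply LowP_mono N _ _ _ (hL m hk)
        apply low_step N m hN
        intro i hi
        exact (ih (i + 1) (by omega) (by omega)).2
      · apply UpP_mono N _ _ _ (hU m hk)
        apply up_step N m hN
        intro i hi
        exact (ih i (by omega) (by omega)).1

end Pool.Agent.Helper10.P3
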