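import Pool.Agent.Helper10.P3.GSplit

/-! Asymptotic bounds for the sums over smooth numbers on a mesh. -/

namespace Pool.Agent.Helper10.P3

open Finset Filter Pool.Agent.Helper10 Pool.Agent.Helper10.P5 Pool.Agent.Helper10.P4

/-- asymptotic lower bound at `k / N` -/
def LowP (N k : ℕ) (L : ℝ) : Prop := ∀ ε : ℝ, 0 < ε → ∀ A : ℝ, ∃ z0 : ℕ, ∀ z : ℕ, z0 ≤ z →
  ∀ W : ℕ, 1 ≤ W → (k : ℝ) / N * Real.log z - A ≤ Real.log W →
    2 / 5 * Real.log z * (L - ε) ≤ GS W z

/-- asymptotic upper bound at `k / N` -/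
def UpP (N k : ℕ) (U : ℝ) : Prop := ∀ ε : ℝ, 0 < ε → ∀ A : ℝ, ∃ z0 : ℕ, ∀ z : ℕ, z0 ≤ z →
  ∀ W : ℕ, 1 ≤ W → Real.log W ≤ (k : ℝ) / N * Real.log z + A →
    GS W z ≤ 2 / 5 * Real.log z * (U + ε)

lemma LowP_mono (N k : ℕ) (L L' : ℝ) (h : L' ≤ L) (hL : LowP N k L) : LowP N k L' := by
  intro ε hε A
  obtain ⟨z0, hz0⟩ := hL ε hε A
  refine ⟨z0, fun z hz W hW hlog => le_trans ?_ (hz0 z hz W hW hlog)⟩
  apply mul_le_mul_of_nonneg_left _ (by
    have := Real.log_natCast_nonneg z
    positivity)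
  linarith

lemma UpP_mono (N k : ℕ) (U U' : ℝ) (h : U ≤ U') (hU : UpP N k U) : UpP N k U' := by
  intro ε hε A
  obtain ⟨z0, hz0⟩ := hU ε hε A
  refine ⟨z0, fun z hz W hW hlog => le_trans (hz0 z hz W hW hlog) ?_⟩
  apply mul_le_mul_of_nonneg_left _ (by
    have := Real.log_natCast_nonneg z
    positivity)
  linarith

lemma exists_log_ge (K : ℝ) : ∃ z0 : ℕ, ∀ z : ℕ, z0 ≤ z → K ≤ Real.log z := by
  have h := Real.tendsto_log_atTop.comp (tendsto_natCast_atTop_atTop (R := ℝ))
  obtain ⟨z0, hz0⟩ := Filter.eventually_atTop.mp (h.eventually_ge_atTop K)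
  exact ⟨z0, fun z hz => hz0 z hz⟩

lemma up_base (N k : ℕ) : UpP N k ((k : ℝ) / N) := by
  obtain ⟨C, hC1, hG⟩ := G5_asymp
  intro ε hε A
  obtain ⟨z0, hz0⟩ := exists_log_ge ((A + 5 / 2 * C) / ε)
  refine ⟨z0, fun z hz W hW hlog => ?_⟩
  have h1 := hz0 z hz
  rw [div_le_iff₀ hε] at h1
  have h2 := (hG W hW).2
  have h3 := GS_le_G5 W z
  nlinarith

lemma low_base (N k : ℕ) (hN : 1 ≤ N) (hk : k ≤ N) : LowP N k ((k : ℝ) / N) := by
  obtain ⟨C, hC1, hG⟩ := G5_asymp
  intro ε hε A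
  have hl2 : 0 ≤ Real.log 2 := Real.log_nonneg (by norm_num)
  obtain ⟨z0, hz0⟩ := exists_log_ge ((|A| + Real.log 2 + 5 / 2 * C) / ε)
  refine ⟨max z0 4, fun z hz W hW hlog => ?_⟩
  have h1 := hz0 z (le_trans (le_max_left _ _) hz)
  have hz4 : 4 ≤ z := le_trans (le_max_right _ _) hz
  rw [div_le_iff₀ hε] at h1
  have hNR : (0 : ℝ) < N := by exact_mod_cast hN
  have hkN : (k : ℝ) / N ≤ 1 := by
    rw [div_le_one hNR]
    exact_mod_cast hk
  have hkN0 : 0 ≤ (k : ℝ) / N := by positivity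
  have hlz : 0 ≤ Real.log z := Real.log_natCast_nonneg z
  have hA := neg_abs_le A
  have hA' := le_abs_self A
  have hA0 := abs_nonneg A
  rcases Nat.lt_or_ge W z with h | h
  · rw [GS_eq_G5 W z h]
    have h2 := (hG W hW).1
    nlinarith
  · have h3 : GS (z - 1) z ≤ GS W z := GS_mono _ _ _ (by omega)
    rw [GS_eq_G5 (z - 1) z (by omega)] at h3
    have h2 := (hG (z - 1) (by omega)).1
    have h4 : Real.log z - Real.log 2 ≤ Real.log ((z - 1 : ℕ) : ℝ) := by
      have h5 : Real.log z ≤ Real.log (2 * ((z - 1 : ℕ) : ℝ)) := by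
        apply Real.log_le_log (by exact_mod_cast (by omega : 0 < z))
        exact_mod_cast (by omega : z ≤ 2 * (z - 1))
      rw [Real.log_mul (by norm_num) (by
        have : 0 < z - 1 := by omega
        positivity)] at h5
      linarith
    have h6 : (k : ℝ) / N * Real.log z ≤ Real.log z := mul_le_of_le_one_left hlz hkN
    nlinarith

/-- weights of the cells -/
noncomputable def wc (N i : ℕ) : ℝ := (N : ℝ) / (((N : ℝ) + i) * ((N : ℝ) + i + 1))

/-- logarithm of the ratio of the cell -/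
noncomputable def lc (N i : ℕ) : ℝ := Real.log (((N : ℝ) + i + 1) / ((N : ℝ) + i))

lemma wc_nonneg (N i : ℕ) : 0 ≤ wc N i := by unfold wc; positivity

lemma wc_le_one (N i : ℕ) (hN : 1 ≤ N) : wc N i ≤ 1 := by
  unfold wc
  have hNR : (1 : ℝ) ≤ N := by exact_mod_cast hN
  have hi : (0 : ℝ) ≤ i := Nat.cast_nonneg i
  rw [div_le_one (by positivity)]
  nlinarith

lemma lc_nonneg (N i : ℕ) (hN : 1 ≤ N) : 0 ≤ lc N i := by
  unfold lc
  have hNR : (1 : ℝ) ≤ N := by exact_mod_cast hN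
  have hi : (0 : ℝ) ≤ i := Nat.cast_nonneg i
  apply Real.log_nonneg
  rw [le_div_iff₀ (by positivity)]
  linarith

/-- end points of the cells -/
noncomputable def xx (N : ℕ) (lam : ℝ) (i : ℕ) : ℝ := lam * N / ((N : ℝ) + i)

lemma xx_sub (N : ℕ) (lam : ℝ) (i : ℕ) (hN : 1 ≤ N) :
    xx N lam i - xx N lam (i + 1) = lam * wc N i := by
  unfold xx wc
  have hNR : (1 : ℝ) ≤ N := by exact_mod_cast hN
  have hi : (0 : ℝ) ≤ i := Nat.cast_nonneg i
  have h1 : (N : ℝ) + i ≠ 0 := by positivity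
  have h2 : (N : ℝ) + i + 1 ≠ 0 := by positivity
  push_cast
  rw [← add_assoc]
  field_simp
  ring

lemma xx_anti (N : ℕ) (lam : ℝ) (hN : 1 ≤ N) (hl : 0 ≤ lam) (i j : ℕ) (h : i ≤ j) :
    xx N lam j ≤ xx N lam i := by
  unfold xx
  have hNR : (1 : ℝ) ≤ N := by exact_mod_cast hN
  have hi : (0 : ℝ) ≤ i := Nat.cast_nonneg i
  have hij : (i : ℝ) ≤ j := by exact_mod_cast h
  apply div_le_div_of_nonneg_left (by positivity) (by positivity)
  linarith

lemma xx_nonneg (N : ℕ) (lam : ℝ) (hl : 0 ≤ lam) (i : ℕ) : 0 ≤ xx N lam i := by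
  unfold xx
  positivity

lemma xx_zero (N : ℕ) (lam : ℝ) (hN : 1 ≤ N) : xx N lam 0 = lam := by
  unfold xx
  have hNR : (1 : ℝ) ≤ N := by exact_mod_cast hN
  push_cast
  rw [add_zero]
  field_simp

/-- sums over the cells -/
lemma cells_sum (N m : ℕ) (lam : ℝ) (hN : 1 ≤ N) (hl : 0 ≤ lam) (f : ℕ → ℝ) :
    ∑ p ∈ PC (xx N lam m) lam, f p =
      ∑ i ∈ range m, ∑ p ∈ PC (xx N lam (i + 1)) (xx N lam i), f p := by
  induction m with
  | zero => rw [xx_zero N lam hN, PC_self]; simp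
  | succ m ih =>
    rw [Finset.sum_range_succ, ← ih, PC_split (xx N lam (m + 1)) (xx N lam m) lam]
    · exact add_comm _ _
    · exact xx_anti N lam hN hl _ _ (Nat.le_succ m)
    · have := xx_anti N lam hN hl 0 m (Nat.zero_le m)
      rwa [xx_zero N lam hN] at this

/-- weights for the upper bound -/
noncomputable def aw (N : ℕ) (V : ℕ → ℝ) (i : ℕ) : ℝ :=
  if i < N then lc N i - wc N i else V i * wc N i

lemma log_div_floor (W p : ℕ) (hp : 1 ≤ p) (hpW : p ≤ W) :
    1 ≤ W / p ∧ Real.log ((W / p : ℕ) : ℝ) ≤ Real.log W - Real.log p ∧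
      Real.log W - Real.log p - Real.log 2 ≤ Real.log ((W / p : ℕ) : ℝ) := by
  have h1 : 1 ≤ W / p := (Nat.one_le_div_iff (by omega)).mpr hpW
  have hp0 : (0 : ℝ) < p := by exact_mod_cast hp
  have hW0 : (0 : ℝ) < W := by exact_mod_cast (by omega : 0 < W)
  have hq0 : (0 : ℝ) < ((W / p : ℕ) : ℝ) := by exact_mod_cast h1
  refine ⟨h1, ?_, ?_⟩
  · rw [← Real.log_div hW0.ne' hp0.ne']
    exact Real.log_le_log hq0 Nat.cast_div_le
  · have h2 : W < p * (W / p + 1) := by
      have := Nat.lt_mul_div_succ W (show 0 < p by omega)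
      exact this
    have h3 : W ≤ 2 * (p * (W / p)) := by nlinarith
    have h4 : (W : ℝ) ≤ 2 * (p * ((W / p : ℕ) : ℝ)) := by exact_mod_cast h3
    have h5 := Real.log_le_log hW0 h4
    rw [Real.log_mul (by norm_num) (by positivity), Real.log_mul hp0.ne' hq0.ne'] at h5
    linarith

/-- upper bound for the cell sums -/
lemma cell_up (N i : ℕ) (hN : 1 ≤ N) (U : ℝ) (hU : UpP N (i + 1) U) (ε : ℝ) (hε : 0 < ε) :
    ∃ (K : ℝ) (lam0 : ℝ), 0 ≤ K ∧ ∀ W : ℕ, 1 ≤ W → lam0 ≤ Real.log W →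
      ∑ p ∈ PC (xx N (Real.log W) (i + 1)) (xx N (Real.log W) i), 1 / ((p : ℝ) - 1) * GS (W / p) p ≤
        2 / 5 * Real.log W * (aw N (fun _ => U) i + ε) + K := by
  obtain ⟨C0, hC01, hG⟩ := G5_asymp
  obtain ⟨C1, hC1, hM1⟩ := M1
  have hNR : (1 : ℝ) ≤ N := by exact_mod_cast hN
  have hi : (0 : ℝ) ≤ i := Nat.cast_nonneg i
  have hprop : ∀ W : ℕ, 1 ≤ W → ∀ p ∈ PC (xx N (Real.log W) (i + 1)) (xx N (Real.log W) i),
      p.Prime ∧ 0 < (p : ℝ) - 1 ∧ 0 < Real.log p ∧ p ≤ W ∧
        Real.log W < ((N : ℝ) + i + 1) / N * Real.log p ∧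
        ((N : ℝ) + i) / N * Real.log p ≤ Real.log W := by
    intro W hW p hp
    rw [mem_PC] at hp
    have hp1 : (1 : ℝ) < p := by exact_mod_cast hp.1.1.one_lt
    have hl0 : 0 < Real.log p := Real.log_pos hp1
    have hlW : 0 ≤ Real.log W := Real.log_natCast_nonneg W
    refine ⟨hp.1.1, by linarith, hl0, ?_, ?_, ?_⟩
    · have h2 : Real.log p ≤ Real.log W := by
        refine hp.2.2.trans ?_
        have := xx_anti N (Real.log W) hN hlW 0 i (Nat.zero_le i)
        rwa [xx_zero N _ hN] at this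
      have h3 := (Real.log_le_log_iff (by linarith) (by exact_mod_cast hW)).mp h2
      exact_mod_cast h3
    · have h2 := hp.2.1
      unfold xx at h2
      push_cast at h2
      rw [div_lt_iff₀ (by positivity)] at h2
      rw [div_mul_eq_mul_div, lt_div_iff₀ (by linarith)]
      linarith
    · have h2 := hp.2.2
      unfold xx at h2
      rw [le_div_iff₀ (by positivity)] at h2
      rw [div_mul_eq_mul_div, div_le_iff₀ (by linarith)]
      linarith
  by_cases hiN : i < N
  · -- linear range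
    have hab : (N : ℝ) / ((N : ℝ) + i + 1) ≤ N / ((N : ℝ) + i) := by
      apply div_le_div_of_nonneg_left (by positivity) (by positivity)
      linarith
    have hM2 := M2 ((N : ℝ) / ((N : ℝ) + i + 1)) ((N : ℝ) / ((N : ℝ) + i)) (by positivity) hab ε hε
    obtain ⟨lam0, hlam0⟩ := Filter.eventually_atTop.mp hM2
    have hratio : (N : ℝ) / ((N : ℝ) + i) / (N / ((N : ℝ) + i + 1)) =
        ((N : ℝ) + i + 1) / ((N : ℝ) + i) := by
      field_simp
    refine ⟨C0 * (lc N i + ε) + 2 / 5 * C1, lam0, by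
      have := lc_nonneg N i hN
      positivity, ?_⟩
    intro W hW hlam
    set lam := Real.log W with hlamdef
    have hlam00 : 0 ≤ lam := Real.log_natCast_nonneg W
    have e1 : N / ((N : ℝ) + i + 1) * lam = xx N lam (i + 1) := by
      unfold xx
      push_cast
      rw [← add_assoc]
      ring
    have e2 : N / ((N : ℝ) + i) * lam = xx N lam i := by
      unfold xx
      ring
    have h2 := (hlam0 lam hlam).1
    rw [e1, e2, hratio] at h2
    have h1 := (hM1 (xx N lam (i + 1)) (xx N lam i) (xx_nonneg _ _ hlam00 _)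
      (xx_anti N lam hN hlam00 _ _ (Nat.le_succ i))).2
    rw [xx_sub N lam i hN] at h1
    have hterm : ∀ p ∈ PC (xx N lam (i + 1)) (xx N lam i), 1 / ((p : ℝ) - 1) * GS (W / p) p ≤
        (2 / 5 * lam + C0) * (1 / ((p : ℝ) - 1)) - 2 / 5 * (Real.log p / ((p : ℝ) - 1)) := by
      intro p hp
      obtain ⟨hpp, hp1, hpl, hpW, _, _⟩ := hprop W hW p hp
      obtain ⟨hd1, hd2, _⟩ := log_div_floor W p hpp.pos hpW
      have h3 : GS (W / p) p ≤ 2 / 5 * (lam - Real.log p) + C0 := by
        refine (GS_le_G5 _ _).trans ((hG (W / p) hd1).2.trans ?_)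
        linarith
      have h4 := mul_le_mul_of_nonneg_left h3 (show 0 ≤ 1 / ((p : ℝ) - 1) by positivity)
      refine h4.trans (le_of_eq ?_)
      field_simp
      ring
    refine (Finset.sum_le_sum hterm).trans ?_
    rw [Finset.sum_sub_distrib, ← Finset.mul_sum, ← Finset.mul_sum]
    unfold aw
    rw [if_pos hiN]
    have h5 : (2 / 5 * lam + C0) * ∑ p ∈ PC (xx N lam (i + 1)) (xx N lam i), 1 / ((p : ℝ) - 1) ≤
        (2 / 5 * lam + C0) * (lc N i + ε) := by
      apply mul_le_mul_of_nonneg_left _ (by positivity)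
      exact h2
    nlinarith
  · obtain ⟨z0, hz0⟩ := hU ε hε 0
    obtain ⟨K0, hK0⟩ : ∃ K0 : ℝ, K0 = Real.log (z0 + 1) := ⟨_, rfl⟩
    have hK00 : 0 ≤ K0 := by
      rw [hK0]
      apply Real.log_nonneg
      have : (0 : ℝ) ≤ z0 := Nat.cast_nonneg z0
      linarith
    refine ⟨2 / 5 * (|U| + ε) * C1, ((N : ℝ) + i + 1) / N * K0, by positivity, ?_⟩
    intro W hW hlam
    set lam := Real.log W with hlamdef
    have hlam00 : 0 ≤ lam := Real.log_natCast_nonneg W
    have h1 := (hM1 (xx N lam (i + 1)) (xx N lam i) (xx_nonneg _ _ hlam00 _)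
      (xx_anti N lam hN hlam00 _ _ (Nat.le_succ i)))
    rw [xx_sub N lam i hN] at h1
    have hxK : K0 ≤ xx N lam (i + 1) := by
      unfold xx
      push_cast
      rw [le_div_iff₀ (by positivity)]
      rw [div_mul_eq_mul_div, div_le_iff₀ (by linarith)] at hlam
      linarith
    have hterm : ∀ p ∈ PC (xx N lam (i + 1)) (xx N lam i), 1 / ((p : ℝ) - 1) * GS (W / p) p ≤
        2 / 5 * (U + ε) * (Real.log p / ((p : ℝ) - 1)) := by
      intro p hp
      obtain ⟨hpp, hp1, hpl, hpW, hlt, _⟩ := hprop W hW p hp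
      obtain ⟨hd1, hd2, _⟩ := log_div_floor W p hpp.pos hpW
      have hpz : z0 ≤ p := by
        have h2 : K0 < Real.log p := lt_of_le_of_lt hxK ((mem_PC _ _ _).mp hp).2.1
        rw [hK0] at h2
        have h3 := (Real.log_lt_log_iff (by positivity) (by exact_mod_cast hpp.pos)).mp h2
        have h4 : (z0 : ℝ) ≤ p := by linarith
        exact_mod_cast h4
      have h3 : GS (W / p) p ≤ 2 / 5 * Real.log p * (U + ε) := by
        apply hz0 p hpz (W / p) hd1
        push_cast
        have e1 : ((i : ℝ) + 1) / N * Real.log p + 0 =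
            ((N : ℝ) + i + 1) / N * Real.log p - Real.log p := by
          field_simp
          ring
        rw [e1]
        linarith
      have h4 := mul_le_mul_of_nonneg_left h3 (show 0 ≤ 1 / ((p : ℝ) - 1) by positivity)
      refine h4.trans (le_of_eq ?_)
      field_simp
    refine (Finset.sum_le_sum hterm).trans ?_
    rw [← Finset.mul_sum]
    unfold aw
    rw [if_neg hiN]
    have hw0 := wc_nonneg N i
    have hw1 := wc_le_one N i hN
    set T := ∑ p ∈ PC (xx N lam (i + 1)) (xx N lam i), Real.log p / ((p : ℝ) - 1) with hT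
    have hT2 : |T - lam * wc N i| ≤ C1 := by
      rw [abs_le]
      constructor <;> linarith [h1.1, h1.2]
    have hUa : |U + ε| ≤ |U| + ε := by
      have := abs_add_le U ε
      rwa [abs_of_pos hε] at this
    have e1 : 2 / 5 * (U + ε) * T = 2 / 5 * (U + ε) * (lam * wc N i) +
        2 / 5 * ((U + ε) * (T - lam * wc N i)) := by ring
    have h6 : (U + ε) * (T - lam * wc N i) ≤ (|U| + ε) * C1 := by
      calc (U + ε) * (T - lam * wc N i) ≤ |(U + ε) * (T - lam * wc N i)| := le_abs_self _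
        _ = |U + ε| * |T - lam * wc N i| := abs_mul _ _
        _ ≤ (|U| + ε) * C1 := mul_le_mul hUa hT2 (abs_nonneg _) (by positivity)
    have h7 : ε * (lam * wc N i) ≤ ε * lam := by
      apply mul_le_mul_of_nonneg_left _ hε.le
      nlinarith
    rw [e1]
    nlinarith

/-- lower bound for the cell sums -/
lemma cell_low (N i : ℕ) (hN : 1 ≤ N) (L : ℝ) (hL : LowP N i L) (ε : ℝ) (hε : 0 < ε) :
    ∃ (K : ℝ) (lam0 : ℝ), 0 ≤ K ∧ ∀ W : ℕ, 1 ≤ W → lam0 ≤ Real.log W →
      2 / 5 * Real.log W * (aw N (fun _ => L) i - ε) - K ≤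
      ∑ p ∈ PC (xx N (Real.log W) (i + 1)) (xx N (Real.log W) i),
        1 / ((p : ℝ) - 1) * GS (W / p) p := by
  obtain ⟨C0, hC01, hG⟩ := G5_asymp
  obtain ⟨C1, hC1, hM1⟩ := M1
  have hNR : (1 : ℝ) ≤ N := by exact_mod_cast hN
  have hi : (0 : ℝ) ≤ i := Nat.cast_nonneg i
  have hl2 : 0 ≤ Real.log 2 := Real.log_nonneg (by norm_num)
  have hprop : ∀ W : ℕ, 1 ≤ W → ∀ p ∈ PC (xx N (Real.log W) (i + 1)) (xx N (Real.log W) i),
      p.Prime ∧ 0 < (p : ℝ) - 1 ∧ 0 < Real.log p ∧ p ≤ W ∧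
        Real.log W < ((N : ℝ) + i + 1) / N * Real.log p ∧
        ((N : ℝ) + i) / N * Real.log p ≤ Real.log W := by
    intro W hW p hp
    rw [mem_PC] at hp
    have hp1 : (1 : ℝ) < p := by exact_mod_cast hp.1.1.one_lt
    have hl0 : 0 < Real.log p := Real.log_pos hp1
    have hlW : 0 ≤ Real.log W := Real.log_natCast_nonneg W
    refine ⟨hp.1.1, by linarith, hl0, ?_, ?_, ?_⟩
    · have h2 : Real.log p ≤ Real.log W := by
        refine hp.2.2.trans ?_
        have := xx_anti N (Real.log W) hN hlW 0 i (Nat.zero_le i)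
        rwa [xx_zero N _ hN] at this
      have h3 := (Real.log_le_log_iff (by linarith) (by exact_mod_cast hW)).mp h2
      exact_mod_cast h3
    · have h2 := hp.2.1
      unfold xx at h2
      push_cast at h2
      rw [div_lt_iff₀ (by positivity)] at h2
      rw [div_mul_eq_mul_div, lt_div_iff₀ (by linarith)]
      linarith
    · have h2 := hp.2.2
      unfold xx at h2
      rw [le_div_iff₀ (by positivity)] at h2
      rw [div_mul_eq_mul_div, div_le_iff₀ (by linarith)]
      linarith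
  by_cases hiN : i < N
  · -- linear range
    have hab : (N : ℝ) / ((N : ℝ) + i + 1) ≤ N / ((N : ℝ) + i) := by
      apply div_le_div_of_nonneg_left (by positivity) (by positivity)
      linarith
    have hM2 := M2 ((N : ℝ) / ((N : ℝ) + i + 1)) ((N : ℝ) / ((N : ℝ) + i)) (by positivity) hab ε hε
    obtain ⟨lam0, hlam0⟩ := Filter.eventually_atTop.mp hM2
    have hratio : (N : ℝ) / ((N : ℝ) + i) / (N / ((N : ℝ) + i + 1)) =
        ((N : ℝ) + i + 1) / ((N : ℝ) + i) := by
      field_simp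
    obtain ⟨C2, hC2⟩ : ∃ C2 : ℝ, C2 = 2 / 5 * Real.log 2 + C0 := ⟨_, rfl⟩
    have hC20 : 0 < C2 := by rw [hC2]; positivity
    refine ⟨C2 * (lc N i + ε) + 2 / 5 * C1, max lam0 (5 / 2 * C2), by
      have := lc_nonneg N i hN
      positivity, ?_⟩
    intro W hW hlam
    set lam := Real.log W with hlamdef
    have hlam1 : lam0 ≤ lam := le_trans (le_max_left _ _) hlam
    have hlam2 : 5 / 2 * C2 ≤ lam := le_trans (le_max_right _ _) hlam
    have hlam00 : 0 ≤ lam := Real.log_natCast_nonneg W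
    have e1 : N / ((N : ℝ) + i + 1) * lam = xx N lam (i + 1) := by
      unfold xx
      push_cast
      rw [← add_assoc]
      ring
    have e2 : N / ((N : ℝ) + i) * lam = xx N lam i := by
      unfold xx
      ring
    have h2 := (hlam0 lam hlam1).2
    rw [e1, e2, hratio] at h2
    have h1 := (hM1 (xx N lam (i + 1)) (xx N lam i) (xx_nonneg _ _ hlam00 _)
      (xx_anti N lam hN hlam00 _ _ (Nat.le_succ i))).1
    rw [xx_sub N lam i hN] at h1
    have hterm : ∀ p ∈ PC (xx N lam (i + 1)) (xx N lam i),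
        (2 / 5 * lam - C2) * (1 / ((p : ℝ) - 1)) - 2 / 5 * (Real.log p / ((p : ℝ) - 1)) ≤
        1 / ((p : ℝ) - 1) * GS (W / p) p := by
      intro p hp
      obtain ⟨hpp, hp1, hpl, hpW, hlt, _⟩ := hprop W hW p hp
      obtain ⟨hd1, hd2, hd3⟩ := log_div_floor W p hpp.pos hpW
      have hsmall : W / p < p := by
        have h3 : Real.log ((W / p : ℕ) : ℝ) < Real.log p := by
          refine lt_of_le_of_lt hd2 ?_
          have h4 : ((N : ℝ) + i + 1) / N * Real.log p ≤ 2 * Real.log p := by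
            apply mul_le_mul_of_nonneg_right _ hpl.le
            rw [div_le_iff₀ (by linarith)]
            have : (i : ℝ) + 1 ≤ N := by exact_mod_cast hiN
            linarith
          linarith
        have h5 := (Real.log_lt_log_iff (by exact_mod_cast hd1) (by exact_mod_cast hpp.pos)).mp h3
        exact_mod_cast h5
      have h3 : 2 / 5 * (lam - Real.log p) - C2 ≤ GS (W / p) p := by
        rw [GS_eq_G5 _ _ hsmall]
        refine le_trans ?_ (hG (W / p) hd1).1
        rw [hC2]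
        linarith
      have h4 := mul_le_mul_of_nonneg_left h3 (show 0 ≤ 1 / ((p : ℝ) - 1) by positivity)
      refine le_trans (le_of_eq ?_) h4
      field_simp
      ring
    refine le_trans ?_ (Finset.sum_le_sum hterm)
    rw [Finset.sum_sub_distrib, ← Finset.mul_sum, ← Finset.mul_sum]
    unfold aw
    rw [if_pos hiN]
    have h5 : (2 / 5 * lam - C2) * (lc N i - ε) ≤
        (2 / 5 * lam - C2) * ∑ p ∈ PC (xx N lam (i + 1)) (xx N lam i), 1 / ((p : ℝ) - 1) := by
      apply mul_le_mul_of_nonneg_left _ (by linarith)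
      exact h2
    have h6 := lc_nonneg N i hN
    nlinarith
  · obtain ⟨z0, hz0⟩ := hL ε hε (Real.log 2)
    obtain ⟨K0, hK0⟩ : ∃ K0 : ℝ, K0 = Real.log (z0 + 1) := ⟨_, rfl⟩
    have hK00 : 0 ≤ K0 := by
      rw [hK0]
      apply Real.log_nonneg
      have : (0 : ℝ) ≤ z0 := Nat.cast_nonneg z0
      linarith
    refine ⟨2 / 5 * (|L| + ε) * C1, ((N : ℝ) + i + 1) / N * K0, by positivity, ?_⟩
    intro W hW hlam
    set lam := Real.log W with hlamdef
    have hlam00 : 0 ≤ lam := Real.log_natCast_nonneg W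
    have h1 := (hM1 (xx N lam (i + 1)) (xx N lam i) (xx_nonneg _ _ hlam00 _)
      (xx_anti N lam hN hlam00 _ _ (Nat.le_succ i)))
    rw [xx_sub N lam i hN] at h1
    have hxK : K0 ≤ xx N lam (i + 1) := by
      unfold xx
      push_cast
      rw [le_div_iff₀ (by positivity)]
      rw [div_mul_eq_mul_div, div_le_iff₀ (by linarith)] at hlam
      linarith
    have hterm : ∀ p ∈ PC (xx N lam (i + 1)) (xx N lam i),
        2 / 5 * (L - ε) * (Real.log p / ((p : ℝ) - 1)) ≤ 1 / ((p : ℝ) - 1) * GS (W / p) p := by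
      intro p hp
      obtain ⟨hpp, hp1, hpl, hpW, _, hge⟩ := hprop W hW p hp
      obtain ⟨hd1, _, hd3⟩ := log_div_floor W p hpp.pos hpW
      have hpz : z0 ≤ p := by
        have h2 : K0 < Real.log p := lt_of_le_of_lt hxK ((mem_PC _ _ _).mp hp).2.1
        rw [hK0] at h2
        have h3 := (Real.log_lt_log_iff (by positivity) (by exact_mod_cast hpp.pos)).mp h2
        have h4 : (z0 : ℝ) ≤ p := by linarith
        exact_mod_cast h4
      have h3 : 2 / 5 * Real.log p * (L - ε) ≤ GS (W / p) p := by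
        apply hz0 p hpz (W / p) hd1
        have e1 : (i : ℝ) / N * Real.log p =
            ((N : ℝ) + i) / N * Real.log p - Real.log p := by
          field_simp
          ring
        rw [e1]
        linarith
      have h4 := mul_le_mul_of_nonneg_left h3 (show 0 ≤ 1 / ((p : ℝ) - 1) by positivity)
      refine le_trans (le_of_eq ?_) h4
      field_simp
    refine le_trans ?_ (Finset.sum_le_sum hterm)
    rw [← Finset.mul_sum]
    unfold aw
    rw [if_neg hiN]
    have hw0 := wc_nonneg N i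
    have hw1 := wc_le_one N i hN
    set T := ∑ p ∈ PC (xx N lam (i + 1)) (xx N lam i), Real.log p / ((p : ℝ) - 1) with hT
    have hT2 : |T - lam * wc N i| ≤ C1 := by
      rw [abs_le]
      constructor <;> linarith [h1.1, h1.2]
    have hUa : |L - ε| ≤ |L| + ε := by
      have := abs_sub L ε
      rwa [abs_of_pos hε] at this
    have e1 : 2 / 5 * (L - ε) * T = 2 / 5 * (L - ε) * (lam * wc N i) +
        2 / 5 * ((L - ε) * (T - lam * wc N i)) := by ring
    have h6 : -((|L| + ε) * C1) ≤ (L - ε) * (T - lam * wc N i) := by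
      have h7 : |(L - ε) * (T - lam * wc N i)| ≤ (|L| + ε) * C1 := by
        rw [abs_mul]
        exact mul_le_mul hUa hT2 (abs_nonneg _) (by positivity)
      linarith [neg_abs_le ((L - ε) * (T - lam * wc N i))]
    have h7 : ε * (lam * wc N i) ≤ ε * lam := by
      apply mul_le_mul_of_nonneg_left _ hε.le
      nlinarith
    rw [e1]
    nlinarith

end Pool.Agent.Helper10.P3
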