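import Pool.Agent.Helper10.P3.Cell

/-! The lower bound sieve at a small sifting level. -/

namespace Pool.Agent.Helper10.P3

open Finset Filter Pool.Agent.Helper10 Pool.Agent.Helper10.P5 Pool.Agent.Helper10.P4

/-- the quadratic form of the smooth profile at a small prime -/
lemma yS_diff (W z p : ℕ) (hp : p.Prime) (hpz : p < z) :
    ∑ k ∈ DD W, (yS W z k - yS W z (k * p)) ^ 2 / (Nat.totient k : ℝ) =
      (1 / GS W z) ^ 2 * (GS W z - GS (W / p) z) := by
  classical
  have hsub : DS (W / p) z ⊆ DS W z := by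
    intro k hk
    rw [mem_DS] at hk ⊢
    exact ⟨DD_mono _ _ (Nat.div_le_self _ _) hk.1, hk.2⟩
  have h1 : GS W z - GS (W / p) z = ∑ k ∈ DS W z \ DS (W / p) z, 1 / (Nat.totient k : ℝ) := by
    unfold GS
    rw [sub_eq_iff_eq_add]
    exact (Finset.sum_sdiff hsub).symm
  have h2 : DS W z \ DS (W / p) z = (DD W).filter (fun k => Smo z k ∧ W < k * p) := by
    ext k
    rw [Finset.mem_sdiff, mem_DS, mem_DS, Finset.mem_filter]
    constructor
    · rintro ⟨⟨h3, h4⟩, h5⟩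
      refine ⟨h3, h4, ?_⟩
      by_contra hcon
      push Not at hcon
      apply h5
      refine ⟨?_, h4⟩
      rw [mem_DD] at h3 ⊢
      exact ⟨⟨h3.1.1, (Nat.le_div_iff_mul_le hp.pos).mpr hcon⟩, h3.2⟩
    · rintro ⟨h3, h4, h5⟩
      refine ⟨⟨h3, h4⟩, ?_⟩
      rintro ⟨h6, _⟩
      rw [mem_DD] at h6
      have := (Nat.le_div_iff_mul_le hp.pos).mp h6.1.2
      omega
  rw [h1, h2, Finset.mul_sum, Finset.sum_filter]
  apply Finset.sum_congr rfl
  intro k hk
  have hk' := (mem_DD W k).mp hk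
  have hsm : Smo z (k * p) ↔ Smo z k := by
    constructor
    · intro h q hq hqk
      exact h q hq (hqk.trans (Dvd.intro _ rfl))
    · intro h q hq hqk
      rcases (Nat.Prime.dvd_mul hq).mp hqk with h3 | h3
      · exact h q hq h3
      · rw [(Nat.prime_dvd_prime_iff_eq hq hp).mp h3]
        exact hpz
  by_cases h3 : Smo z k
  · have e1 : yS W z k = 1 / GS W z := by
      unfold yS
      rw [if_pos ⟨hk'.1.2, h3⟩]
    by_cases h4 : W < k * p
    · have e2 : yS W z (k * p) = 0 := by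
        unfold yS
        rw [if_neg (fun h => by omega)]
      rw [if_pos ⟨h3, h4⟩, e1, e2, sub_zero]
      ring
    · have e2 : yS W z (k * p) = 1 / GS W z := by
        unfold yS
        rw [if_pos ⟨by omega, hsm.mpr h3⟩]
      rw [if_neg (fun h => h4 h.2), e1, e2, sub_self]
      simp
  · have e1 : yS W z k = 0 := by
      unfold yS
      rw [if_neg (fun h => h3 h.2)]
    have e2 : yS W z (k * p) = 0 := by
      unfold yS
      rw [if_neg (fun h => h3 (hsm.mp h.2))]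
    rw [if_neg (fun h => h3 h.1), e1, e2]
    simp

lemma GS_diff_le (W z p : ℕ) : GS W z - GS (W / p) z ≤ G5 W - G5 (W / p) := by
  classical
  have hsub : DS (W / p) z ⊆ DS W z := by
    intro k hk
    rw [mem_DS] at hk ⊢
    exact ⟨DD_mono _ _ (Nat.div_le_self _ _) hk.1, hk.2⟩
  have h1 : GS W z - GS (W / p) z = ∑ k ∈ DS W z \ DS (W / p) z, 1 / (Nat.totient k : ℝ) := by
    unfold GS
    rw [sub_eq_iff_eq_add]
    exact (Finset.sum_sdiff hsub).symm
  have hsub2 : DD (W / p) ⊆ DD W := DD_mono _ _ (Nat.div_le_self _ _)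
  have h2 : G5 W - G5 (W / p) = ∑ k ∈ DD W \ DD (W / p), 1 / (Nat.totient k : ℝ) := by
    unfold G5
    rw [sub_eq_iff_eq_add]
    exact (Finset.sum_sdiff hsub2).symm
  rw [h1, h2]
  apply Finset.sum_le_sum_of_subset_of_nonneg
  · intro k hk
    rw [Finset.mem_sdiff, mem_DS, mem_DS] at hk
    rw [Finset.mem_sdiff]
    exact ⟨hk.1.1, fun h => hk.2 ⟨h, hk.1.2⟩⟩
  · intro _ _ _
    positivity

/-- the divisor sum with the smooth profile equals one on sifted numbers -/
lemma wt5_yS (W z n : ℕ) (hW : 1 ≤ W) (h : ∀ q ∈ PP z, ¬ q ∣ n) : wt5 W (yS W z) n = 1 := by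
  unfold wt5
  rw [← yS_lm_one W z hW]
  apply Finset.sum_eq_single_of_mem
  · exact Finset.mem_filter.mpr ⟨one_mem_DD W hW, one_dvd _⟩
  · intro d hd hd1
    rw [Finset.mem_filter, mem_DD] at hd
    apply yS_lm_zero
    intro hsm
    have hq := Nat.minFac_prime hd1
    have hqd := Nat.minFac_dvd d
    apply h (Nat.minFac d) _ (hqd.trans hd.2)
    rw [mem_PP]
    exact ⟨hsm _ hq hqd, hq, Nat.Coprime.coprime_dvd_left hqd hd.1.2.2⟩

/-- tiny primes -/
lemma tiny (b η : ℝ) (hb : 0 < b) (hη : 0 < η) : ∀ᶠ lam : ℝ in atTop, ∀ W z : ℕ,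
    b * lam ≤ Real.log W →
    ∑ p ∈ PC 0 (b * lam), (1 / (p : ℝ)) * (GS W z - GS (W / p) z) ≤ 2 / 5 * lam * (b + η) := by
  obtain ⟨C0, hC01, hG⟩ := G5_asymp
  obtain ⟨C1, hC1, hM1⟩ := M1
  have hl2 : 0 ≤ Real.log 2 := Real.log_nonneg (by norm_num)
  obtain ⟨C', hC'⟩ : ∃ C' : ℝ, C' = 2 / 5 * Real.log 2 + 2 * C0 := ⟨_, rfl⟩
  have hC'0 : 0 < C' := by rw [hC']; positivity
  obtain ⟨ε, hε⟩ : ∃ ε : ℝ, ε = η / (5 * C' * b) := ⟨_, rfl⟩
  have hε0 : 0 < ε := by rw [hε]; positivity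
  obtain ⟨C3, hC3, hrec⟩ := recip_small ε hε0
  filter_upwards [Filter.eventually_ge_atTop 1,
    Filter.eventually_ge_atTop ((2 / 5 * C1 + C' * C3) / (1 / 5 * η))] with lam hlam1 hlam2
  intro W z hWb
  have hlam0 : 0 < lam := by linarith
  have hbl : 0 < b * lam := by positivity
  have hterm : ∀ p ∈ PC 0 (b * lam), (1 / (p : ℝ)) * (GS W z - GS (W / p) z) ≤
      2 / 5 * (Real.log p / ((p : ℝ) - 1)) + C' * (1 / (p : ℝ)) := by
    intro p hp
    have hp' := (mem_PC _ _ _).mp hp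
    have hp1 : (1 : ℝ) < p := by exact_mod_cast hp'.1.1.one_lt
    have hp0 : (0 : ℝ) < p := by linarith
    have hlogp : Real.log p ≤ Real.log W := hp'.2.2.trans hWb
    have hWpos : 1 ≤ W := by
      by_contra hcon
      have : W = 0 := by omega
      rw [this] at hWb
      simp at hWb
      linarith
    have hpW : p ≤ W := by
      have h3 := (Real.log_le_log_iff hp0 (by exact_mod_cast hWpos)).mp hlogp
      exact_mod_cast h3
    obtain ⟨hd1, hd2, hd3⟩ := log_div_floor W p hp'.1.1.pos hpW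
    have h1 := GS_diff_le W z p
    have h2 := (hG W hWpos).2
    have h3 := (hG (W / p) hd1).1
    have h4 : GS W z - GS (W / p) z ≤ 2 / 5 * Real.log p + C' := by
      rw [hC']
      linarith
    have h5 := mul_le_mul_of_nonneg_left h4 (show 0 ≤ 1 / (p : ℝ) by positivity)
    refine h5.trans ?_
    have h6 : Real.log p / p ≤ Real.log p / ((p : ℝ) - 1) :=
      div_le_div_of_nonneg_left (Real.log_natCast_nonneg p) (by linarith) (by linarith)
    have e1 : 1 / (p : ℝ) * (2 / 5 * Real.log p + C') = 2 / 5 * (Real.log p / p) + C' * (1 / p) := by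
      ring
    rw [e1]
    linarith
  refine (Finset.sum_le_sum hterm).trans ?_
  rw [Finset.sum_add_distrib, ← Finset.mul_sum, ← Finset.mul_sum]
  have h1 := (hM1 0 (b * lam) (le_refl _) hbl.le).1
  obtain ⟨hn1, hn2, hn3⟩ := log_floor_exp (b * lam) hbl.le
  have h2 : ∑ p ∈ PC 0 (b * lam), 1 / (p : ℝ) ≤ ε * (b * lam) + C3 := by
    calc ∑ p ∈ PC 0 (b * lam), 1 / (p : ℝ) ≤ ∑ p ∈ PL ⌊Real.exp (b * lam)⌋₊, 1 / (p : ℝ) := by
          apply Finset.sum_le_sum_of_subset_of_nonneg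
          · intro p hp
            have hp' := (mem_PC _ _ _).mp hp
            rw [mem_PL]
            exact ⟨(le_exp_iff p hp'.1.1.pos _).mpr hp'.2.2, hp'.1.1⟩
          · intro _ _ _
            positivity
      _ ≤ ε * Real.log ⌊Real.exp (b * lam)⌋₊ + C3 := hrec _ hn1
      _ ≤ ε * (b * lam) + C3 := by
          have := mul_le_mul_of_nonneg_left hn3 hε0.le
          linarith
  have h3 := mul_le_mul_of_nonneg_left h2 hC'0.le
  have h4 : C' * (ε * (b * lam)) = 1 / 5 * η * lam := by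
    rw [hε]
    field_simp
  rw [div_le_iff₀ (by positivity)] at hlam2
  rw [sub_zero] at h1
  nlinarith

/-- one cell of small primes -/
lemma smallcell (N k0 kj : ℕ) (U Lj : ℝ) (hU : UpP N k0 U) (hLj : LowP N kj Lj) (hLU : Lj ≤ U)
    (ζ w s t : ℝ) (hζ : 0 < ζ) (hs : 0 < s) (hst : s ≤ t) (hw0 : 0 ≤ w) (htw : t ≤ w)
    (hk0 : w ≤ (k0 : ℝ) / N * ζ) (hkj : (kj : ℝ) / N * ζ ≤ w - t) (η : ℝ) (hη : 0 < η) :
    ∀ᶠ lam : ℝ in atTop,
      ∑ p ∈ PC (s * lam) (t * lam), (1 / (p : ℝ)) * (GS (wf (w * lam)) (zf (ζ * lam)) -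
        GS (wf (w * lam) / p) (zf (ζ * lam))) ≤
        2 / 5 * lam * ((ζ + η) * ((U - Lj + 2 * η) * (Real.log (t / s) + η))) := by
  have hl2 : 0 ≤ Real.log 2 := Real.log_nonneg (by norm_num)
  obtain ⟨z1, hz1⟩ := hU η hη 0
  obtain ⟨z2, hz2⟩ := hLj η hη ((kj : ℝ) / N * Real.log 2 + 2 * Real.log 2)
  have hkN : 0 ≤ (kj : ℝ) / N := by positivity
  have hkN0 : 0 ≤ (k0 : ℝ) / N := by positivity
  filter_upwards [Filter.eventually_ge_atTop 1, M2 s t hs hst η hη,
    Filter.eventually_ge_atTop (Real.log (z1 + 1) / ζ),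
    Filter.eventually_ge_atTop (Real.log (z2 + 1) / ζ),
    Filter.eventually_ge_atTop (Real.log 2 / η),
    Filter.eventually_ge_atTop (Real.log 2 / s)] with lam hlam1 hM hlam2 hlam3 hlam4 hlam5
  have hlam0 : 0 < lam := by linarith
  have hζl : 0 < ζ * lam := by positivity
  have hwl : 0 ≤ w * lam := by positivity
  obtain ⟨hW1, hW2, hW3⟩ := log_floor_exp (w * lam) hwl
  obtain ⟨hzz1, hzz2⟩ := log_zf (ζ * lam) hζl.le
  set W := wf (w * lam) with hW
  set z := zf (ζ * lam) with hz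
  have hWeq : W = ⌊Real.exp (w * lam)⌋₊ := rfl
  rw [← hWeq] at hW1 hW2 hW3
  have hbig : ∀ z' : ℕ, Real.log (z' + 1) / ζ ≤ lam → z' ≤ z := by
    intro z' h
    have h1 : Real.log (z' + 1) ≤ Real.log z := by
      rw [div_le_iff₀ hζ] at h
      linarith
    have hzpos : (0 : ℝ) < z := by
      rw [hz]
      unfold zf
      positivity
    have h2 := (Real.log_le_log_iff (by positivity) hzpos).mp h1
    have h3 : (z' : ℝ) ≤ z := by linarith
    exact_mod_cast h3
  have hGU := hz1 z (hbig z1 hlam2) W hW1 (by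
    have h1 : w * lam ≤ (k0 : ℝ) / N * (ζ * lam) := by
      rw [← mul_assoc]
      exact mul_le_mul_of_nonneg_right hk0 hlam0.le
    have h2 : (k0 : ℝ) / N * (ζ * lam) ≤ (k0 : ℝ) / N * Real.log z :=
      mul_le_mul_of_nonneg_left hzz1 hkN0
    linarith)
  have hlogz : Real.log z ≤ (ζ + η) * lam := by
    have : Real.log 2 ≤ η * lam := by
      rw [div_le_iff₀ hη] at hlam4
      linarith
    linarith
  have hlogz0 : 0 ≤ Real.log z := Real.log_natCast_nonneg z
  have hterm : ∀ p ∈ PC (s * lam) (t * lam), (1 / (p : ℝ)) * (GS W z - GS (W / p) z) ≤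
      (2 / 5 * ((ζ + η) * lam) * (U - Lj + 2 * η)) * (1 / ((p : ℝ) - 1)) := by
    intro p hp
    have hp' := (mem_PC _ _ _).mp hp
    have hp1 : (1 : ℝ) < p := by exact_mod_cast hp'.1.1.one_lt
    have hp0 : (0 : ℝ) < p := by linarith
    have hpW : p ≤ W := by
      have h3 : p ≤ ⌊Real.exp (t * lam)⌋₊ := (le_exp_iff p hp'.1.1.pos _).mpr hp'.2.2
      refine h3.trans ?_
      rw [hWeq]
      apply Nat.floor_le_floor
      rw [Real.exp_le_exp]
      exact mul_le_mul_of_nonneg_right htw hlam0.le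
    obtain ⟨hd1, hd2, hd3⟩ := log_div_floor W p hp'.1.1.pos hpW
    have hGL := hz2 z (hbig z2 hlam3) (W / p) hd1 (by
      have h1 : (kj : ℝ) / N * Real.log z ≤ (kj : ℝ) / N * (ζ * lam + Real.log 2) :=
        mul_le_mul_of_nonneg_left hzz2 hkN
      have h2 : (kj : ℝ) / N * (ζ * lam) ≤ (w - t) * lam := by
        rw [← mul_assoc]
        exact mul_le_mul_of_nonneg_right hkj hlam0.le
      have h3 := hp'.2.2
      linarith)
    have h1 : GS W z - GS (W / p) z ≤ 2 / 5 * Real.log z * (U - Lj + 2 * η) := by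
      have e1 : 2 / 5 * Real.log z * (U - Lj + 2 * η) =
          2 / 5 * Real.log z * (U + η) - 2 / 5 * Real.log z * (Lj - η) := by ring
      rw [e1]
      linarith
    have h2 : 2 / 5 * Real.log z * (U - Lj + 2 * η) ≤
        2 / 5 * ((ζ + η) * lam) * (U - Lj + 2 * η) := by
      apply mul_le_mul_of_nonneg_right _ (by linarith)
      linarith
    have h3 : 1 / (p : ℝ) ≤ 1 / ((p : ℝ) - 1) :=
      one_div_le_one_div_of_le (by linarith) (by linarith)
    have h4 : 0 ≤ 2 / 5 * ((ζ + η) * lam) * (U - Lj + 2 * η) := by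
      apply mul_nonneg (by positivity)
      linarith
    calc (1 / (p : ℝ)) * (GS W z - GS (W / p) z) ≤
          (1 / (p : ℝ)) * (2 / 5 * ((ζ + η) * lam) * (U - Lj + 2 * η)) :=
          mul_le_mul_of_nonneg_left (h1.trans h2) (by positivity)
      _ ≤ (1 / ((p : ℝ) - 1)) * (2 / 5 * ((ζ + η) * lam) * (U - Lj + 2 * η)) :=
          mul_le_mul_of_nonneg_right h3 h4
      _ = _ := by ring
  refine (Finset.sum_le_sum hterm).trans ?_
  rw [← Finset.mul_sum]
  have h5 : 0 ≤ 2 / 5 * ((ζ + η) * lam) * (U - Lj + 2 * η) := by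
    apply mul_nonneg (by positivity)
    linarith
  calc (2 / 5 * ((ζ + η) * lam) * (U - Lj + 2 * η)) * ∑ p ∈ PC (s * lam) (t * lam), 1 / ((p : ℝ) - 1)
      ≤ (2 / 5 * ((ζ + η) * lam) * (U - Lj + 2 * η)) * (Real.log (t / s) + η) :=
        mul_le_mul_of_nonneg_left hM.1 h5
    _ = _ := by ring

end Pool.Agent.Helper10.P3
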