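import Pool.Agent.Helper10.P3.Low3

/-! The lower bound sieve at a small sifting level: assembly. -/

namespace Pool.Agent.Helper10.P3

open Finset Filter Pool.Agent.Helper10 Pool.Agent.Helper10.P5 Pool.Agent.Helper10.P4

lemma PP_zf_eq (x : ℝ) : PP (zf x) = PC 0 x := by
  ext p
  rw [mem_PP_zf, mem_PC]
  constructor
  · rintro ⟨h1, h2⟩
    refine ⟨h1, Real.log_pos ?_, h2⟩
    exact_mod_cast h1.1.one_lt
  · rintro ⟨h1, _, h3⟩
    exact ⟨h1, h3⟩

lemma quad_aux (G Gm Gl D Dm : ℝ) (hGL : 0 < Gl) (h1 : Gl ≤ G) (h2 : G ≤ Gm) (hD : D ≤ Dm)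
    (hDm : 2 * Dm ≤ Gl) (hDm0 : 0 ≤ Dm) :
    1 / Gm - Dm / Gm ^ 2 ≤ 1 / G - (1 / G) ^ 2 * D := by
  have hG : 0 < G := lt_of_lt_of_le hGL h1
  have hGm : 0 < Gm := lt_of_lt_of_le hG h2
  have e1 : (1 / G) ^ 2 * D ≤ (1 / G) ^ 2 * Dm := mul_le_mul_of_nonneg_left hD (sq_nonneg _)
  have h3 : 1 / Gm ≤ 1 / G := one_div_le_one_div_of_le hG h2
  have h4 : 1 / G ≤ 1 / Gl := one_div_le_one_div_of_le hGL h1
  have h5 : Dm * (1 / G + 1 / Gm) ≤ 1 := by
    calc Dm * (1 / G + 1 / Gm) ≤ Dm * (1 / Gl + 1 / Gl) := by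
          apply mul_le_mul_of_nonneg_left _ hDm0
          linarith
      _ = 2 * Dm / Gl := by ring
      _ ≤ 1 := by
          rw [div_le_one hGL]
          exact hDm
  have h6 : 0 ≤ (1 / G - 1 / Gm) * (1 - Dm * (1 / G + 1 / Gm)) :=
    mul_nonneg (by linarith) (by linarith)
  have e2 : (1 / G - 1 / Gm) * (1 - Dm * (1 / G + 1 / Gm)) =
      (1 / G - (1 / G) ^ 2 * Dm) - (1 / Gm - Dm / Gm ^ 2) := by
    field_simp
    ring
  rw [e2] at h6
  linarith

/-- **Lower bound at the small sifting level.** -/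
theorem lowS (N k0 : ℕ) (U L0 : ℝ) (hU : UpP N k0 U) (hL : LowP N k0 L0) (hU0 : 0 < U)
    (ζ w b : ℝ) (hζ : 0 < ζ) (hb : 0 < b) (hbw : b < w) (hw : 2 * w + ζ ≤ 1) (hζw : ζ ≤ w)
    (hk0 : (k0 : ℝ) / N * ζ = w) (J : ℕ) (s : ℕ → ℝ) (hs : Monotone s) (hs0 : s 0 = b)
    (hsJ : s J = ζ) (kj : ℕ → ℕ) (Lj : ℕ → ℝ) (hLj : ∀ i ∈ range J, LowP N (kj i) (Lj i))
    (hLU : ∀ i ∈ range J, Lj i ≤ U) (hkj : ∀ i ∈ range J, (kj i : ℝ) / N * ζ ≤ w - s (i + 1))
    (d : ℝ) (hd : d = b + ζ * ∑ i ∈ range J, (U - Lj i) * Real.log (s (i + 1) / s i))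
    (hd2 : d < ζ * L0 / 2) (ε : ℝ) (hε : 0 < ε) :
    ∀ᶠ lam : ℝ in atTop, ∀ (ι : Type) (E : Finset ι) (F : ι → ℕ) (X : ℝ) (r : ℕ → ℝ),
      SD lam E F X r →
      X / (2 / 5 * lam) * (1 / (ζ * U) - d / (ζ * U) ^ 2 - ε) ≤
        ((sift E F (zf (ζ * lam))).card : ℝ) := by
  classical
  obtain ⟨C2, hC2, hlm⟩ := lm_yS_abs
  have hw0 : 0 ≤ w := by linarith
  have hl2 : 0 ≤ Real.log 2 := Real.log_nonneg (by norm_num)
  have hspos : ∀ i, 0 < s i := by
    intro i
    have := hs (Nat.zero_le i)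
    rw [hs0] at this
    linarith
  -- functions of eta
  set F1 : ℝ → ℝ := fun η => (b + η) + ∑ i ∈ range J, (ζ + η) *
    ((U - Lj i + 2 * η) * (Real.log (s (i + 1) / s i) + η)) with hF1
  set F2 : ℝ → ℝ := fun η => 1 / ((ζ + η) * (U + η)) - F1 η / ((ζ + η) * (U + η)) ^ 2 - η with hF2
  have hF10 : F1 0 = d := by
    simp only [hF1, add_zero, mul_zero]
    rw [hd, Finset.mul_sum]
  have hF1c : ContinuousAt F1 0 := by
    simp only [hF1]
    apply ContinuousAt.add
    · fun_prop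
    · apply tendsto_finsetSum
      intro i _
      have : ContinuousAt (fun η : ℝ => (ζ + η) *
        ((U - Lj i + 2 * η) * (Real.log (s (i + 1) / s i) + η))) 0 := by fun_prop
      exact this
  have hF2c : ContinuousAt F2 0 := by
    simp only [hF2]
    have h1 : (ζ + 0) * (U + 0) ≠ 0 := by
      rw [add_zero, add_zero]
      positivity
    have h2 : ((ζ + 0) * (U + 0)) ^ 2 ≠ 0 := pow_ne_zero _ h1
    fun_prop (disch := assumption)
  have hev1 := hF2c.eventually (lt_mem_nhds (show 1 / (ζ * U) - d / (ζ * U) ^ 2 - ε < F2 0 by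
    simp only [hF2, hF10, add_zero, sub_zero]
    linarith))
  have hF3c : ContinuousAt (fun η => 2 * F1 η - ζ * (L0 - η)) 0 := by
    apply ContinuousAt.sub
    · exact hF1c.const_mul 2
    · fun_prop
  have hev2 := hF3c.eventually (gt_mem_nhds (show (fun η => 2 * F1 η - ζ * (L0 - η)) 0 < 0 by
    simp only [hF10, sub_zero]
    linarith))
  have hd0 : 0 < d := by
    rw [hd]
    have : 0 ≤ ∑ i ∈ range J, (U - Lj i) * Real.log (s (i + 1) / s i) := by
      apply Finset.sum_nonneg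
      intro i hi
      apply mul_nonneg
      · linarith [hLU i hi]
      · apply Real.log_nonneg
        rw [le_div_iff₀ (hspos i), one_mul]
        exact hs (Nat.le_succ i)
    positivity
  have hL00 : 0 < L0 := by
    by_contra hcon
    push Not at hcon
    have : ζ * L0 ≤ 0 := mul_nonpos_of_nonneg_of_nonpos hζ.le hcon
    linarith
  have hev3 : ∀ᶠ η : ℝ in nhds 0, η < L0 / 2 := gt_mem_nhds (by positivity)
  obtain ⟨η, hη, hηpos⟩ := (((hev1.and hev2).and hev3).filter_mono nhdsWithin_le_nhds |>.and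
    (self_mem_nhdsWithin (s := Set.Ioi (0 : ℝ)))).exists
  have hη0 : 0 < η := hηpos
  obtain ⟨⟨hη1, hη2⟩, hη3⟩ := hη
  obtain ⟨z1, hz1⟩ := hU η hη0 0
  obtain ⟨z2, hz2⟩ := hL η hη0 ((k0 : ℝ) / N * Real.log 2 + Real.log 2)
  have hkN0 : 0 ≤ (k0 : ℝ) / N := by positivity
  have hcells : ∀ᶠ lam : ℝ in atTop, ∀ i ∈ range J,
      ∑ p ∈ PC (s i * lam) (s (i + 1) * lam), (1 / (p : ℝ)) * (GS (wf (w * lam)) (zf (ζ * lam)) -
        GS (wf (w * lam) / p) (zf (ζ * lam))) ≤
        2 / 5 * lam * ((ζ + η) * ((U - Lj i + 2 * η) * (Real.log (s (i + 1) / s i) + η))) := by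
    rw [Filter.eventually_all_finset]
    intro i hi
    have hi' := Finset.mem_range.mp hi
    apply smallcell N k0 (kj i) U (Lj i) hU (hLj i hi) (hLU i hi) ζ w (s i) (s (i + 1)) hζ (hspos i)
      (hs (Nat.le_succ i)) hw0 _ hk0.ge (hkj i hi) η hη0
    have h1 : s (i + 1) ≤ s J := hs (by omega)
    rw [hsJ] at h1
    linarith
  filter_upwards [Filter.eventually_ge_atTop 1, tiny b η hb hη0, hcells,
    Filter.eventually_ge_atTop (Real.log (z1 + 1) / ζ),
    Filter.eventually_ge_atTop (Real.log (z2 + 1) / ζ),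
    Filter.eventually_ge_atTop (Real.log 2 / η),
    Filter.eventually_ge_atTop (C2 ^ 2 * (2 / 5) / η),
    Filter.eventually_ge_atTop (Real.log 2 / (w - b))]
    with lam hlam1 htiny hcell hlam2 hlam3 hlam4 hlam5 hlam6
  intro ι E F X r hSD
  have hlam0 : 0 < lam := by linarith
  have hζl : 0 < ζ * lam := by positivity
  have hwl : 0 ≤ w * lam := by positivity
  obtain ⟨hW1, hW2, hW3⟩ := log_floor_exp (w * lam) hwl
  obtain ⟨hzz1, hzz2⟩ := log_zf (ζ * lam) hζl.le
  set W := wf (w * lam) with hW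
  set z := zf (ζ * lam) with hz
  have hWeq : W = ⌊Real.exp (w * lam)⌋₊ := rfl
  rw [← hWeq] at hW1 hW2 hW3
  have hbig : ∀ z' : ℕ, Real.log (z' + 1) / ζ ≤ lam → z' ≤ z := by
    intro z' h
    have h1 : Real.log (z' + 1) ≤ Real.log z := by
      rw [div_le_iff₀ hζ] at h
      linarith
    have hzpos : (0 : ℝ) < z := by
      rw [hz]
      unfold zf
      positivity
    have h2 := (Real.log_le_log_iff (by positivity) hzpos).mp h1
    have h3 : (z' : ℝ) ≤ z := by linarith
    exact_mod_cast h3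
  have hlogz : Real.log z ≤ (ζ + η) * lam := by
    have : Real.log 2 ≤ η * lam := by
      rw [div_le_iff₀ hη0] at hlam4
      linarith
    linarith
  have hlogz0 : 0 ≤ Real.log z := Real.log_natCast_nonneg z
  have hkz : (k0 : ℝ) / N * (ζ * lam) = w * lam := by rw [← mul_assoc, hk0]
  have hGU := hz1 z (hbig z1 hlam2) W hW1 (by
    have h2 : (k0 : ℝ) / N * (ζ * lam) ≤ (k0 : ℝ) / N * Real.log z :=
      mul_le_mul_of_nonneg_left hzz1 hkN0
    linarith)
  have hGL := hz2 z (hbig z2 hlam3) W hW1 (by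
    have h1 : (k0 : ℝ) / N * Real.log z ≤ (k0 : ℝ) / N * (ζ * lam + Real.log 2) :=
      mul_le_mul_of_nonneg_left hzz2 hkN0
    linarith)
  set G := GS W z with hG
  have hGm : G ≤ 2 / 5 * lam * ((ζ + η) * (U + η)) := by
    refine hGU.trans ?_
    calc 2 / 5 * Real.log z * (U + η) ≤ 2 / 5 * ((ζ + η) * lam) * (U + η) := by
          apply mul_le_mul_of_nonneg_right _ (by linarith)
          linarith
      _ = _ := by ring
  have hLη : 0 < L0 - η := by linarith
  have hGl : 2 / 5 * lam * (ζ * (L0 - η)) ≤ G := by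
    refine le_trans ?_ hGL
    calc 2 / 5 * lam * (ζ * (L0 - η)) = 2 / 5 * (ζ * lam) * (L0 - η) := by ring
      _ ≤ 2 / 5 * Real.log z * (L0 - η) := by
          apply mul_le_mul_of_nonneg_right _ hLη.le
          linarith
  -- sum over small primes
  set D : ℝ := ∑ p ∈ PP z, (1 / (p : ℝ)) * (G - GS (W / p) z) with hD
  have hDle : D ≤ 2 / 5 * lam * F1 η := by
    rw [hD, hz, PP_zf_eq, ← hz]
    have hbζ : b ≤ ζ := by
      rw [← hs0, ← hsJ]
      exact hs (Nat.zero_le J)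
    rw [PC_split 0 (b * lam) (ζ * lam) (by positivity) (mul_le_mul_of_nonneg_right hbζ hlam0.le)]
    have htel := PC_telescope (fun i => s i * lam) (fun i j hij =>
      mul_le_mul_of_nonneg_right (hs hij) hlam0.le) J
      (fun p => (1 / (p : ℝ)) * (G - GS (W / p) z))
    simp only [hs0, hsJ] at htel
    rw [htel]
    have h1 := htiny W z (by
      have h3 : Real.log 2 ≤ lam * (w - b) := by
        rw [div_le_iff₀ (by linarith)] at hlam6
        exact hlam6
      linarith)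
    have h2 := Finset.sum_le_sum hcell
    have e1 : 2 / 5 * lam * F1 η = 2 / 5 * lam * (b + η) + ∑ i ∈ range J, 2 / 5 * lam *
        ((ζ + η) * ((U - Lj i + 2 * η) * (Real.log (s (i + 1) / s i) + η))) := by
      simp only [hF1]
      rw [mul_add, Finset.mul_sum]
    rw [e1]
    exact add_le_add h1 h2
  have hF1pos : 0 ≤ F1 η := by
    simp only [hF1]
    have : 0 ≤ ∑ i ∈ range J, (ζ + η) *
        ((U - Lj i + 2 * η) * (Real.log (s (i + 1) / s i) + η)) := by
      apply Finset.sum_nonneg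
      intro i hi
      have h1 := hLU i hi
      have h2 : 0 ≤ Real.log (s (i + 1) / s i) := by
        apply Real.log_nonneg
        rw [le_div_iff₀ (hspos i), one_mul]
        exact hs (Nat.le_succ i)
      apply mul_nonneg (by positivity)
      exact mul_nonneg (by linarith) (by linarith)
    positivity
  -- the sieve
  set B : ℝ := C2 * lam ^ 2 with hB
  have hw1 : w ≤ 1 := by linarith
  have hBle : ∀ d ∈ DD W, |lm W (yS W z) d| ≤ B := fun d hd => hlm lam w hlam1 hw0 hw1 z d hd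
  have hz1' : 1 ≤ z := by
    rw [hz]
    unfold zf
    omega
  have hyz : ∀ k, W < k → yS W z k = 0 := by
    intro k hk
    unfold yS
    rw [if_neg]
    rintro ⟨h4, _⟩
    omega
  have hlow := low4 E F X hSD.X0 r hSD.r0 hSD.hr W z hz1' (yS W z) hyz B hBle
  have hcard : ∑ e ∈ sift E F z, wt5 W (yS W z) (F e) ^ 2 = ((sift E F z).card : ℝ) := by
    have : ∀ e ∈ sift E F z, wt5 W (yS W z) (F e) ^ 2 = 1 := by
      intro e he
      unfold sift at he
      rw [Finset.mem_filter] at he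
      rw [wt5_yS W z (F e) hW1 he.2]
      norm_num
    rw [Finset.sum_congr rfl this]
    simp
  rw [hcard, yS_Q0 W z hW1, ← hG] at hlow
  have hsum : ∑ p ∈ PP z, (1 / (p : ℝ)) *
      ∑ k ∈ DD W, (yS W z k - yS W z (k * p)) ^ 2 / (Nat.totient k : ℝ) = (1 / G) ^ 2 * D := by
    rw [hD, Finset.mul_sum]
    apply Finset.sum_congr rfl
    intro p hp
    rw [mem_PP] at hp
    rw [yS_diff W z p hp.2.1 hp.1, ← hG]
    ring
  rw [hsum] at hlow
  have herr : B ^ 2 * errTot r (W * W * z) ≤ X / (2 / 5 * lam) * η := by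
    have h2 : ((W * W * z : ℕ) : ℝ) ≤ 2 * Real.exp lam := by
      push_cast
      have a1 : (W : ℝ) ≤ Real.exp (w * lam) := Nat.floor_le (Real.exp_pos _).le
      have a2 : (z : ℝ) ≤ 2 * Real.exp (ζ * lam) := by
        rw [hz]
        unfold zf
        push_cast
        have a4 : (⌊Real.exp (ζ * lam)⌋₊ : ℝ) ≤ Real.exp (ζ * lam) := Nat.floor_le (Real.exp_pos _).le
        have a5 : (1 : ℝ) ≤ Real.exp (ζ * lam) := Real.one_le_exp hζl.le
        linarith
      have a3 : Real.exp (w * lam) * Real.exp (w * lam) * Real.exp (ζ * lam) ≤ Real.exp lam := by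
        rw [← Real.exp_add, ← Real.exp_add, Real.exp_le_exp]
        have : (2 * w + ζ) * lam ≤ 1 * lam := mul_le_mul_of_nonneg_right hw hlam0.le
        linarith
      calc (W : ℝ) * W * (z : ℝ) ≤
            Real.exp (w * lam) * Real.exp (w * lam) * (2 * Real.exp (ζ * lam)) := by
            apply mul_le_mul _ a2 (Nat.cast_nonneg _) (by positivity)
            exact mul_le_mul a1 a1 (Nat.cast_nonneg _) (by positivity)
        _ = 2 * (Real.exp (w * lam) * Real.exp (w * lam) * Real.exp (ζ * lam)) := by ring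
        _ ≤ 2 * Real.exp lam := by linarith
    have h3 := hSD.err _ h2
    calc B ^ 2 * errTot r (W * W * z) ≤ B ^ 2 * (X / lam ^ 6) :=
          mul_le_mul_of_nonneg_left h3 (sq_nonneg _)
      _ = X / (2 / 5 * lam) * (C2 ^ 2 * (2 / 5) / lam) := by
          rw [hB]
          field_simp
      _ ≤ X / (2 / 5 * lam) * η := by
          apply mul_le_mul_of_nonneg_left _ (div_nonneg hSD.X0 (by positivity))
          rw [div_le_iff₀ hlam0]
          rw [div_le_iff₀ hη0] at hlam5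
          linarith
  have hq := quad_aux G (2 / 5 * lam * ((ζ + η) * (U + η))) (2 / 5 * lam * (ζ * (L0 - η))) D
    (2 / 5 * lam * F1 η) (by positivity) hGl hGm hDle (by
      have h6 : 2 * F1 η ≤ ζ * (L0 - η) := by linarith
      have h7 := mul_le_mul_of_nonneg_left h6 (show 0 ≤ 2 / 5 * lam by positivity)
      linarith) (by positivity)
  have hq2 : 1 / (2 / 5 * lam * ((ζ + η) * (U + η))) - 2 / 5 * lam * F1 η /
      (2 / 5 * lam * ((ζ + η) * (U + η))) ^ 2 = 1 / (2 / 5 * lam) * (F2 η + η) := by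
    simp only [hF2]
    have h1 : ζ + η ≠ 0 := by positivity
    have h2 : U + η ≠ 0 := by positivity
    field_simp
    ring
  rw [hq2] at hq
  have h8 := mul_le_mul_of_nonneg_left hq hSD.X0
  have h9 : X * (1 / (2 / 5 * lam) * (F2 η + η)) = X / (2 / 5 * lam) * F2 η + X / (2 / 5 * lam) * η := by
    ring
  rw [h9] at h8
  have h10 : X / (2 / 5 * lam) * (1 / (ζ * U) - d / (ζ * U) ^ 2 - ε) ≤ X / (2 / 5 * lam) * F2 η :=
    mul_le_mul_of_nonneg_left hη1.le (div_nonneg hSD.X0 (by positivity))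
  linarith

end Pool.Agent.Helper10.P3
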