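import Pool.Agent.Helper10.P3.Num3

/-! The table for the smooth sums, and the numerical weighted sieve. -/

namespace Pool.Agent.Helper10.P3

open Finset Filter Pool.Agent.Helper10 Pool.Agent.Helper10.P5 Pool.Agent.Helper10.P4

namespace Num3

/-- real lower table -/
noncomputable def Lr (k : ℕ) : ℝ := (Ln k : ℝ) / SS

/-- real upper table -/
noncomputable def Ur (k : ℕ) : ℝ := (Un k : ℝ) / SS

lemma SS_pos : (0 : ℝ) < SS := by unfold SS; norm_num

lemma chk_facts (i : ℕ) (hi : i < 1900) : cp (i + 1) ≤ SS ∧ 0 < Ln (500 + i + 1) ∧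
    (i < 500 → (SS * (2 * i + 1) + 2 * (500 + i) * (500 + i + 1) * cp i ≤
      2 * (500 + i) * (500 + i + 1) * cp (i + 1)) ∧
    (cm (i + 1) * ((2 * (500 + i) + 1) * (500 + i) * (500 + i + 1)) +
      SS * 500 * (2 * (500 + i) + 1) ≤ SS * (2 * (500 + i) * (500 + i + 1)) +
      cm i * ((2 * (500 + i) + 1) * (500 + i) * (500 + i + 1)))) ∧
    (500 ≤ i → (500 * Un (i + 1) + (500 + i) * (500 + i + 1) * cp i ≤
      (500 + i) * (500 + i + 1) * cp (i + 1)) ∧
    ((500 + i) * (500 + i + 1) * cm (i + 1) ≤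
      (500 + i) * (500 + i + 1) * cm i + 500 * Ln i)) := by
  have h := chkAll_spec 1900 chk_ok i hi
  unfold chk at h
  by_cases h5 : i < 500
  · simp only [h5, if_true, Bool.and_eq_true, decide_eq_true_eq] at h
    exact ⟨h.1.1, h.1.2, fun _ => h.2, fun h6 => absurd h5 (by omega)⟩
  · simp only [h5, if_false, Bool.and_eq_true, decide_eq_true_eq] at h
    exact ⟨h.1.1, h.1.2, fun h6 => absurd h6 h5, fun _ => h.2⟩

lemma lc_le (i : ℕ) : lc 500 i ≤ (2 * (500 + (i : ℝ)) + 1) / (2 * (500 + i) * (500 + i + 1)) := by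
  unfold lc
  push_cast
  set n : ℝ := 500 + (i : ℝ) with hn
  have hn0 : 0 < n := by positivity
  have hx : 0 < (n + 1) / n := by positivity
  have hlog : 0 ≤ Real.log ((n + 1) / n) := by
    apply Real.log_nonneg
    rw [le_div_iff₀ hn0]
    linarith
  have h1 := Real.self_le_sinh_iff.mpr hlog
  rw [Real.sinh_log hx] at h1
  refine h1.trans (le_of_eq ?_)
  field_simp
  ring

lemma lc_ge (i : ℕ) : 2 / (2 * (500 + (i : ℝ)) + 1) ≤ lc 500 i := by
  unfold lc
  push_cast
  set n : ℝ := 500 + (i : ℝ) with hn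
  have hn0 : 0 < n := by positivity
  have h1 := Real.le_log_one_add_of_nonneg (x := 1 / n) (by positivity)
  have e1 : 1 + 1 / n = (n + 1) / n := by field_simp
  rw [e1] at h1
  refine le_trans (le_of_eq ?_) h1
  field_simp
  ring

lemma wc_eq (i : ℕ) : wc 500 i = 500 / ((500 + (i : ℝ)) * (500 + i + 1)) := by
  unfold wc
  push_cast
  ring

/-- the sum with the upper table -/
lemma sumP (m : ℕ) (hm : m ≤ 1900) :
    ∑ i ∈ range m, aw 500 (fun i => Ur (i + 1)) i ≤ (cp m : ℝ) / SS := by
  induction m with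
  | zero =>
    simp only [Finset.range_zero, Finset.sum_empty]
    have := SS_pos
    positivity
  | succ m ih =>
    rw [Finset.sum_range_succ]
    have ih' := ih (by omega)
    obtain ⟨-, -, h1, h2⟩ := chk_facts m (by omega)
    have hS := SS_pos
    have key : aw 500 (fun i => Ur (i + 1)) m ≤ ((cp (m + 1) : ℝ) - cp m) / SS := by
      unfold aw
      by_cases h5 : m < 500
      · rw [if_pos h5]
        have h3 := (h1 h5).1
        have h3' : (SS : ℝ) * (2 * m + 1) + 2 * (500 + m) * (500 + m + 1) * cp m ≤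
          2 * (500 + m) * (500 + m + 1) * cp (m + 1) := by exact_mod_cast h3
        have h4 := lc_le m
        rw [wc_eq]
        rw [le_div_iff₀ hS]
        have h5 : lc 500 m - 500 / ((500 + (m : ℝ)) * (500 + m + 1)) ≤
            (2 * m + 1) / (2 * (500 + m) * (500 + m + 1)) := by
          refine (sub_le_sub_right h4 _).trans (le_of_eq ?_)
          field_simp
          ring
        refine (mul_le_mul_of_nonneg_right h5 hS.le).trans ?_
        rw [div_mul_eq_mul_div, div_le_iff₀ (by positivity)]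
        linarith
      · rw [if_neg h5]
        have h3 := (h2 (by omega)).1
        have h3' : 500 * (Un (m + 1) : ℝ) + (500 + m) * (500 + m + 1) * cp m ≤
          (500 + m) * (500 + m + 1) * cp (m + 1) := by exact_mod_cast h3
        unfold Ur
        rw [wc_eq, le_div_iff₀ hS]
        have e : (Un (m + 1) : ℝ) / SS * (500 / ((500 + m) * (500 + m + 1))) * SS =
          500 * Un (m + 1) / ((500 + m) * (500 + m + 1)) := by field_simp
        rw [e, div_le_iff₀ (by positivity)]
        linarith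
    calc _ ≤ (cp m : ℝ) / SS + ((cp (m + 1) : ℝ) - cp m) / SS := add_le_add ih' key
      _ = _ := by ring

lemma cm_zero : cm 0 = 0 := by decide +kernel

/-- the sum with the lower table -/
lemma sumM (m : ℕ) (hm : m ≤ 1900) :
    (cm m : ℝ) / SS ≤ ∑ i ∈ range m, aw 500 Lr i := by
  induction m with
  | zero =>
    rw [cm_zero]
    simp
  | succ m ih =>
    rw [Finset.sum_range_succ]
    have ih' := ih (by omega)
    obtain ⟨-, -, h1, h2⟩ := chk_facts m (by omega)
    have hS := SS_pos
    have key : ((cm (m + 1) : ℝ) - cm m) / SS ≤ aw 500 Lr m := by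
      unfold aw
      by_cases h5 : m < 500
      · rw [if_pos h5]
        have h3 := (h1 h5).2
        have h3' : (cm (m + 1) : ℝ) * ((2 * (500 + m) + 1) * (500 + m) * (500 + m + 1)) +
          SS * 500 * (2 * (500 + m) + 1) ≤ SS * (2 * (500 + m) * (500 + m + 1)) +
          cm m * ((2 * (500 + m) + 1) * (500 + m) * (500 + m + 1)) := by exact_mod_cast h3
        have h4 := lc_ge m
        rw [wc_eq]
        rw [div_le_iff₀ hS]
        have h5 : 2 / (2 * (500 + (m : ℝ)) + 1) - 500 / ((500 + (m : ℝ)) * (500 + m + 1)) ≤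
            lc 500 m - 500 / ((500 + (m : ℝ)) * (500 + m + 1)) := sub_le_sub_right h4 _
        refine le_trans ?_ (mul_le_mul_of_nonneg_right h5 hS.le)
        have e : (2 / (2 * (500 + (m : ℝ)) + 1) - 500 / ((500 + (m : ℝ)) * (500 + m + 1))) * SS =
          (SS * (2 * (500 + m) * (500 + m + 1)) - SS * 500 * (2 * (500 + m) + 1)) /
          ((2 * (500 + m) + 1) * (500 + m) * (500 + m + 1)) := by
          field_simp
        rw [e, le_div_iff₀ (by positivity)]
        linarith
      · rw [if_neg h5]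
        have h3 := (h2 (by omega)).2
        have h3' : (500 + (m : ℝ)) * (500 + m + 1) * cm (m + 1) ≤
          (500 + m) * (500 + m + 1) * cm m + 500 * Ln m := by exact_mod_cast h3
        unfold Lr
        rw [wc_eq, div_le_iff₀ hS]
        have e : (Ln m : ℝ) / SS * (500 / ((500 + m) * (500 + m + 1))) * SS =
          500 * Ln m / ((500 + m) * (500 + m + 1)) := by field_simp
        rw [e, le_div_iff₀ (by positivity)]
        linarith
    calc _ = (cm m : ℝ) / SS + ((cm (m + 1) : ℝ) - cm m) / SS := by ring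
      _ ≤ _ := add_le_add ih' key

lemma Ln_le (m : ℕ) (hm : m ≤ 1900) :
    Lr (500 + m) ≤ ((500 + m : ℕ) : ℝ) / (500 : ℕ) * (1 - (cp m : ℝ) / SS) := by
  have hS := SS_pos
  rcases Nat.eq_zero_or_pos m with h | h
  · subst h
    have h0 : cp 0 = 0 := by decide +kernel
    have h1 : Ln 500 = SS := by decide +kernel
    unfold Lr
    simp only [add_zero, h0, h1]
    rw [div_self hS.ne']
    norm_num
  · obtain ⟨i, rfl⟩ : ∃ i, m = i + 1 := ⟨m - 1, by omega⟩
    have h1 := (chk_facts i (by omega)).1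
    unfold Lr Ln
    rw [if_neg (by omega)]
    have e : 500 + (i + 1) - 500 = i + 1 := by omega
    rw [e]
    have h2 := Nat.div_mul_le_self ((500 + (i + 1)) * (SS - cp (i + 1))) 500
    have h3 : ((((500 + (i + 1)) * (SS - cp (i + 1)) / 500 : ℕ) : ℝ)) * 500 ≤
        ((500 + (i + 1) : ℕ) : ℝ) * ((SS : ℝ) - cp (i + 1)) := by
      rw [← Nat.cast_sub h1]
      exact_mod_cast h2
    rw [div_le_iff₀ hS]
    have e2 : ((500 + (i + 1) : ℕ) : ℝ) / (500 : ℕ) * (1 - (cp (i + 1) : ℝ) / SS) * SS =
      ((500 + (i + 1) : ℕ) : ℝ) * ((SS : ℝ) - cp (i + 1)) / 500 := by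
      push_cast
      field_simp
    rw [e2, le_div_iff₀ (by norm_num)]
    exact h3

lemma Un_ge (m : ℕ) :
    ((500 + m : ℕ) : ℝ) / (500 : ℕ) * (1 - (cm m : ℝ) / SS) ≤ Ur (500 + m) := by
  have hS := SS_pos
  rcases Nat.eq_zero_or_pos m with h | h
  · subst h
    have h0 : cm 0 = 0 := by decide +kernel
    have h1 : Un 500 = SS := by decide +kernel
    unfold Ur
    simp only [add_zero, h0, h1]
    rw [div_self hS.ne']
    norm_num
  · unfold Ur Un
    rw [if_neg (by omega)]
    have e : 500 + m - 500 = m := by omega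
    rw [e]
    have h2 : (500 + m) * (SS - cm m) < 500 * ((500 + m) * (SS - cm m) / 500 + 1) :=
      Nat.lt_mul_div_succ _ (by norm_num)
    have h4 : (SS : ℝ) - cm m ≤ ((SS - cm m : ℕ) : ℝ) := by
      have : SS ≤ (SS - cm m) + cm m := by omega
      have : (SS : ℝ) ≤ ((SS - cm m : ℕ) : ℝ) + cm m := by exact_mod_cast this
      linarith
    have h3 : ((500 + m : ℕ) : ℝ) * ((SS - cm m : ℕ) : ℝ) ≤
        500 * (((500 + m) * (SS - cm m) / 500 + 1 : ℕ) : ℝ) := by
      exact_mod_cast h2.le
    have h5 := mul_le_mul_of_nonneg_left h4 (Nat.cast_nonneg (α := ℝ) (500 + m))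
    rw [le_div_iff₀ hS]
    have e2 : ((500 + m : ℕ) : ℝ) / (500 : ℕ) * (1 - (cm m : ℝ) / SS) * SS =
      ((500 + m : ℕ) : ℝ) * ((SS : ℝ) - cm m) / 500 := by
      push_cast
      field_simp
    rw [e2, div_le_iff₀ (by norm_num)]
    linarith

theorem table3 : ∀ k ≤ 2400, LowP 500 k (Lr k) ∧ UpP 500 k (Ur k) := by
  have hS := SS_pos
  apply table 500 2400 (by norm_num) Lr Ur
  · intro k hk
    unfold Lr Ln
    rw [if_pos hk]
    unfold SS
    push_cast
    rw [div_le_div_iff₀ (by norm_num) (by norm_num)]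
    linarith
  · intro k hk
    unfold Ur Un
    rw [if_pos hk]
    unfold SS
    push_cast
    rw [div_le_div_iff₀ (by norm_num) (by norm_num)]
    linarith
  · intro m hm
    refine (Ln_le m (by omega)).trans ?_
    apply mul_le_mul_of_nonneg_left _ (by positivity)
    linarith [sumP m (by omega)]
  · intro m hm
    refine le_trans ?_ (Un_ge m)
    apply mul_le_mul_of_nonneg_left _ (by positivity)
    linarith [sumM m (by omega)]

end Num3

end Pool.Agent.Helper10.P3
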