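import Pool.Agent.Helper10.P3.Num3b

/-! The numerical weighted sieve. -/

namespace Pool.Agent.Helper10.P3

open Finset Filter Pool.Agent.Helper10 Pool.Agent.Helper10.P5 Pool.Agent.Helper10.P4

namespace Num3

lemma Ln_pos (k : ℕ) (h1 : 1 ≤ k) (h2 : k ≤ 2400) : 0 < Ln k := by
  by_cases h : k ≤ 500
  · unfold Ln
    rw [if_pos h]
    omega
  · have h3 := (chk_facts (k - 501) (by omega)).2.1
    have e : 500 + (k - 501) + 1 = k := by omega
    rwa [e] at h3

lemma Lr_pos (k : ℕ) (h1 : 1 ≤ k) (h2 : k ≤ 2400) : 0 < Lr k := by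
  unfold Lr
  have := Ln_pos k h1 h2
  have h3 : (0 : ℝ) < Ln k := by exact_mod_cast this
  exact div_pos h3 SS_pos

lemma ceil_bound (a b : ℕ) (hb : 0 < b) :
    (a : ℝ) / b ≤ ((a * 10 ^ 12 / b + 1 : ℕ) : ℝ) / 10 ^ 12 := by
  have hbR : (0 : ℝ) < b := by exact_mod_cast hb
  rw [div_le_div_iff₀ hbR (by positivity)]
  have h := (Nat.lt_mul_div_succ (a * 10 ^ 12) hb).le
  have h' : (a : ℝ) * 10 ^ 12 ≤ b * ((a * 10 ^ 12 / b + 1 : ℕ) : ℝ) := by exact_mod_cast h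
  linarith

/-- term of the first sum -/
def t2 (k : ℕ) : ℕ := 2 * (2 * k + 2 + 500) * SS * 10 ^ 12 / (500 * (2 * k + 500) * Ln k) + 1

/-- partial sums -/
def s2 : ℕ → ℕ
  | 0 => 0
  | n + 1 => t2 (1120 + n) + s2 n

lemma s2_eq (n : ℕ) : ∑ k ∈ Ico 1120 (1120 + n), t2 k = s2 n := by
  induction n with
  | zero => simp [s2]
  | succ n ih =>
    rw [← add_assoc, Finset.sum_Ico_succ_top (by omega), ih, s2]
    ring

/-- term of the second sum -/
def t3 (j : ℕ) : ℕ :=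
  2 * (j + 1) * 2 * 2740 * SS * 10 ^ 12 / (2698 * (2696 - 2 * j) * 500 * Ln (21 + j)) + 1

/-- partial sums -/
def s3 : ℕ → ℕ
  | 0 => 0
  | n + 1 => t3 n + s3 n

lemma s3_eq (n : ℕ) : ∑ k ∈ Ico 21 (21 + n), t3 (k - 21) = s3 n := by
  induction n with
  | zero => simp [s3]
  | succ n ih =>
    rw [← add_assoc, Finset.sum_Ico_succ_top (by omega), ih, s3]
    have : 21 + n - 21 = n := by omega
    rw [this]
    ring

set_option maxRecDepth 100000 in
lemma s2_val : s2 1280 ≤ 2909700000000 := by decide +kernel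

set_option maxRecDepth 100000 in
lemma s3_val : s3 1099 ≤ 3670500000000 := by decide +kernel

lemma tt500 (k : ℕ) : tt 500 k = 500 / (2 * k + 500) := by
  unfold tt
  push_cast
  ring

lemma term2 (k : ℕ) (h1 : 1120 ≤ k) (h2 : k < 2400) :
    (tt 500 k - tt 500 (k + 1)) / (tt 500 (k + 1) * tt 500 (k + 1) * Lr k) ≤
      (t2 k : ℝ) / 10 ^ 12 := by
  have hL := Ln_pos k (by omega) (by omega)
  have hLR : (0 : ℝ) < Ln k := by exact_mod_cast hL
  have h := ceil_bound (2 * (2 * k + 2 + 500) * SS) (500 * (2 * k + 500) * Ln k) (by positivity)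
  unfold t2
  refine le_trans (le_of_eq ?_) h
  rw [tt500, tt500]
  unfold Lr
  have hS := SS_pos
  push_cast
  field_simp
  ring

lemma sum2 : ∑ k ∈ Ico 1120 2400, (tt 500 k - tt 500 (k + 1)) /
    (tt 500 (k + 1) * tt 500 (k + 1) * Lr k) ≤ 2.9097 := by
  have h1 : ∑ k ∈ Ico 1120 2400, (tt 500 k - tt 500 (k + 1)) /
    (tt 500 (k + 1) * tt 500 (k + 1) * Lr k) ≤ ∑ k ∈ Ico 1120 2400, (t2 k : ℝ) / 10 ^ 12 := by
    apply Finset.sum_le_sum
    intro k hk
    rw [Finset.mem_Ico] at hk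
    exact term2 k hk.1 hk.2
  refine h1.trans ?_
  rw [← Finset.sum_div, ← Nat.cast_sum]
  have h2 := s2_eq 1280
  have e : 1120 + 1280 = 2400 := by norm_num
  rw [e] at h2
  rw [h2, div_le_iff₀ (by positivity)]
  have h3 : ((s2 1280 : ℕ) : ℝ) ≤ ((2909700000000 : ℕ) : ℝ) := by exact_mod_cast s2_val
  refine h3.trans ?_
  norm_num

lemma ts500 (k : ℕ) : ts 500 1120 k = (2740 - 2 * (k : ℝ)) / 2740 := by
  unfold ts tt
  push_cast
  field_simp
  ring

lemma term3 (j : ℕ) (h2 : j < 1099) :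
    (1 - ts 500 1120 (21 + j + 1) / ts 500 1120 21) *
      ((ts 500 1120 (21 + j) - ts 500 1120 (21 + j + 1)) /
        (ts 500 1120 (21 + j + 1) * tt 500 1120 * Lr (21 + j))) ≤ (t3 j : ℝ) / 10 ^ 12 := by
  have hL := Ln_pos (21 + j) (by omega) (by omega)
  have hLR : (0 : ℝ) < Ln (21 + j) := by exact_mod_cast hL
  have h := ceil_bound (2 * (j + 1) * 2 * 2740 * SS) (2698 * (2696 - 2 * j) * 500 * Ln (21 + j)) (by
    apply Nat.mul_pos _ hL
    apply Nat.mul_pos _ (by norm_num)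
    apply Nat.mul_pos (by norm_num) (by omega))
  unfold t3
  refine le_trans (le_of_eq ?_) h
  rw [ts500, ts500, ts500, tt500]
  unfold Lr
  have hS := SS_pos
  have hj : (j : ℝ) < 1099 := by exact_mod_cast h2
  have e1 : ((2696 - 2 * j : ℕ) : ℝ) = 2696 - 2 * (j : ℝ) := by
    rw [Nat.cast_sub (by omega)]
    push_cast
    ring
  push_cast
  rw [e1]
  have h3 : (2696 : ℝ) - 2 * j ≠ 0 := by
    have : (0 : ℝ) < 2696 - 2 * j := by linarith
    exact this.ne'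
  have e2 : (2740 : ℝ) - 2 * (21 + j + 1) = 2696 - 2 * j := by ring
  have e3 : (2740 : ℝ) - 2 * 21 = 2698 := by norm_num
  rw [e2, e3]
  field_simp
  ring

lemma sum3 : ∑ k ∈ Ico 21 1120, (1 - ts 500 1120 (k + 1) / ts 500 1120 21) *
      ((ts 500 1120 k - ts 500 1120 (k + 1)) /
        (ts 500 1120 (k + 1) * tt 500 1120 * Lr k)) ≤ 3.6705 := by
  have h1 : ∑ k ∈ Ico 21 1120, (1 - ts 500 1120 (k + 1) / ts 500 1120 21) *
      ((ts 500 1120 k - ts 500 1120 (k + 1)) /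
        (ts 500 1120 (k + 1) * tt 500 1120 * Lr k)) ≤
      ∑ k ∈ Ico 21 1120, ((t3 (k - 21) : ℕ) : ℝ) / 10 ^ 12 := by
    apply Finset.sum_le_sum
    intro k hk
    rw [Finset.mem_Ico] at hk
    obtain ⟨j, rfl⟩ := Nat.exists_eq_add_of_le hk.1
    have e : 21 + j - 21 = j := by omega
    rw [e]
    exact term3 j (by omega)
  refine h1.trans ?_
  rw [← Finset.sum_div, ← Nat.cast_sum]
  have h2 := s3_eq 1099
  have e : 21 + 1099 = 1120 := by norm_num
  rw [e] at h2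
  rw [h2, div_le_iff₀ (by positivity)]
  have h3 : ((s3 1099 : ℕ) : ℝ) ≤ ((3670500000000 : ℕ) : ℝ) := by exact_mod_cast s3_val
  refine h3.trans ?_
  norm_num


end Num3

end Pool.Agent.Helper10.P3
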