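import Pool.Agent.Helper10.P3.Num3c

/-! The numerical weighted sieve. -/

namespace Pool.Agent.Helper10.P3

open Finset Filter Pool.Agent.Helper10 Pool.Agent.Helper10.P5 Pool.Agent.Helper10.P4

namespace Num3

/-- the small sifting exponent -/
lemma tt2400 : tt 500 2400 = 5 / 53 := by
  rw [tt500]
  norm_num

/-- cells for the small primes -/
noncomputable def sc (i : ℕ) : ℝ :=
  if i = 0 then 5 / 54272 else if i = 1 then 5 / 848 else if i = 2 then 5 / 212 else
    if i = 3 then 5 / 106 else 5 / 53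

lemma sc_mono : Monotone sc := by
  apply monotone_nat_of_le_succ
  intro n
  unfold sc
  rcases n with _ | _ | _ | _ | n
  · norm_num
  · norm_num
  · norm_num
  · norm_num
  · simp

/-- table positions -/
def kjs (i : ℕ) : ℕ := if i = 0 then 2368 else if i = 1 then 2275 else if i = 2 then 2150 else 1900

lemma Un_val : Un 2400 = 890801048266 := by decide +kernel
lemma Ln_val0 : Ln 2400 = 890052213811 := by decide +kernel
lemma Ln_val1 : Ln 2368 = 890039132216 := by decide +kernel
lemma Ln_val2 : Ln 2275 = 889974920025 := by decide +kernel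
lemma Ln_val3 : Ln 2150 = 889793846290 := by decide +kernel
lemma Ln_val4 : Ln 1900 = 888700474803 := by decide +kernel

lemma Ur_val : Ur 2400 = 890801048266 / 500000000000 := by
  unfold Ur SS
  rw [Un_val]
  norm_num
lemma Lr_val0 : Lr 2400 = 890052213811 / 500000000000 := by
  unfold Lr SS
  rw [Ln_val0]
  norm_num
lemma Lr_val1 : Lr 2368 = 890039132216 / 500000000000 := by
  unfold Lr SS
  rw [Ln_val1]
  norm_num
lemma Lr_val2 : Lr 2275 = 889974920025 / 500000000000 := by
  unfold Lr SS
  rw [Ln_val2]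
  norm_num
lemma Lr_val3 : Lr 2150 = 889793846290 / 500000000000 := by
  unfold Lr SS
  rw [Ln_val3]
  norm_num
lemma Lr_val4 : Lr 1900 = 888700474803 / 500000000000 := by
  unfold Lr SS
  rw [Ln_val4]
  norm_num

lemma kj_cases {P : ℕ → Prop} (h0 : P 0) (h1 : P 1) (h2 : P 2) (h3 : P 3) :
    ∀ i ∈ range 4, P i := by
  intro i hi
  rw [Finset.mem_range] at hi
  interval_cases i
  · exact h0
  · exact h1
  · exact h2
  · exact h3

theorem Q1low (ε : ℝ) (hε : 0 < ε) : ∀ᶠ lam : ℝ in atTop, ∀ (ι : Type) (E : Finset ι) (F : ι → ℕ)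
    (X : ℝ) (r : ℕ → ℝ), SD lam E F X r →
      X / (2 / 5 * lam) * (5.903 - ε) ≤ ((sift E F (zf (tt 500 2400 * lam))).card : ℝ) := by
  have hl4 : Real.log 4 = 2 * Real.log 2 := by
    rw [show (4 : ℝ) = 2 ^ 2 by norm_num, Real.log_pow]
    norm_num
  have hl64 : Real.log 64 = 6 * Real.log 2 := by
    rw [show (64 : ℝ) = 2 ^ 6 by norm_num, Real.log_pow]
    norm_num
  have hl := Real.log_two_lt_d9
  set d : ℝ := 5 / 54272 + 5 / 53 * ∑ i ∈ range 4, (Ur 2400 - Lr (kjs i)) *
    Real.log (sc (i + 1) / sc i) with hd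
  have hd' : d = 5 / 54272 + 5 / 53 * ((Ur 2400 - Lr 2368) * (6 * Real.log 2) +
      (Ur 2400 - Lr 2275) * (2 * Real.log 2) + (Ur 2400 - Lr 2150) * Real.log 2 +
      (Ur 2400 - Lr 1900) * Real.log 2) := by
    rw [hd]
    simp only [Finset.sum_range_succ, Finset.sum_range_zero, kjs, sc]
    norm_num
    rw [hl4, hl64]
  have hd2 : d ≤ 0.0019 := by
    rw [hd', Ur_val, Lr_val1, Lr_val2, Lr_val3, Lr_val4]
    norm_num
    linarith
  have hQ : 5.903 ≤ 1 / (tt 500 2400 * Ur 2400) - d / (tt 500 2400 * Ur 2400) ^ 2 := by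
    rw [hd', tt2400, Ur_val, Lr_val1, Lr_val2, Lr_val3, Lr_val4]
    norm_num
    linarith
  have h := lowS 500 2400 (Ur 2400) (Lr 2400) (table3 2400 (le_refl _)).2 (table3 2400 (le_refl _)).1
    (by rw [Ur_val]; norm_num) (tt 500 2400) (24 / 53) (5 / 54272) (by rw [tt2400]; norm_num)
    (by norm_num) (by norm_num) (by rw [tt2400]; norm_num) (by rw [tt2400]; norm_num)
    (by rw [tt2400]; norm_num) 4 sc sc_mono (by unfold sc; norm_num)
    (by rw [tt2400]; unfold sc; norm_num) kjs (fun i => Lr (kjs i)) (by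
      apply kj_cases
      · exact (table3 2368 (by norm_num)).1
      · exact (table3 2275 (by norm_num)).1
      · exact (table3 2150 (by norm_num)).1
      · exact (table3 1900 (by norm_num)).1)
    (by
      apply kj_cases
      · show Lr 2368 ≤ Ur 2400
        rw [Ur_val, Lr_val1]; norm_num
      · show Lr 2275 ≤ Ur 2400
        rw [Ur_val, Lr_val2]; norm_num
      · show Lr 2150 ≤ Ur 2400
        rw [Ur_val, Lr_val3]; norm_num
      · show Lr 1900 ≤ Ur 2400
        rw [Ur_val, Lr_val4]; norm_num)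
    (by
      rw [tt2400]
      apply kj_cases
      · unfold kjs sc; norm_num
      · unfold kjs sc; norm_num
      · unfold kjs sc; norm_num
      · unfold kjs sc; norm_num)
    d (by rw [hd, tt2400]) (by
      rw [tt2400, Lr_val0]
      norm_num
      linarith) ε hε
  filter_upwards [h, Filter.eventually_ge_atTop 1] with lam h1 hlam1
  intro ι E F X r hSD
  refine le_trans ?_ (h1 ι E F X r hSD)
  apply mul_le_mul_of_nonneg_left _ (div_nonneg hSD.X0 (by positivity))
  linarith

/-- **The numerical weighted sieve.** -/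
theorem abs3num : ∀ᶠ lam : ℝ in atTop, ∀ (ι : Type) (E : Finset ι) (F : ι → ℕ) (X : ℝ) (r : ℕ → ℝ),
      SD lam E F X r → X / (2 / 5 * lam) * 0.045 ≤ ∑ e ∈ sift E F (zf (25 / 137 * lam)),
        (1 - 0.803 * ∑ p ∈ (PC (25 / 137 * lam) (1349 / 1370 * lam)).filter (fun p => p ∣ F e),
          (1 - Real.log p / (1349 / 1370 * lam))) := by
  have e1 : tt 500 1120 = 25 / 137 := by
    rw [tt500]
    norm_num
  have e2 : ts 500 1120 21 = 1349 / 1370 := by
    rw [ts500]
    norm_num
  have h := abs3 500 2400 1120 21 (by norm_num) (by norm_num) (by norm_num) Lr (by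
    intro k hk
    rw [Finset.mem_Ico] at hk
    exact ⟨(table3 k (by omega)).1, Lr_pos k (by omega) (by omega)⟩)
    (by rw [e2]; norm_num) 5.903 Q1low 0.803 (by norm_num) 0.045 (by
      have h2 := sum2
      have h3 := sum3
      linarith)
  rw [e1, e2] at h
  exact h

end Num3

end Pool.Agent.Helper10.P3
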