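import Pool.Agent.Helper10.P3.T13

/-! Power saving for the first moment of the weighted digit products. -/

namespace Pool.Agent.Helper10.P3

open Finset Pool.Agent.Helper10 Pool.Agent.Helper10.P5 Pool.Agent.Helper10.P4

lemma GF3_blocks (κ T L G : ℕ) (α : ℝ) :
    GF3 κ T (Icc 1 (G * L)) α = ∏ i ∈ range G, GF3 κ T (Ioc (i * L) ((i + 1) * L)) α := by
  induction G with
  | zero => simp [GF3]
  | succ G ih =>
    rw [Finset.prod_range_succ, ← ih, ← GF3_union]
    · congr 1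
      ext t
      simp only [Finset.mem_union, Finset.mem_Icc, Finset.mem_Ioc]
      have : G * L ≤ (G + 1) * L := Nat.mul_le_mul_right L (by omega)
      omega
    · rw [Finset.disjoint_left]
      intro t ht ht'
      rw [Finset.mem_Icc] at ht
      rw [Finset.mem_Ioc] at ht'
      omega

/-- the pointwise inequality -/
lemma pointwise3 (κ T ℓ L G : ℕ) (hℓ : ℓ ≤ T) (hG : G * L ≤ ℓ) (l : ℝ) (hl : 0 < l) (α : ℝ) :
    GF3 κ T (Icc 1 T) α ≤ l * ∑ i ∈ range G, GF3 κ T (Icc 1 ℓ \ Ioc (i * L) ((i + 1) * L)) α +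
      (1 / l ^ (3 * G)) * GF3 κ T (Icc 1 (G * L)) α ^ 4 := by
  classical
  have hnn : ∀ J : Finset ℕ, 0 ≤ GF3 κ T J α := fun J => GF3_nonneg _ _ _ _
  have hsum0 : 0 ≤ ∑ i ∈ range G, GF3 κ T (Icc 1 ℓ \ Ioc (i * L) ((i + 1) * L)) α :=
    Finset.sum_nonneg fun _ _ => hnn _
  have h4 : 0 ≤ (1 / l ^ (3 * G)) * GF3 κ T (Icc 1 (G * L)) α ^ 4 := by
    have := hnn (Icc 1 (G * L))
    positivity
  by_cases h : ∃ i ∈ range G, GF3 κ T (Ioc (i * L) ((i + 1) * L)) α ≤ l
  · obtain ⟨i, hi, hle⟩ := h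
    have hi' := Finset.mem_range.mp hi
    have hsub : Ioc (i * L) ((i + 1) * L) ⊆ Icc 1 ℓ := by
      intro t ht
      rw [Finset.mem_Ioc] at ht
      rw [Finset.mem_Icc]
      have : (i + 1) * L ≤ G * L := Nat.mul_le_mul_right L (by omega)
      omega
    have e1 : GF3 κ T (Icc 1 ℓ) α = GF3 κ T (Icc 1 ℓ \ Ioc (i * L) ((i + 1) * L)) α *
        GF3 κ T (Ioc (i * L) ((i + 1) * L)) α := by
      rw [← GF3_union _ _ _ _ Finset.sdiff_disjoint]
      rw [Finset.sdiff_union_of_subset hsub]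
    have e2 : GF3 κ T (Icc 1 T) α ≤ GF3 κ T (Icc 1 ℓ) α :=
      GF3_anti _ _ _ _ (Finset.Icc_subset_Icc_right hℓ) _
    have e3 : GF3 κ T (Icc 1 ℓ) α ≤ GF3 κ T (Icc 1 ℓ \ Ioc (i * L) ((i + 1) * L)) α * l := by
      rw [e1]
      exact mul_le_mul_of_nonneg_left hle (hnn _)
    have e4 : GF3 κ T (Icc 1 ℓ \ Ioc (i * L) ((i + 1) * L)) α ≤
        ∑ i ∈ range G, GF3 κ T (Icc 1 ℓ \ Ioc (i * L) ((i + 1) * L)) α :=
      Finset.single_le_sum (f := fun i => GF3 κ T (Icc 1 ℓ \ Ioc (i * L) ((i + 1) * L)) α)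
        (fun _ _ => hnn _) hi
    have e5 := mul_le_mul_of_nonneg_left e4 hl.le
    linarith
  · push Not at h
    have h5 : l ^ G ≤ GF3 κ T (Icc 1 (G * L)) α := by
      rw [GF3_blocks]
      calc l ^ G = ∏ _i ∈ range G, l := by rw [Finset.prod_const, Finset.card_range]
        _ ≤ _ := Finset.prod_le_prod (fun _ _ => hl.le) (fun i hi => (h i hi).le)
    have h6 : GF3 κ T (Icc 1 T) α ≤ GF3 κ T (Icc 1 (G * L)) α :=
      GF3_anti _ _ _ _ (Finset.Icc_subset_Icc_right (hG.trans hℓ)) _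
    have h7 : GF3 κ T (Icc 1 (G * L)) α ≤
        (1 / l ^ (3 * G)) * GF3 κ T (Icc 1 (G * L)) α ^ 4 := by
      have h8 : (l ^ G) ^ 3 ≤ GF3 κ T (Icc 1 (G * L)) α ^ 3 :=
        pow_le_pow_left₀ (by positivity) h5 3
      rw [← pow_mul, mul_comm G 3] at h8
      have h9 : 0 < l ^ (3 * G) := by positivity
      rw [one_div, inv_mul_eq_div, le_div_iff₀ h9]
      have h10 := mul_le_mul_of_nonneg_left h8 (hnn (Icc 1 (G * L)))
      calc GF3 κ T (Icc 1 (G * L)) α * l ^ (3 * G) ≤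
            GF3 κ T (Icc 1 (G * L)) α * GF3 κ T (Icc 1 (G * L)) α ^ 3 := h10
        _ = _ := by ring
    have := mul_nonneg hl.le hsum0
    linarith

lemma c3_pow (e r : ℕ) (h : 65 * r ≤ 96 * e + 48) : (10 : ℝ) ^ r * (1 / 30) ^ e ≤ 10 := by
  have h1 : ((10 : ℝ) ^ r * (1 / 30) ^ e) ^ 65 ≤ 10 ^ 65 := by
    have h30 : (10 : ℝ) ^ 96 ≤ 30 ^ 65 := by norm_num
    calc ((10 : ℝ) ^ r * (1 / 30) ^ e) ^ 65 = 10 ^ (65 * r) * (1 / 30) ^ (65 * e) := by
          rw [mul_pow, ← pow_mul, ← pow_mul, mul_comm r 65, mul_comm e 65]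
      _ ≤ 10 ^ (96 * e + 48) * (1 / 30) ^ (65 * e) := by
          apply mul_le_mul_of_nonneg_right _ (by positivity)
          exact pow_le_pow_right₀ (by norm_num) h
      _ = 10 ^ 48 * ((10 ^ 96) ^ e * ((1 / 30) ^ 65) ^ e) := by
          rw [pow_add, ← pow_mul, ← pow_mul]
          ring
      _ ≤ 10 ^ 48 * ((30 ^ 65) ^ e * ((1 / 30) ^ 65) ^ e) := by
          apply mul_le_mul_of_nonneg_left _ (by positivity)
          apply mul_le_mul_of_nonneg_right _ (by positivity)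
          exact pow_le_pow_left₀ (by positivity) h30 e
      _ = 10 ^ 48 := by
          rw [← mul_pow, ← mul_pow]
          norm_num
      _ ≤ 10 ^ 65 := by norm_num
  exact le_of_pow_le_pow_left₀ (by norm_num) (by norm_num) h1

/-- the error part: sum of the complementary products -/
lemma sum_compl3 (κ T ℓ L G Qm D r : ℕ) (hκ : ∀ q : ℕ, q.Coprime 10 → q.Coprime κ)
    (hℓ : ℓ ≤ T) (hr : 65 * r + 65 * L ≤ 48 * ℓ)
    (S : Finset ℕ) (hSc : S.card ≤ 9 * 10 ^ r)
    (hS : ∀ q ∈ S, 0 < q ∧ q ≤ Qm ∧ q.Coprime 10)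
    (hD : ∀ n : ℕ, 1 ≤ n → n ≤ 18 * 10 ^ (2 * ℓ + 1) → tau n ≤ D) :
    ∑ q ∈ S, ∑ a ∈ AA q, ∑ i ∈ range G,
      GF3 κ T (Icc 1 ℓ \ Ioc (i * L) ((i + 1) * L)) ((a : ℝ) / q) ≤ G * (Qm * (90 + D)) := by
  classical
  have h1 : ∑ q ∈ S, ∑ a ∈ AA q, ∑ i ∈ range G,
      GF3 κ T (Icc 1 ℓ \ Ioc (i * L) ((i + 1) * L)) ((a : ℝ) / q) =
      ∑ i ∈ range G, ∑ q ∈ S, ∑ a ∈ AA q,
        GF3 κ T (Icc 1 ℓ \ Ioc (i * L) ((i + 1) * L)) ((a : ℝ) / q) := by
    rw [Finset.sum_comm]
    apply Finset.sum_congr rfl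
    intro q _
    rw [Finset.sum_comm]
  rw [h1]
  have h2 : ∀ i ∈ range G, ∑ q ∈ S, ∑ a ∈ AA q,
      GF3 κ T (Icc 1 ℓ \ Ioc (i * L) ((i + 1) * L)) ((a : ℝ) / q) ≤ Qm * (90 + D) := by
    intro i _
    refine (T13_gen κ T ℓ Qm D (Icc 1 ℓ \ Ioc (i * L) ((i + 1) * L)) hκ hℓ Finset.sdiff_subset S hS
      (fun n hn1 hn2 => (card_filter_dvd_le S n hn1).trans (hD n hn1 hn2))).trans ?_
    apply mul_le_mul_of_nonneg_left _ (by positivity)
    have h3 : ℓ - L ≤ (Icc 1 ℓ \ Ioc (i * L) ((i + 1) * L)).card := by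
      have h4 := Finset.le_card_sdiff (Ioc (i * L) ((i + 1) * L)) (Icc 1 ℓ)
      have h5 : (Ioc (i * L) ((i + 1) * L)).card = L := by
        rw [Nat.card_Ioc, add_mul, one_mul, Nat.add_sub_cancel_left]
      rw [Nat.card_Icc, h5, Nat.add_sub_cancel] at h4
      exact h4
    have h4 := c3_pow ((Icc 1 ℓ \ Ioc (i * L) ((i + 1) * L)).card / 2) r (by omega)
    have h5 : (S.card : ℝ) ≤ 9 * 10 ^ r := by exact_mod_cast hSc
    have h6 : (S.card : ℝ) * ((1 : ℝ) / 30) ^ ((Icc 1 ℓ \ Ioc (i * L) ((i + 1) * L)).card / 2) ≤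
        (9 * 10 ^ r) * (1 / 30) ^ ((Icc 1 ℓ \ Ioc (i * L) ((i + 1) * L)).card / 2) :=
      mul_le_mul_of_nonneg_right h5 (by positivity)
    linarith
  calc ∑ i ∈ range G, ∑ q ∈ S, ∑ a ∈ AA q,
        GF3 κ T (Icc 1 ℓ \ Ioc (i * L) ((i + 1) * L)) ((a : ℝ) / q)
      ≤ ∑ i ∈ range G, (Qm * (90 + D) : ℝ) := Finset.sum_le_sum h2
    _ = G * (Qm * (90 + D)) := by rw [Finset.sum_const, Finset.card_range, nsmul_eq_mul]


/-- **First moment over all moduli in a decimal block, digit weights.** -/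
theorem S_all3 (g : ℕ) (hg : 1 ≤ g) : ∃ C θ : ℝ, 0 < C ∧ 0 < θ ∧ θ < 1 ∧
    ∀ κ T r : ℕ, (∀ q : ℕ, q.Coprime 10 → q.Coprime κ) → 65 * r + 65 * (r / g) ≤ 48 * T →
      ∑ q ∈ QT r, ∑ a ∈ AA q, GF3 κ T (Icc 1 T) ((a : ℝ) / q) ≤ C * (10 * θ) ^ r := by
  classical
  obtain ⟨σ, μ, θ, hσ0, hσ1, hμ1, hθ0, hθ1, hσμ, hdec⟩ := decay_gen (97 / 100) (by norm_num)
    (by norm_num) g hg
  obtain ⟨C', hC'1, hτ⟩ := tau_le_pow μ hμ1
  set θ' : ℝ := max θ (97 / 100) with hθ'
  have hθ'0 : 0 < θ' := lt_max_of_lt_left hθ0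
  have hθ'1 : θ' < 1 := max_lt hθ1 (by norm_num)
  have hθle : θ ≤ θ' := le_max_left _ _
  have hθle2 : 97 / 100 ≤ θ' := le_max_right _ _
  set C1 : ℝ := 2000 * g * C' + 1000 * 12 ^ g with hC1
  set C2 : ℝ := 10 ^ (2 * g + 2) / θ' ^ g with hC2
  refine ⟨C1 + C2, θ', by positivity, hθ'0, hθ'1, ?_⟩
  intro κ T r hκ hT
  have hS : ∀ q ∈ QT r, 0 < q ∧ q ≤ 10 ^ (r + 1) ∧ q.Coprime 10 := by
    intro q hq
    rw [mem_QT] at hq
    exact ⟨by omega, hq.1.2, hq.2⟩
  rcases Nat.lt_or_ge r g with hrg | hrg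
  · -- trivial bound
    have h1 : ∑ q ∈ QT r, ∑ a ∈ AA q, GF3 κ T (Icc 1 T) ((a : ℝ) / q) ≤ 10 ^ (2 * r + 2) := by
      calc ∑ q ∈ QT r, ∑ a ∈ AA q, GF3 κ T (Icc 1 T) ((a : ℝ) / q)
          ≤ ∑ q ∈ QT r, (10 : ℝ) ^ (r + 1) := by
            apply Finset.sum_le_sum
            intro q hq
            calc ∑ a ∈ AA q, GF3 κ T (Icc 1 T) ((a : ℝ) / q) ≤ ∑ a ∈ AA q, (1 : ℝ) :=
                  Finset.sum_le_sum fun _ _ => GF3_le_one _ _ _ _
              _ = (AA q).card := by simp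
              _ ≤ (q : ℝ) := by
                  have : (AA q).card ≤ q := by
                    unfold AA
                    refine (Finset.card_filter_le _ _).trans ?_
                    rw [Finset.card_range]
                  exact_mod_cast this
              _ ≤ 10 ^ (r + 1) := by exact_mod_cast (hS q hq).2.1
        _ = (QT r).card * (10 : ℝ) ^ (r + 1) := by rw [Finset.sum_const, nsmul_eq_mul]
        _ ≤ (9 * 10 ^ r) * (10 : ℝ) ^ (r + 1) := by
            apply mul_le_mul_of_nonneg_right _ (by positivity)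
            exact_mod_cast QT_card r
        _ ≤ 10 ^ (2 * r + 2) := by
            have : (10 : ℝ) ^ (2 * r + 2) = 10 * 10 ^ r * 10 ^ (r + 1) := by ring
            rw [this]
            apply mul_le_mul_of_nonneg_right _ (by positivity)
            have : (0 : ℝ) < 10 ^ r := by positivity
            linarith
    refine h1.trans ?_
    have h2 : (10 : ℝ) ^ (2 * r + 2) ≤ 10 ^ (2 * g + 2) := by
      apply pow_le_pow_right₀ (by norm_num)
      omega
    have h3 : C2 ≤ C2 * (10 * θ') ^ r / θ' ^ r * θ' ^ r := by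
      have : 0 < θ' ^ r := by positivity
      rw [div_mul_cancel₀ _ this.ne']
      have hC20 : 0 < C2 := by positivity
      have : (1 : ℝ) ≤ (10 * θ') ^ r := one_le_pow₀ (by linarith)
      nlinarith
    have h4 : (10 : ℝ) ^ (2 * g + 2) ≤ C2 * (10 * θ') ^ r := by
      have h5 : (1 : ℝ) ≤ (10 * θ') ^ r := one_le_pow₀ (by linarith)
      have h6 : (10 : ℝ) ^ (2 * g + 2) ≤ C2 := by
        rw [hC2, le_div_iff₀ (by positivity)]
        have : θ' ^ g ≤ 1 := pow_le_one₀ hθ'0.le hθ'1.le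
        have h10 : (0 : ℝ) < 10 ^ (2 * g + 2) := by positivity
        nlinarith
      have hC20 : 0 < C2 := by positivity
      nlinarith
    have h7 : 0 ≤ C1 * (10 * θ') ^ r := by positivity
    linarith
  · obtain ⟨L, hL⟩ : ∃ L, L = r / g := ⟨_, rfl⟩
    have hL1 : 1 ≤ L := by rw [hL]; exact (Nat.one_le_div_iff (by omega)).mpr hrg
    have hgL : r < g * (L + 1) := by rw [hL]; exact Nat.lt_mul_div_succ r (by omega)
    have hLr : g * L ≤ r := by rw [hL]; exact Nat.mul_div_le r g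
    have hLle : L ≤ r := by nlinarith
    have h1 := hdec r
    rw [← hL] at h1 hT
    obtain ⟨ℓ, hℓ⟩ : ∃ ℓ, ℓ = min T (3 * r) := ⟨_, rfl⟩
    have hℓT : ℓ ≤ T := by omega
    have hℓ3 : ℓ ≤ 3 * r := by omega
    have hℓr : 65 * r + 65 * L ≤ 48 * ℓ := by omega
    set D : ℕ := ⌊C' * μ ^ r⌋₊ with hDdef
    have hμr : (1 : ℝ) ≤ μ ^ r := one_le_pow₀ hμ1.le
    have hDle : (D : ℝ) ≤ C' * μ ^ r := Nat.floor_le (by positivity)
    have hD : ∀ n : ℕ, 1 ≤ n → n ≤ 18 * 10 ^ (2 * ℓ + 1) → tau n ≤ D := by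
      intro n hn1 hn2
      apply Nat.le_floor
      apply hτ r n hn1
      refine hn2.trans ?_
      apply Nat.mul_le_mul_left
      exact Nat.pow_le_pow_right (by norm_num) (by omega)
    -- pointwise inequality with `G = g` blocks
    have hGL : g * L ≤ ℓ := by omega
    set l : ℝ := (97 / 100) ^ L with hl
    have hl0 : 0 < l := by positivity
    have hpt := fun α => pointwise3 κ T ℓ L g hℓT hGL l hl0 α
    have h2 := sum_compl3 κ T ℓ L g (10 ^ (r + 1)) D r hκ hℓT hℓr (QT r) (QT_card r) hS hD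
    have h3 := LS43 κ T r (10 ^ (r + 1)) (18 * 10 ^ (2 * r + 1) + 1) (Icc 1 (g * L)) hκ (by omega)
      (Finset.Icc_subset_Icc_right hLr) (QT r) hS (Nat.one_le_pow _ _ (by norm_num)) (by
        rw [← pow_mul, show (r + 1) * 2 = (2 * r + 1) + 1 by ring, pow_succ]
        have : 0 < 10 ^ (2 * r + 1) := by positivity
        omega) (le_refl _)
    rw [Nat.card_Icc, Nat.add_sub_cancel] at h3
    have h4 : ∑ q ∈ QT r, ∑ a ∈ AA q, GF3 κ T (Icc 1 T) ((a : ℝ) / q) ≤
        l * ∑ q ∈ QT r, ∑ a ∈ AA q, ∑ i ∈ range g,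
          GF3 κ T (Icc 1 ℓ \ Ioc (i * L) ((i + 1) * L)) ((a : ℝ) / q) +
        (1 / l ^ (3 * g)) * ∑ q ∈ QT r, ∑ a ∈ AA q, GF3 κ T (Icc 1 (g * L)) ((a : ℝ) / q) ^ 4 := by
      rw [Finset.mul_sum, Finset.mul_sum, ← Finset.sum_add_distrib]
      apply Finset.sum_le_sum
      intro q _
      rw [Finset.mul_sum, Finset.mul_sum, ← Finset.sum_add_distrib]
      exact Finset.sum_le_sum fun a _ => hpt _
    -- first part
    have h5 : l * ∑ q ∈ QT r, ∑ a ∈ AA q, ∑ i ∈ range g,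
          GF3 κ T (Icc 1 ℓ \ Ioc (i * L) ((i + 1) * L)) ((a : ℝ) / q) ≤
        2000 * g * C' * (10 * θ') ^ r := by
      calc l * ∑ q ∈ QT r, ∑ a ∈ AA q, ∑ i ∈ range g,
          GF3 κ T (Icc 1 ℓ \ Ioc (i * L) ((i + 1) * L)) ((a : ℝ) / q)
          ≤ (1 / (97 / 100) * σ ^ r) * (g * ((10 ^ (r + 1) : ℕ) * (90 + D))) := by
            apply mul_le_mul h1 h2 _ (by positivity)
            apply Finset.sum_nonneg
            intro q _
            apply Finset.sum_nonneg
            intro a _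
            apply Finset.sum_nonneg
            intro i _
            exact GF3_nonneg _ _ _ _
        _ ≤ (2 * σ ^ r) * (g * ((10 * 10 ^ r) * (91 * (C' * μ ^ r)))) := by
            apply mul_le_mul
            · apply mul_le_mul_of_nonneg_right _ (by positivity)
              norm_num
            · apply mul_le_mul_of_nonneg_left _ (by positivity)
              push_cast
              rw [pow_succ']
              apply mul_le_mul_of_nonneg_left _ (by positivity)
              have : 1 ≤ C' * μ ^ r := by nlinarith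
              linarith
            · positivity
            · positivity
        _ = 1820 * g * C' * (10 * (σ * μ)) ^ r := by rw [mul_pow, mul_pow]; ring
        _ ≤ 2000 * g * C' * (10 * θ') ^ r := by
            apply mul_le_mul
            · have : (0 : ℝ) ≤ g * C' := by positivity
              nlinarith
            · apply pow_le_pow_left₀ (by positivity)
              rw [hσμ]
              linarith
            · positivity
            · positivity
    -- second part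
    have h6 : (1 / l ^ (3 * g)) * ∑ q ∈ QT r, ∑ a ∈ AA q,
        GF3 κ T (Icc 1 (g * L)) ((a : ℝ) / q) ^ 4 ≤ 1000 * 12 ^ g * (10 * θ') ^ r := by
      have e1 : l ^ (3 * g) = ((97 / 100 : ℝ) ^ 3) ^ (g * L) := by
        rw [hl, ← pow_mul, ← pow_mul]
        congr 1
        ring
      have e2 : (1 / l ^ (3 * g)) * (5 * ((18 * 10 ^ (2 * r + 1) + 1 : ℕ) : ℝ) *
          (71346 / 810000) ^ (g * L)) = 5 * ((18 * 10 ^ (2 * r + 1) + 1 : ℕ) : ℝ) *
          ((71346 / 810000) / (97 / 100) ^ 3) ^ (g * L) := by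
        rw [e1, div_pow (71346 / 810000 : ℝ)]
        ring
      calc (1 / l ^ (3 * g)) * ∑ q ∈ QT r, ∑ a ∈ AA q, GF3 κ T (Icc 1 (g * L)) ((a : ℝ) / q) ^ 4
          ≤ (1 / l ^ (3 * g)) * (5 * ((18 * 10 ^ (2 * r + 1) + 1 : ℕ) : ℝ) *
          (71346 / 810000) ^ (g * L)) := mul_le_mul_of_nonneg_left h3 (by positivity)
        _ = 5 * ((18 * 10 ^ (2 * r + 1) + 1 : ℕ) : ℝ) *
          ((71346 / 810000) / (97 / 100) ^ 3) ^ (g * L) := e2
        _ ≤ 5 * ((18 * 10 ^ (2 * r + 1) + 1 : ℕ) : ℝ) * ((97 / 1000) ^ r * 12 ^ g) := by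
            apply mul_le_mul_of_nonneg_left _ (by positivity)
            calc ((71346 / 810000 : ℝ) / (97 / 100) ^ 3) ^ (g * L) ≤ (97 / 1000) ^ (g * L) := by
                  apply pow_le_pow_left₀ (by norm_num)
                  norm_num
              _ ≤ (97 / 1000) ^ r * 12 ^ g := by
                  have h8 : ((97 : ℝ) / 1000) ^ (g * L) * (97 / 1000) ^ g ≤ (97 / 1000) ^ r := by
                    rw [← pow_add]
                    apply pow_le_pow_of_le_one (by norm_num) (by norm_num)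
                    have : g * (L + 1) = g * L + g := by ring
                    omega
                  have h9 : ((97 : ℝ) / 1000) ^ g * 12 ^ g = (1164 / 1000) ^ g := by
                    rw [← mul_pow]
                    norm_num
                  have h10 : (1 : ℝ) ≤ (1164 / 1000) ^ g := one_le_pow₀ (by norm_num)
                  have h11 : (0 : ℝ) < (97 / 1000) ^ (g * L) := by positivity
                  calc ((97 : ℝ) / 1000) ^ (g * L) ≤ (97 / 1000) ^ (g * L) * (1164 / 1000) ^ g := by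
                        nlinarith
                    _ = ((97 / 1000) ^ (g * L) * (97 / 1000) ^ g) * 12 ^ g := by rw [← h9]; ring
                    _ ≤ (97 / 1000) ^ r * 12 ^ g :=
                        mul_le_mul_of_nonneg_right h8 (by positivity)
        _ ≤ (1000 * (10 ^ r * 10 ^ r)) * ((97 / 1000) ^ r * 12 ^ g) := by
            apply mul_le_mul_of_nonneg_right _ (by positivity)
            push_cast
            have h12 : (1 : ℝ) ≤ 10 ^ r := one_le_pow₀ (by norm_num)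
            have h13 : (10 : ℝ) ^ (2 * r + 1) = 10 * (10 ^ r * 10 ^ r) := by ring
            rw [h13]
            nlinarith [mul_self_nonneg ((10 : ℝ) ^ r)]
        _ = 1000 * 12 ^ g * (10 * (97 / 100)) ^ r := by
            have h14 : ((10 : ℝ) ^ r * 10 ^ r) * (97 / 1000) ^ r = (10 * (97 / 100)) ^ r := by
              rw [← mul_pow, ← mul_pow]
              norm_num
            rw [← h14]
            ring
        _ ≤ 1000 * 12 ^ g * (10 * θ') ^ r := by
            apply mul_le_mul_of_nonneg_left _ (by positivity)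
            apply pow_le_pow_left₀ (by norm_num)
            linarith
    have h7 : 0 ≤ C2 * (10 * θ') ^ r := by positivity
    calc ∑ q ∈ QT r, ∑ a ∈ AA q, GF3 κ T (Icc 1 T) ((a : ℝ) / q)
        ≤ 2000 * g * C' * (10 * θ') ^ r + 1000 * 12 ^ g * (10 * θ') ^ r :=
          h4.trans (add_le_add h5 h6)
      _ = C1 * (10 * θ') ^ r := by rw [hC1]; ring
      _ ≤ (C1 + C2) * (10 * θ') ^ r := by rw [add_mul]; linarith


end Pool.Agent.Helper10.P3
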