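import Pool.Agent.Helper10.P3.Dig3

/-! First moment for the weighted digit products. -/

namespace Pool.Agent.Helper10.P3

open Finset Pool.Agent.Helper10 Pool.Agent.Helper10.P5 Pool.Agent.Helper10.P4

/-- coefficients of the Fejer kernels, shifted by `5` -/
noncomputable def b5 : ℕ → ℝ
  | 1 => 1 / 25
  | 2 => 2 / 25
  | 3 => 3 / 25
  | 4 => 4 / 25
  | 5 => 5 / 25
  | 6 => 4 / 25
  | 7 => 3 / 25
  | 8 => 2 / 25
  | 9 => 1 / 25
  | _ => 0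

noncomputable def b6 : ℕ → ℝ
  | 0 => 1 / 36
  | 1 => 2 / 36
  | 2 => 3 / 36
  | 3 => 4 / 36
  | 4 => 5 / 36
  | 5 => 6 / 36
  | 6 => 5 / 36
  | 7 => 4 / 36
  | 8 => 3 / 36
  | 9 => 2 / 36
  | 10 => 1 / 36
  | _ => 0

lemma b5_nonneg (k : ℕ) : 0 ≤ b5 k := by
  unfold b5
  split <;> norm_num

lemma b6_nonneg (k : ℕ) : 0 ≤ b6 k := by
  unfold b6
  split <;> norm_num

/-- coefficients at the distance `t` -/
noncomputable def bb3 (A B : Finset ℕ) (t k : ℕ) : ℝ :=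
  if t ∈ A then b5 k else if t ∈ B then b6 k else (if k = 5 then 1 else 0)

lemma bb3_nonneg (A B : Finset ℕ) (t k : ℕ) : 0 ≤ bb3 A B t k := by
  unfold bb3
  have h1 := b5_nonneg k
  have h2 := b6_nonneg k
  split_ifs <;> linarith

lemma bb3_sum (A B : Finset ℕ) (t : ℕ) : ∑ k ∈ range 11, bb3 A B t k = 1 := by
  unfold bb3
  split_ifs
  · simp only [Finset.sum_range_succ, Finset.sum_range_zero, b5]
    norm_num
  · simp only [Finset.sum_range_succ, Finset.sum_range_zero, b6]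
    norm_num
  · rw [Finset.sum_ite_eq', if_pos (by simp)]

/-- the majorant at the distance `t` -/
noncomputable def psi3 (A B : Finset ℕ) (t : ℕ) (x : ℝ) : ℝ :=
  if t ∈ A then p5 x ^ 2 else if t ∈ B then p6 x ^ 2 else 1

lemma psi3_nonneg (A B : Finset ℕ) (t : ℕ) (x : ℝ) : 0 ≤ psi3 A B t x := by
  unfold psi3
  split_ifs
  · positivity
  · positivity
  · norm_num

lemma ee_conj (x : ℝ) : (starRingEnd ℂ) (ee x) = (ee x)⁻¹ := by
  rw [← ee_neg]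
  have h : ee (-x) * ee x = 1 := by
    rw [← ee_add, neg_add_cancel, ee_zero]
  exact eq_inv_of_mul_eq_one_left h

lemma ee_ne (x : ℝ) : ee x ≠ 0 := by
  have := norm_ee x
  intro h
  rw [h] at this
  simp at this

lemma ee_shift (k : ℕ) (x : ℝ) : ee (((k : ℝ) - 5) * x) = ee x ^ k * ((ee x)⁻¹) ^ 5 := by
  rw [sub_mul, sub_eq_add_neg, ee_add, ee_nat_mul]
  congr 1
  have : ee (-(5 * x)) * ee (5 * x) = 1 := by
    rw [← ee_add, neg_add_cancel, ee_zero]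
  have h5 : ee (5 * x) = ee x ^ 5 := by
    have := ee_nat_mul 5 x
    exact_mod_cast this
  rw [h5] at this
  rw [inv_pow]
  exact eq_inv_of_mul_eq_one_left this

lemma p5_sq_expand (x : ℝ) :
    ((p5 x ^ 2 : ℝ) : ℂ) = ∑ k ∈ range 11, ((b5 k : ℝ) : ℂ) * ee (((k : ℝ) - 5) * x) := by
  have h5 : ∑ d ∈ range 5, ee ((d : ℝ) * x) = ∑ d ∈ range 5, ee x ^ d :=
    Finset.sum_congr rfl fun d _ => ee_nat_mul d x
  unfold p5
  rw [h5, div_pow]
  push_cast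
  rw [← Complex.ofReal_pow, ofReal_norm_sq, map_sum]
  simp only [map_pow, ee_conj, ee_shift]
  simp only [Finset.sum_range_succ, Finset.sum_range_zero, b5]
  have h := ee_ne x
  push_cast
  field_simp
  ring

lemma p6_sq_expand (x : ℝ) :
    ((p6 x ^ 2 : ℝ) : ℂ) = ∑ k ∈ range 11, ((b6 k : ℝ) : ℂ) * ee (((k : ℝ) - 5) * x) := by
  have h6 : ∑ d ∈ range 6, ee ((d : ℝ) * x) = ∑ d ∈ range 6, ee x ^ d :=
    Finset.sum_congr rfl fun d _ => ee_nat_mul d x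
  unfold p6
  rw [h6, div_pow]
  push_cast
  rw [← Complex.ofReal_pow, ofReal_norm_sq, map_sum]
  simp only [map_pow, ee_conj, ee_shift]
  simp only [Finset.sum_range_succ, Finset.sum_range_zero, b6]
  have h := ee_ne x
  push_cast
  field_simp
  ring

lemma psi3_expand (A B : Finset ℕ) (t : ℕ) (x : ℝ) :
    ((psi3 A B t x : ℝ) : ℂ) = ∑ k ∈ range 11, ((bb3 A B t k : ℝ) : ℂ) * ee (((k : ℝ) - 5) * x) := by
  unfold psi3 bb3
  split_ifs with h1 h2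
  · exact p5_sq_expand x
  · exact p6_sq_expand x
  · have h1 : ∀ k ∈ range 11, (((if k = 5 then 1 else 0 : ℝ)) : ℂ) * ee (((k : ℝ) - 5) * x) =
        if k = 5 then 1 else 0 := by
      intro k _
      split_ifs with h2
      · rw [h2]
        norm_num
        exact ee_zero
      · simp
    rw [Finset.sum_congr rfl h1, Finset.sum_ite_eq', if_pos (by simp)]
    norm_num

/-- product of the majorants -/
noncomputable def PG3 (κ T ℓ : ℕ) (A B : Finset ℕ) (α : ℝ) : ℝ :=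
  ∏ t ∈ Icc 1 ℓ, psi3 A B t (α * ((κ * ww 10 T t : ℕ) : ℝ))

lemma PG3_nonneg (κ T ℓ : ℕ) (A B : Finset ℕ) (α : ℝ) : 0 ≤ PG3 κ T ℓ A B α :=
  Finset.prod_nonneg fun _ _ => psi3_nonneg _ _ _ _

/-- total coefficient -/
noncomputable def cb3 (A B : Finset ℕ) (ℓ : ℕ) (f : Fin ℓ → ℕ) : ℝ :=
  ∏ i : Fin ℓ, bb3 A B ((i : ℕ) + 1) (f i)

lemma cb3_nonneg (A B : Finset ℕ) (ℓ : ℕ) (f : Fin ℓ → ℕ) : 0 ≤ cb3 A B ℓ f :=
  Finset.prod_nonneg fun _ _ => bb3_nonneg _ _ _ _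

lemma cb3_sum (A B : Finset ℕ) (ℓ : ℕ) : ∑ f ∈ KK ℓ 11, cb3 A B ℓ f = 1 := by
  unfold KK cb3
  rw [← Finset.prod_univ_sum (fun _ : Fin ℓ => range 11) (fun i k => bb3 A B ((i : ℕ) + 1) k)]
  apply Finset.prod_eq_one
  intro i _
  exact bb3_sum A B _

lemma cb3_five (A B : Finset ℕ) (ℓ : ℕ) (hA : A ⊆ Icc 1 ℓ) (hB : B ⊆ Icc 1 ℓ) (hAB : Disjoint A B) :
    cb3 A B ℓ (fun _ => 5) = (1 / 5) ^ A.card * (1 / 6) ^ B.card := by
  unfold cb3
  rw [← prod_Icc_fin ℓ (fun t => bb3 A B t 5)]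
  have h1 : ∀ t ∈ Icc 1 ℓ, bb3 A B t 5 = (if t ∈ A then (1 / 5 : ℝ) else 1) *
      (if t ∈ B then (1 / 6 : ℝ) else 1) := by
    intro t _
    unfold bb3
    by_cases h : t ∈ A
    · have h2 : t ∉ B := Finset.disjoint_left.mp hAB h
      simp only [if_pos h, if_neg h2, b5]
      norm_num
    · by_cases h2 : t ∈ B
      · simp only [if_neg h, if_pos h2, b6]
        norm_num
      · simp only [if_neg h, if_neg h2]
        norm_num
  rw [Finset.prod_congr rfl h1, Finset.prod_mul_distrib, Finset.prod_ite_mem, Finset.prod_ite_mem,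
    Finset.inter_eq_right.mpr hA, Finset.inter_eq_right.mpr hB, Finset.prod_const,
    Finset.prod_const]

lemma PG3_expand (κ T ℓ : ℕ) (A B : Finset ℕ) (hℓ : ℓ ≤ T) (α : ℝ) :
    ((PG3 κ T ℓ A B α : ℝ) : ℂ) = ∑ f ∈ KK ℓ 11, ((cb3 A B ℓ f : ℝ) : ℂ) *
      ee (α * (((κ * 10 ^ (T - ℓ) : ℕ) : ℝ) * ((vl ℓ f : ℝ) - (vl ℓ (fun _ => 5) : ℝ)))) := by
  have e2 : ∀ t ∈ Icc 1 ℓ, ((psi3 A B t (α * ((κ * ww 10 T t : ℕ) : ℝ)) : ℝ) : ℂ) =
      ∑ k ∈ range 11, ((bb3 A B t k : ℝ) : ℂ) *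
        ee (((k : ℝ) - 5) * (α * ((κ * 10 ^ (T - ℓ) * ww 10 ℓ t : ℕ) : ℝ))) := by
    intro t ht
    rw [psi3_expand]
    have h2 := ww_add_left 10 ℓ t (T - ℓ) (Finset.mem_Icc.mp ht).2
    rw [show ℓ + (T - ℓ) = T by omega] at h2
    rw [h2, ← mul_assoc]
  unfold PG3
  rw [Complex.ofReal_prod, Finset.prod_congr rfl e2, prod_Icc_fin]
  unfold KK cb3
  rw [Finset.prod_univ_sum (fun _ : Fin ℓ => range 11)]
  apply Finset.sum_congr rfl
  intro f _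
  rw [Finset.prod_mul_distrib]
  congr 1
  · push_cast
    rfl
  · rw [← ee_sum]
    congr 1
    unfold vl
    push_cast
    rw [← Finset.sum_sub_distrib, Finset.mul_sum, Finset.mul_sum]
    apply Finset.sum_congr rfl
    intro i _
    ring

lemma PG3_sum (κ T ℓ : ℕ) (A B : Finset ℕ) (hℓ : ℓ ≤ T) (q : ℕ) (hq : 0 < q)
    (hcop : q.Coprime (κ * 10 ^ (T - ℓ))) :
    ∑ a ∈ range q, PG3 κ T ℓ A B ((a : ℝ) / q) = q * ∑ f ∈ KK ℓ 11,
      if (q : ℤ) ∣ (vl ℓ f : ℤ) - (vl ℓ (fun _ => 5) : ℤ) then cb3 A B ℓ f else 0 := by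
  have hcop' : IsCoprime (q : ℤ) ((κ * 10 ^ (T - ℓ) : ℕ) : ℤ) := Nat.isCoprime_iff_coprime.mpr hcop
  have h1 : ((∑ a ∈ range q, PG3 κ T ℓ A B ((a : ℝ) / q) : ℝ) : ℂ) = ((q * ∑ f ∈ KK ℓ 11,
      (if (q : ℤ) ∣ (vl ℓ f : ℤ) - (vl ℓ (fun _ => 5) : ℤ) then cb3 A B ℓ f else 0) : ℝ) : ℂ) := by
    rw [Complex.ofReal_sum, Finset.sum_congr rfl (fun (a : ℕ) _ => PG3_expand κ T ℓ A B hℓ ((a : ℝ) / q)),
      Finset.sum_comm]
    rw [Complex.ofReal_mul, Complex.ofReal_sum, Finset.mul_sum]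
    apply Finset.sum_congr rfl
    intro f _
    rw [← Finset.mul_sum]
    have h2 := sum_ee_eq q hq (((κ * 10 ^ (T - ℓ) : ℕ) : ℤ) * ((vl ℓ f : ℤ) - (vl ℓ (fun _ => 5) : ℤ)))
    have h3 : ∀ a ∈ range q, ee ((a : ℝ) / q * (((κ * 10 ^ (T - ℓ) : ℕ) : ℝ) *
        ((vl ℓ f : ℝ) - (vl ℓ (fun _ => 5) : ℝ)))) = ee ((a : ℝ) *
        (((((κ * 10 ^ (T - ℓ) : ℕ) : ℤ) * ((vl ℓ f : ℤ) - (vl ℓ (fun _ => 5) : ℤ)) : ℤ) : ℝ) / q)) := by
      intro a _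
      congr 1
      push_cast
      ring
    rw [Finset.sum_congr rfl h3, h2]
    by_cases h : (q : ℤ) ∣ (vl ℓ f : ℤ) - (vl ℓ (fun _ => 5) : ℤ)
    · rw [if_pos h, if_pos (Dvd.dvd.mul_left h _)]
      push_cast
      ring
    · rw [if_neg h, if_neg (fun h' => h (hcop'.dvd_of_dvd_mul_left h'))]
      simp
  exact_mod_cast h1

/-- first moment of the product of majorants -/
theorem T1_PG3 (κ T ℓ Qm D : ℕ) (A B : Finset ℕ)
    (hκ : ∀ q : ℕ, q.Coprime 10 → q.Coprime κ) (hℓ : ℓ ≤ T) (hA : A ⊆ Icc 1 ℓ) (hB : B ⊆ Icc 1 ℓ)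
    (hAB : Disjoint A B)
    (S : Finset ℕ) (hS : ∀ q ∈ S, 0 < q ∧ q ≤ Qm ∧ q.Coprime 10)
    (hD : ∀ n : ℕ, 1 ≤ n → n ≤ 18 * 10 ^ (2 * ℓ + 1) → (S.filter (fun q => q ∣ n)).card ≤ D) :
    ∑ q ∈ S, ∑ a ∈ AA q, PG3 κ T ℓ A B ((a : ℝ) / q) ≤
      Qm * (S.card * ((1 / 5) ^ A.card * (1 / 6) ^ B.card) + D) := by
  classical
  have h8 : (fun _ => 5 : Fin ℓ → ℕ) ∈ KK ℓ 11 := by
    unfold KK
    rw [Fintype.mem_piFinset]
    intro _
    simp
  have h1 : ∀ q ∈ S, ∑ a ∈ AA q, PG3 κ T ℓ A B ((a : ℝ) / q) ≤ Qm * ∑ f ∈ KK ℓ 11,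
      if (q : ℤ) ∣ (vl ℓ f : ℤ) - (vl ℓ (fun _ => 5) : ℤ) then cb3 A B ℓ f else 0 := by
    intro q hq
    obtain ⟨hq0, hqm, hq10⟩ := hS q hq
    have hcop : q.Coprime (κ * 10 ^ (T - ℓ)) :=
      Nat.Coprime.mul_right (hκ q hq10) (Nat.Coprime.pow_right _ hq10)
    calc ∑ a ∈ AA q, PG3 κ T ℓ A B ((a : ℝ) / q) ≤ ∑ a ∈ range q, PG3 κ T ℓ A B ((a : ℝ) / q) := by
          apply Finset.sum_le_sum_of_subset_of_nonneg (Finset.filter_subset _ _)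
          intro _ _ _
          exact PG3_nonneg _ _ _ _ _ _
      _ = (q : ℝ) * ∑ f ∈ KK ℓ 11,
          if (q : ℤ) ∣ (vl ℓ f : ℤ) - (vl ℓ (fun _ => 5) : ℤ) then cb3 A B ℓ f else 0 :=
          PG3_sum κ T ℓ A B hℓ q hq0 hcop
      _ ≤ _ := by
          apply mul_le_mul_of_nonneg_right (by exact_mod_cast hqm)
          apply Finset.sum_nonneg
          intro f _
          have := cb3_nonneg A B ℓ f
          split_ifs
          · exact this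
          · exact le_refl _
  refine (Finset.sum_le_sum h1).trans ?_
  rw [← Finset.mul_sum]
  apply mul_le_mul_of_nonneg_left _ (by positivity)
  rw [Finset.sum_comm]
  have h2 : ∀ f ∈ KK ℓ 11, ∑ q ∈ S,
      (if (q : ℤ) ∣ (vl ℓ f : ℤ) - (vl ℓ (fun _ => 5) : ℤ) then cb3 A B ℓ f else 0) ≤
      (if f = (fun _ => 5) then (S.card : ℝ) * cb3 A B ℓ f else 0) + D * cb3 A B ℓ f := by
    intro f hf
    have hnn := cb3_nonneg A B ℓ f
    rw [← Finset.sum_filter, Finset.sum_const, nsmul_eq_mul]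
    by_cases hpp : f = (fun _ => 5)
    · rw [if_pos hpp]
      have h3 : ((S.filter (fun q : ℕ => (q : ℤ) ∣ (vl ℓ f : ℤ) -
          (vl ℓ (fun _ => 5) : ℤ))).card : ℝ) ≤ S.card := by
        exact_mod_cast Finset.card_filter_le _ _
      have h4 := mul_le_mul_of_nonneg_right h3 hnn
      have h5 : 0 ≤ (D : ℝ) * cb3 A B ℓ f := by positivity
      linarith
    · rw [if_neg hpp, zero_add]
      apply mul_le_mul_of_nonneg_right _ hnn
      set n := ((vl ℓ f : ℤ) - (vl ℓ (fun _ => 5) : ℤ)).natAbs with hn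
      have hne : (vl ℓ f : ℤ) - (vl ℓ (fun _ => 5) : ℤ) ≠ 0 := by
        intro h0
        apply hpp
        apply vl_inj ℓ 11 (by norm_num) _ _ hf h8
        have : (vl ℓ f : ℤ) = vl ℓ (fun _ => 5) := by linarith
        exact_mod_cast this
      have hn1 : 1 ≤ n := by
        rw [hn]
        exact Int.natAbs_pos.mpr hne
      have hb1 := vl_le ℓ 11 _ hf
      have hb2 := vl_le ℓ 11 _ h8
      have hn2 : n ≤ 18 * 10 ^ (2 * ℓ + 1) := by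
        norm_num at hb1 hb2
        omega
      have h3 := hD n hn1 hn2
      have h4 : S.filter (fun q : ℕ => (q : ℤ) ∣ (vl ℓ f : ℤ) - (vl ℓ (fun _ => 5) : ℤ)) =
          S.filter (fun q => q ∣ n) := by
        apply Finset.filter_congr
        intro q _
        rw [hn, Int.natCast_dvd]
      rw [h4]
      exact_mod_cast h3
  refine (Finset.sum_le_sum h2).trans ?_
  rw [Finset.sum_add_distrib]
  have h3 : ∑ f ∈ KK ℓ 11, (if f = (fun _ => 5) then (S.card : ℝ) * cb3 A B ℓ f else 0) =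
      S.card * ((1 / 5) ^ A.card * (1 / 6) ^ B.card) := by
    rw [Finset.sum_ite_eq', if_pos h8, cb3_five A B ℓ hA hB hAB]
  have h4 : ∑ f ∈ KK ℓ 11, (D : ℝ) * cb3 A B ℓ f = D := by
    rw [← Finset.mul_sum, cb3_sum, mul_one]
  rw [h3, h4]

lemma PG3_eq (κ T ℓ : ℕ) (A B : Finset ℕ) (hA : A ⊆ Icc 1 ℓ) (hB : B ⊆ Icc 1 ℓ)
    (hAB : Disjoint A B) (α : ℝ) :
    PG3 κ T ℓ A B α = (∏ t ∈ A, p5 (α * ((κ * ww 10 T t : ℕ) : ℝ)) ^ 2) *
      ∏ t ∈ B, p6 (α * ((κ * ww 10 T t : ℕ) : ℝ)) ^ 2 := by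
  unfold PG3
  have h1 : ∀ t ∈ Icc 1 ℓ, psi3 A B t (α * ((κ * ww 10 T t : ℕ) : ℝ)) =
      (if t ∈ A then p5 (α * ((κ * ww 10 T t : ℕ) : ℝ)) ^ 2 else 1) *
      (if t ∈ B then p6 (α * ((κ * ww 10 T t : ℕ) : ℝ)) ^ 2 else 1) := by
    intro t _
    unfold psi3
    by_cases h : t ∈ A
    · have h2 : t ∉ B := Finset.disjoint_left.mp hAB h
      simp only [if_pos h, if_neg h2, mul_one]
    · by_cases h2 : t ∈ B
      · simp only [if_neg h, if_pos h2, one_mul]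
      · simp only [if_neg h, if_neg h2, mul_one]
  rw [Finset.prod_congr rfl h1, Finset.prod_mul_distrib, Finset.prod_ite_mem, Finset.prod_ite_mem,
    Finset.inter_eq_right.mpr hA, Finset.inter_eq_right.mpr hB]

/-- **First moment** of the weighted digit product over a set of moduli. -/
theorem T13_gen (κ T ℓ Qm D : ℕ) (A : Finset ℕ)
    (hκ : ∀ q : ℕ, q.Coprime 10 → q.Coprime κ) (hℓ : ℓ ≤ T) (hA : A ⊆ Icc 1 ℓ)
    (S : Finset ℕ) (hS : ∀ q ∈ S, 0 < q ∧ q ≤ Qm ∧ q.Coprime 10)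
    (hD : ∀ n : ℕ, 1 ≤ n → n ≤ 18 * 10 ^ (2 * ℓ + 1) → (S.filter (fun q => q ∣ n)).card ≤ D) :
    ∑ q ∈ S, ∑ a ∈ AA q, GF3 κ T A ((a : ℝ) / q) ≤
      Qm * (S.card * (1 / 30) ^ (A.card / 2) + D) := by
  classical
  obtain ⟨E, hE, hEc⟩ := Finset.exists_subset_card_eq (s := A) (n := A.card / 2) (Nat.div_le_self _ _)
  set F := A \ E with hF
  have hEF : Disjoint E F := Finset.disjoint_sdiff
  have hFA : F ⊆ A := Finset.sdiff_subset
  have hFc : F.card = A.card - A.card / 2 := by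
    rw [hF, Finset.card_sdiff_of_subset hE, hEc]
  have hU : E ∪ F = A := Finset.union_sdiff_of_subset hE
  have hpt : ∀ α : ℝ, GF3 κ T A α ≤ 1 / 2 * (PG3 κ T ℓ E F α + PG3 κ T ℓ F E α) := by
    intro α
    rw [PG3_eq κ T ℓ E F (hE.trans hA) (hFA.trans hA) hEF,
      PG3_eq κ T ℓ F E (hFA.trans hA) (hE.trans hA) hEF.symm]
    unfold GF3 ph3
    rw [← hU, Finset.prod_union hEF, Finset.prod_mul_distrib, Finset.prod_mul_distrib]
    simp only [Finset.prod_pow]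
    set a := ∏ t ∈ E, p5 (α * ((κ * ww 10 T t : ℕ) : ℝ)) with ha
    set b := ∏ t ∈ E, p6 (α * ((κ * ww 10 T t : ℕ) : ℝ)) with hb
    set c := ∏ t ∈ F, p5 (α * ((κ * ww 10 T t : ℕ) : ℝ)) with hc
    set d := ∏ t ∈ F, p6 (α * ((κ * ww 10 T t : ℕ) : ℝ)) with hd
    nlinarith [sq_nonneg (a * d - c * b)]
  have h1 := T1_PG3 κ T ℓ Qm D E F hκ hℓ (hE.trans hA) (hFA.trans hA) hEF S hS hD
  have h2 := T1_PG3 κ T ℓ Qm D F E hκ hℓ (hFA.trans hA) (hE.trans hA) hEF.symm S hS hD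
  have h3 : ∑ q ∈ S, ∑ a ∈ AA q, GF3 κ T A ((a : ℝ) / q) ≤
      1 / 2 * (∑ q ∈ S, ∑ a ∈ AA q, PG3 κ T ℓ E F ((a : ℝ) / q) +
        ∑ q ∈ S, ∑ a ∈ AA q, PG3 κ T ℓ F E ((a : ℝ) / q)) := by
    rw [← Finset.sum_add_distrib, Finset.mul_sum]
    apply Finset.sum_le_sum
    intro q _
    rw [← Finset.sum_add_distrib, Finset.mul_sum]
    exact Finset.sum_le_sum fun a _ => hpt _
  have h4 : ((1 : ℝ) / 5) ^ E.card * (1 / 6) ^ F.card ≤ (1 / 30) ^ (A.card / 2) := by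
    rw [hEc, hFc]
    calc ((1 : ℝ) / 5) ^ (A.card / 2) * (1 / 6) ^ (A.card - A.card / 2)
        ≤ (1 / 5) ^ (A.card / 2) * (1 / 6) ^ (A.card / 2) := by
          apply mul_le_mul_of_nonneg_left _ (by positivity)
          exact pow_le_pow_of_le_one (by norm_num) (by norm_num) (by omega)
      _ = (1 / 30) ^ (A.card / 2) := by rw [← mul_pow]; norm_num
  have h5 : ((1 : ℝ) / 5) ^ F.card * (1 / 6) ^ E.card ≤ (1 / 30) ^ (A.card / 2) := by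
    rw [hEc, hFc]
    calc ((1 : ℝ) / 5) ^ (A.card - A.card / 2) * (1 / 6) ^ (A.card / 2)
        ≤ (1 / 5) ^ (A.card / 2) * (1 / 6) ^ (A.card / 2) := by
          apply mul_le_mul_of_nonneg_right _ (by positivity)
          exact pow_le_pow_of_le_one (by norm_num) (by norm_num) (by omega)
      _ = (1 / 30) ^ (A.card / 2) := by rw [← mul_pow]; norm_num
  have hc0 : (0 : ℝ) ≤ S.card := Nat.cast_nonneg _
  have hQ0 : (0 : ℝ) ≤ Qm := Nat.cast_nonneg _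
  have h6 := mul_le_mul_of_nonneg_left (add_le_add_left (mul_le_mul_of_nonneg_left h4 hc0) (D : ℝ)) hQ0
  have h7 := mul_le_mul_of_nonneg_left (add_le_add_left (mul_le_mul_of_nonneg_left h5 hc0) (D : ℝ)) hQ0
  linarith

end Pool.Agent.Helper10.P3
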